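import Pool.Agent.R351.GD.H.Alx2

/-!
# Hypergeometric functions at several algebraic points: the linear algebra
-/

set_option autoImplicit false

open PowerSeries Pool.Agent.Y113 Pool.Agent.Y120.GF Pool.Agent.Y120.GH Pool.Agent.Y119.HZ

namespace Pool.Agent.R351.GD.H

/-- **expansion of a polynomial over a number field in a basis** -/
theorem expand_pxK {N r Δ : ℕ} {B : Finset (Fin Δ → Option (Fin r))} (κ : (Fin Δ → Option (Fin r)) → B → ℚ)
    (K : IntermediateField ℚ ℂ) (P : MvPolynomial (Fin N × Option (Fin r)) K) (hP : P.totalDegree ≤ Δ) :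
    ∃ Γ : (Fin N → B × Fin (Δ + 1)) → K, ∀ (x : Fin N → ℂ) (z : Fin N → Fin r → ℂ),
      (∀ l w, yw (z l) w = ∑ b, ((κ w b : ℚ) : ℂ) * yw (z l) b.1) →
      MvPolynomial.aeval (px x z) P = ∑ c, ((Γ c : K) : ℂ) * ∏ l, (yw (z l) (c l).1.1 * x l ^ ((c l).2 : ℕ)) := by
  classical
  have hdeg : ∀ m ∈ P.support, ∑ p, m p ≤ Δ := by
    intro m hm'
    have h1 := (MvPolynomial.le_totalDegree hm').trans hP
    rwa [Finsupp.sum_fintype _ _ (fun _ => rfl)] at h1
  have hdl : ∀ m ∈ P.support, ∀ l : Fin N, m (l, none) + ∑ i : Fin r, m (l, some i) ≤ Δ := by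
    intro m hm' l
    refine le_trans ?_ (hdeg m hm')
    rw [Fintype.sum_prod_type]
    have h1 := Finset.single_le_sum (f := fun l => ∑ i : Option (Fin r), m (l, i)) (fun _ _ => Nat.zero_le _) (Finset.mem_univ l)
    refine le_trans (le_of_eq ?_) h1
    rw [Fintype.sum_option]
  have hw : ∀ (m : P.support) (l : Fin N), ∃ f : Fin Δ → Option (Fin r), ∀ z : Fin r → ℂ,
      yw z f = ∏ i, z i ^ (m : (Fin N × Option (Fin r)) →₀ ℕ) (l, some i) := fun m l =>
    word_c r Δ _ ((Nat.le_add_left _ _).trans (hdl m m.2 l))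
  choose f hf using hw
  have hj : ∀ (m : P.support) (l : Fin N), (m : (Fin N × Option (Fin r)) →₀ ℕ) (l, none) < Δ + 1 := fun m l =>
    Nat.lt_succ_of_le ((Nat.le_add_right _ _).trans (hdl m m.2 l))
  set co : P.support → Fin N → B × Fin (Δ + 1) → ℚ := fun m l c =>
    if c.2 = ⟨_, hj m l⟩ then κ (f m l) c.1 else 0 with hco
  refine ⟨fun c => ∑ m : P.support, P.coeff m * ((∏ l, co m l (c l) : ℚ) : K), fun x z hz => ?_⟩
  have h1 : ∀ (m : P.support) (l : Fin N), (∏ o : Option (Fin r), px x z (l, o) ^ (m : (Fin N × Option (Fin r)) →₀ ℕ) (l, o)) =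
      ∑ c : B × Fin (Δ + 1), ((co m l c : ℚ) : ℂ) * (yw (z l) c.1.1 * x l ^ (c.2 : ℕ)) := by
    intro m l
    rw [Fintype.prod_option]
    have h2 : ∏ i : Fin r, px x z (l, some i) ^ (m : (Fin N × Option (Fin r)) →₀ ℕ) (l, some i) = yw (z l) (f m l) := (hf m l (z l)).symm
    rw [h2, hz l, Fintype.sum_prod_type, Finset.mul_sum]
    refine Finset.sum_congr rfl fun b _ => ?_
    rw [Finset.sum_eq_single (⟨_, hj m l⟩ : Fin (Δ + 1))]
    · rw [hco]
      simp only [if_true]
      show x l ^ _ * _ = _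
      ring
    · intro j _ hj'
      rw [hco]
      simp only [if_neg hj']
      rw [Rat.cast_zero, zero_mul]
    · intro h
      exact absurd (Finset.mem_univ _) h
  rw [MvPolynomial.aeval_def, MvPolynomial.eval₂_eq', ← Finset.sum_coe_sort P.support]
  have h3 : ∀ m : P.support, (algebraMap K ℂ) (P.coeff m) * ∏ p, px x z p ^ (m : (Fin N × Option (Fin r)) →₀ ℕ) p =
      ∑ c : Fin N → B × Fin (Δ + 1), ((P.coeff m * ((∏ l, co m l (c l) : ℚ) : K) : K) : ℂ) *
        ∏ l, (yw (z l) (c l).1.1 * x l ^ ((c l).2 : ℕ)) := by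
    intro m
    rw [Fintype.prod_prod_type, Finset.prod_congr rfl fun l _ => h1 m l, Finset.prod_univ_sum, Fintype.piFinset_univ,
      Finset.mul_sum]
    refine Finset.sum_congr rfl fun c _ => ?_
    have h4 : (algebraMap K ℂ) (P.coeff m) = ((P.coeff m : K) : ℂ) := rfl
    rw [Finset.prod_mul_distrib, h4]
    push_cast
    ring
  rw [Finset.sum_congr rfl fun m _ => h3 m, Finset.sum_comm]
  refine Finset.sum_congr rfl fun c _ => ?_
  rw [← Finset.sum_mul]
  congr 1
  push_cast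
  rfl

section
variable {N δ D : ℕ} {β : Type} {F : Type} [Field F] {B : Finset (Fin δ → β)} {B' : Finset (Fin D → β)}
  {B'' : Finset (Fin (δ + D) → β)}

/-- the coordinates of the product of a combination with a product of words -/
def vvN (M : (Fin (δ + D) → β) → B'' → ℤ) (Γ : (Fin N → B × Fin (δ + 1)) → F) (c' : Fin N → B' × Fin (D + 1))
    (c'' : Fin N → B'' × Fin (δ + D + 1)) : F :=
  ∑ c, Γ c * ∏ l, if ((c'' l).2 : ℕ) = (c l).2 + (c' l).2 then
    ((M (Fin.append (c l).1.1 (c' l).1.1) (c'' l).1 : ℤ) : F) else 0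

/-- the products of words at the points, with powers of the logarithms -/
def pr {R : Type} [CommRing R] {δ : ℕ} {B : Finset (Fin δ → β)} (u : Fin N → β → R) (x : Fin N → R)
    (c : Fin N → B × Fin (δ + 1)) : R := ∏ l, ((∏ j, u l ((c l).1.1 j)) * x l ^ ((c l).2 : ℕ))

theorem vvN_eq {R : Type} [CommRing R] (i : F →+* R) (M : (Fin (δ + D) → β) → B'' → ℤ) (a : ℤ)
    (Γ : (Fin N → B × Fin (δ + 1)) → F) (c' : Fin N → B' × Fin (D + 1)) (u : Fin N → β → R) (x : Fin N → R)
    (hu : ∀ (l : Fin N) (w : Fin (δ + D) → β), (a : R) * ∏ j, u l (w j) = ∑ b, (M w b : R) * ∏ j, u l (b.1 j)) :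
    ∑ c'', i (vvN M Γ c' c'') * pr u x c'' = (a : R) ^ N * (∑ c, i (Γ c) * pr u x c) * pr u x c' := by
  classical
  have key : ∀ (l : Fin N) (b : B × Fin (δ + 1)) (b' : B' × Fin (D + 1)),
      ∑ d : B'' × Fin (δ + D + 1), (if (d.2 : ℕ) = b.2 + b'.2 then ((M (Fin.append b.1.1 b'.1.1) d.1 : ℤ) : R) else 0) *
        ((∏ j, u l (d.1.1 j)) * x l ^ (d.2 : ℕ)) =
      (a : R) * (((∏ j, u l (b.1.1 j)) * x l ^ (b.2 : ℕ)) * ((∏ j, u l (b'.1.1 j)) * x l ^ (b'.2 : ℕ))) := by
    intro l b b'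
    have hlt : (b.2 : ℕ) + b'.2 < δ + D + 1 := by
      have h1 := b.2.2
      have h2 := b'.2.2
      omega
    rw [Fintype.sum_prod_type]
    have h1 : ∀ b'' : B'', ∑ e : Fin (δ + D + 1), (if (e : ℕ) = b.2 + b'.2 then ((M (Fin.append b.1.1 b'.1.1) b'' : ℤ) : R) else 0) *
        ((∏ j, u l (b''.1 j)) * x l ^ (e : ℕ)) =
        (((M (Fin.append b.1.1 b'.1.1) b'' : ℤ) : R) * ∏ j, u l (b''.1 j)) * x l ^ ((b.2 : ℕ) + b'.2) := by
      intro b''
      rw [Finset.sum_eq_single (⟨_, hlt⟩ : Fin (δ + D + 1))]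
      · rw [if_pos rfl]
        ring
      · intro e _ he
        rw [if_neg, zero_mul]
        intro h
        exact he (Fin.ext h)
      · intro h
        exact absurd (Finset.mem_univ _) h
    rw [Finset.sum_congr rfl fun b'' _ => h1 b'', ← Finset.sum_mul, ← hu l, prod_app, pow_add]
    ring
  have hmap : ∀ (c : Fin N → B × Fin (δ + 1)) (c'' : Fin N → B'' × Fin (δ + D + 1)),
      i (Γ c * ∏ l, if ((c'' l).2 : ℕ) = (c l).2 + (c' l).2 then
        ((M (Fin.append (c l).1.1 (c' l).1.1) (c'' l).1 : ℤ) : F) else 0) * pr u x c'' =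
      i (Γ c) * ∏ l, ((if ((c'' l).2 : ℕ) = (c l).2 + (c' l).2 then
        ((M (Fin.append (c l).1.1 (c' l).1.1) (c'' l).1 : ℤ) : R) else 0) *
        ((∏ j, u l ((c'' l).1.1 j)) * x l ^ ((c'' l).2 : ℕ))) := by
    intro c c''
    rw [map_mul, map_prod, Finset.prod_mul_distrib]
    unfold pr
    rw [mul_assoc]
    congr 2
    refine Finset.prod_congr rfl fun l _ => ?_
    split_ifs
    · rw [map_intCast]
    · rw [map_zero]
  calc ∑ c'', i (vvN M Γ c' c'') * pr u x c'' =
      ∑ c'' : Fin N → B'' × Fin (δ + D + 1), ∑ c : Fin N → B × Fin (δ + 1), i (Γ c) * ∏ l, ((if ((c'' l).2 : ℕ) = (c l).2 + (c' l).2 then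
        ((M (Fin.append (c l).1.1 (c' l).1.1) (c'' l).1 : ℤ) : R) else 0) *
        ((∏ j, u l ((c'' l).1.1 j)) * x l ^ ((c'' l).2 : ℕ))) := by
        refine Finset.sum_congr rfl fun c'' _ => ?_
        unfold vvN
        rw [map_sum, Finset.sum_mul]
        exact Finset.sum_congr rfl fun c _ => hmap c c''
    _ = ∑ c : Fin N → B × Fin (δ + 1), i (Γ c) * ∏ l, ((a : R) * (((∏ j, u l ((c l).1.1 j)) * x l ^ ((c l).2 : ℕ)) *
        ((∏ j, u l ((c' l).1.1 j)) * x l ^ ((c' l).2 : ℕ)))) := by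
        rw [Finset.sum_comm]
        refine Finset.sum_congr rfl fun c _ => ?_
        rw [← Finset.mul_sum]
        congr 1
        rw [Finset.prod_congr rfl fun l _ => (key l (c l) (c' l)).symm, Finset.prod_univ_sum, Fintype.piFinset_univ]
    _ = _ := by
        rw [Finset.mul_sum, Finset.sum_mul]
        refine Finset.sum_congr rfl fun c _ => ?_
        unfold pr
        rw [Finset.prod_mul_distrib, Finset.prod_mul_distrib, Finset.prod_const, Finset.card_univ, Fintype.card_fin]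
        ring

/-- independence of the relations -/
theorem vvN_li {R : Type} [CommRing R] [IsDomain R] (i : F →+* R) (M : (Fin (δ + D) → β) → B'' → ℤ) (a : ℤ) (ha : (a : R) ≠ 0)
    (Γ : (Fin N → B × Fin (δ + 1)) → F) (u : Fin N → β → R) (x : Fin N → R)
    (hu : ∀ (l : Fin N) (w : Fin (δ + D) → β), (a : R) * ∏ j, u l (w j) = ∑ b, (M w b : R) * ∏ j, u l (b.1 j))
    (hΓ : ∑ c, i (Γ c) * pr u x c ≠ 0)
    (hB' : ∀ γ : (Fin N → B' × Fin (D + 1)) → F, ∑ c', i (γ c') * pr u x c' = 0 → ∀ c', γ c' = 0) :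
    LinearIndependent F (fun (c' : Fin N → B' × Fin (D + 1)) (c'' : Fin N → B'' × Fin (δ + D + 1)) => vvN M Γ c' c'') := by
  classical
  rw [Fintype.linearIndependent_iff]
  intro γ hγ
  have h0 : ∀ c'', ∑ c', γ c' * vvN M Γ c' c'' = 0 := by
    intro c''
    have := congrFun hγ c''
    rw [Finset.sum_apply] at this
    simpa using this
  refine hB' γ ?_
  have h1 : (a : R) ^ N * (∑ c, i (Γ c) * pr u x c) * ∑ c', i (γ c') * pr u x c' = 0 := by
    calc (a : R) ^ N * (∑ c, i (Γ c) * pr u x c) * ∑ c', i (γ c') * pr u x c' =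
        ∑ c', i (γ c') * ((a : R) ^ N * (∑ c, i (Γ c) * pr u x c) * pr u x c') := by
          rw [Finset.mul_sum]
          exact Finset.sum_congr rfl fun c' _ => by ring
      _ = ∑ c', ∑ c'', i (γ c' * vvN M Γ c' c'') * pr u x c'' := by
          refine Finset.sum_congr rfl fun c' _ => ?_
          rw [← vvN_eq i M a Γ c' u x hu, Finset.mul_sum]
          refine Finset.sum_congr rfl fun c'' _ => ?_
          rw [map_mul]
          ring
      _ = 0 := by
          rw [Finset.sum_comm]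
          refine Finset.sum_eq_zero fun c'' _ => ?_
          rw [← Finset.sum_mul, ← map_sum, h0, map_zero, zero_mul]
  exact (mul_eq_zero.1 h1).resolve_left (mul_ne_zero (pow_ne_zero _ ha) hΓ)

end

/-- independence over a number field of power series with rational coefficients -/
theorem ps_ext {ι : Type} [Fintype ι] (f : ι → ℚ⟦X⟧) (hf : LinearIndependent (Polynomial ℚ) f) (K : Type) [Field K]
    [Algebra ℚ K] (γ : ι → K) (h : ∑ b, (C (γ b) : K⟦X⟧) * PowerSeries.map (algebraMap ℚ K) (f b) = 0) : ∀ b, γ b = 0 := by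
  intro b
  rw [← Module.forall_dual_apply_eq_zero_iff ℚ (γ b)]
  intro φ
  have h1 : ∑ b, (Polynomial.C (φ (γ b)) : Polynomial ℚ) • f b = 0 := by
    refine PowerSeries.ext fun m => ?_
    have h2 := congrArg (coeff m) h
    rw [map_sum, map_zero] at h2 ⊢
    have h3 : ∀ b, coeff m ((C (γ b) : K⟦X⟧) * PowerSeries.map (algebraMap ℚ K) (f b)) = (coeff m (f b) : ℚ) • γ b := by
      intro b
      rw [coeff_C_mul, coeff_map, Algebra.smul_def, mul_comm]
    have h4 : ∀ b, coeff m ((Polynomial.C (φ (γ b)) : Polynomial ℚ) • f b) = (coeff m (f b) : ℚ) • φ (γ b) := by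
      intro b
      rw [psmul, Polynomial.coe_C, coeff_C_mul, smul_eq_mul, mul_comm]
    rw [Finset.sum_congr rfl fun b _ => h3 b] at h2
    rw [Finset.sum_congr rfl fun b _ => h4 b]
    have h5 := congrArg φ h2
    rw [map_sum, map_zero] at h5
    rw [← h5]
    exact Finset.sum_congr rfl fun b _ => (map_smul φ _ _).symm
  have h2 := Fintype.linearIndependent_iff.1 hf (fun b => Polynomial.C (φ (γ b))) h1 b
  exact Polynomial.C_eq_zero.1 h2

end Pool.Agent.R351.GD.H
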