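import Pool.Agent.R351.GD.H.AlN1
import Pool.Agent.R351.GD.S.Mul
import Pool.Agent.Y547.AF.Fin

/-!
# Hypergeometric functions at several algebraic points: the relations over number fields of growing degree
-/

set_option autoImplicit false

open PowerSeries Pool.Agent.Y113 Pool.Agent.Y120.GF Pool.Agent.Y120.GH Pool.Agent.Y119.HZ
open Pool.Agent.Y119.HY (QD Jm cm Hf Hc)
open Pool.Agent.Y916.Al (Pt evc Cvc)

namespace Pool.Agent.R351.GD.H

variable {n : ℕ} {Q : Polynomial ℚ}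

/-- **the data for the hypergeometric family** -/
theorem packC (hQ : QD n Q) (hH : ∀ i j, SDc (Hp n Q i j)) : ∃ (q₀ R c : ℕ) (Eb : ℕ → ℕ) (Tg : ℕ → Polynomial ℤ) (d : ℕ)
    (K : Matrix (Fin n) (Fin n) ℤ), IK n Q d K ∧ PB Eb ∧
    (∀ (g : ℕ) (ξ : ℂ), (g : ℝ) + c < ‖ξ‖ → Polynomial.aeval (1 / ξ) (Tg g) ≠ 0) ∧
    ∀ δ : ℕ, ∃ (B : Finset (Fin δ → Option (Fin (n * n)))) (a : ℤ) (M : (Fin δ → Option (Fin (n * n))) → B → ℤ), a ≠ 0 ∧
      (fun _ => none) ∈ B ∧ B.card ≤ Eb δ ∧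
      (∀ w, MvPolynomial.C a * ∏ i, uu K (w i) = ∑ b, MvPolynomial.C (M w b) * ∏ i, uu K (b.1 i)) ∧
      (∀ g : ℕ, GSys q₀ (((g : ℝ) + 2) ^ Eb δ) (Tg g) (Ys (hf n Q) B g)) ∧
      ∀ (k : ℕ) (g : Fin k → ℕ), SepR R g → LinearIndependent (Polynomial ℚ)
        (fun b : Fin k → B × Fin (δ + 1) => ∏ l, Ys (hf n Q) B (g l) (b l)) := by
  classical
  obtain ⟨d, K, hK⟩ := exists_IK n Q
  obtain ⟨D', b', hD', hb'⟩ := exists_b n Q
  obtain ⟨q, Cg, hG0⟩ := gsys_Hp hQ hH hb'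
  have hG : GSys q Cg (Polynomial.X * T1 D') (hf n Q) := hG0.reindex (ix n)
  have hT : Polynomial.X * T1 D' ≠ 0 := by
    refine mul_ne_zero Polynomial.X_ne_zero (mul_ne_zero (Polynomial.C_ne_zero.2 (by exact_mod_cast hD')) ?_)
    intro h0
    have := congrArg (Polynomial.eval 0) h0
    simp at this
  have hode : ∀ i : Fin (n * n), ps (Polynomial.X * T1 D') * d⁄dX ℚ (hf n Q i) =
      ∑ j, ps (A2 n D' b' (ix n i) (ix n j)) * hf n Q j := by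
    intro i
    have h1 := ode_A2 hQ hb' (ix n i)
    have h2 : ∑ j : Fin (n * n), ps (A2 n D' b' (ix n i) (ix n j)) * hf n Q j =
        ∑ q, ps (A2 n D' b' (ix n i) q) * Hp n Q q.1 q.2 :=
      Equiv.sum_comp (ix n) fun q => ps (A2 n D' b' (ix n i) q) * Hp n Q q.1 q.2
    exact h1.trans h2.symm
  obtain ⟨R, hR⟩ := li_fam (A := fun a c => A2 n D' b' (ix n a) (ix n c)) hT hode hG (qu_hf hQ hH hb')
  obtain ⟨q₀, E₀, hS⟩ := sys hG
  obtain ⟨c, hc⟩ := Pool.Agent.Y547.AF.Tg_neC hT hG.degT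
  have huu : MvPolynomial.eval (fun _ => (0 : ℤ)) (uu K none) ≠ 0 := by
    have hD := (uu_at K (MvPolynomial.eval (fun _ : Sx n => (0 : ℤ)))).1
    rw [hD]
    have h3 : (fun p : Sx n => MvPolynomial.eval (fun _ : Sx n => (0 : ℤ)) (MvPolynomial.X p)) = fun _ : Sx n => (0 : ℤ) := by
      funext p
      rw [MvPolynomial.eval_X]
    have h4 : (sy fun _ : Sx n => (0 : ℤ)) = 0 := by
      ext i j
      unfold sy
      rw [Matrix.of_apply]
      split_ifs <;> rfl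
    rw [h3]
    unfold cD
    rw [h4, mul_zero, sub_zero, Matrix.det_one]
    exact one_ne_zero
  obtain ⟨E, hE, hbas⟩ := bas (uu K) none huu
  refine ⟨q₀, R, c, fun δ => 2 * E δ + E₀ * (δ + 1), fun g => Pool.Agent.Y120.GH.Tg q (Polynomial.X * T1 D') g, d, K, hK,
    ((PB.const 2).mul hE).add ((PB.const E₀).mul (PB.id.add (PB.const 1))), hc, fun δ => ?_⟩
  obtain ⟨B, a, M, ha0, h0B, ha, hM, hB, hrel, hli⟩ := hbas δ
  have hps := rel_ps hQ hK hrel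
  refine ⟨B, a, M, ha0, h0B, ?_, hrel, fun g => hS δ B a M (E δ) ha0 ha hM hps g, fun k g hg => ?_⟩
  · show B.card ≤ 2 * E δ + E₀ * (δ + 1)
    have h9 : 0 ≤ E₀ * (δ + 1) := Nat.zero_le _
    omega
  · have h1 := hR δ B (li_ps hQ hK hli) (δ + 1) k g hg
    rw [Fintype.linearIndependent_iff] at h1 ⊢
    intro G hG' b₀
    have h2 := h1 (fun b => G b * Polynomial.C (∏ l, (((b l).2 : ℕ).factorial : ℚ))) (by
      rw [← hG']
      refine Finset.sum_congr rfl fun b _ => ?_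
      rw [psmul, psmul, Polynomial.coe_mul, Polynomial.coe_C, mul_assoc]
      congr 1
      rw [map_prod, ← Finset.prod_mul_distrib]
      refine Finset.prod_congr rfl fun l _ => ?_
      unfold Fg Ys yQ
      have h3 : (C (((b l).2 : ℕ).factorial : ℚ) : ℚ⟦X⟧) * C (1 / (((b l).2 : ℕ).factorial : ℚ)) = 1 := by
        rw [← map_mul, mul_one_div_cancel (by exact_mod_cast Nat.factorial_ne_zero _), map_one]
      calc (C (((b l).2 : ℕ).factorial : ℚ) : ℚ⟦X⟧) * (sf (g l) (yw (hf n Q) (b l).1.1) *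
            (C (1 / (((b l).2 : ℕ).factorial : ℚ)) * lg (g l) ^ ((b l).2 : ℕ))) =
          (C (((b l).2 : ℕ).factorial : ℚ) * C (1 / (((b l).2 : ℕ).factorial : ℚ))) *
            (sf (g l) (yw (hf n Q) (b l).1.1) * lg (g l) ^ ((b l).2 : ℕ)) := by ring
        _ = _ := by rw [h3, one_mul]) b₀
    refine (mul_eq_zero.1 h2).resolve_right ?_
    rw [Polynomial.C_eq_zero, Finset.prod_eq_zero_iff]
    rintro ⟨l, -, hl⟩
    exact Nat.factorial_ne_zero _ (by exact_mod_cast hl)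

/-- **the relations between the values at algebraic points hold on the product of the groups** -/
theorem nrelA (hQ : QD n Q) (hH : ∀ i j, SDc (Hp n Q i j)) : ∃ R : ℕ, ∀ N : ℕ, ∃ E : ℕ → ℕ, PB E ∧
    ∀ (s m A H : ℕ), m ≤ s → 2 * A * m ≤ s → ∀ (K : IntermediateField ℚ ℂ) (ξ : K) (X : ℝ), FiniteDimensional ℚ K →
    Module.finrank ℚ K ≤ m → Pt K ξ X → ((H : ℝ) + 2) ^ E s ≤ ‖(ξ : ℂ)‖ → X ≤ ‖(ξ : ℂ)‖ ^ A →
    ∀ g : Fin N → ℕ, SepR R g → (∀ l, g l ≤ H) →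
    ∀ P : MvPolynomial (Fin N × Option (Fin (n * n))) K, P.totalDegree ≤ s →
    MvPolynomial.aeval (px (fun l => Complex.log (1 - (g l : ℂ) / (ξ : ℂ)))
      fun l => en (Hf (Hc n Q) (1 / ((ξ : ℂ) - (g l : ℂ))))) P = 0 →
    ∀ (x : Fin N → ℂ) (Y : Fin N → Matrix (Fin n) (Fin n) ℂ),
      (∀ l, (Y l).transpose * cm (Jm n Q) * Y l = cm (Jm n Q)) →
      MvPolynomial.aeval (px x fun l => en (Y l)) P = 0 := by
  classical
  obtain ⟨q₀, R, c, Eb, Tg, d, KI, hKI, hEb, hc, hpk⟩ := packC hQ hH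
  choose B a M ha h0B hB hrel hsys hli using hpk
  obtain ⟨C₁, hC₁, hs, -⟩ := Pool.Agent.Y119.HY.SDc.unif (y := fun p : Fin n × Fin n => Hp n Q p.1 p.2) fun p => hH p.1 p.2
  obtain ⟨C₂, hC₂⟩ := exists_nat_ge C₁
  refine ⟨R, fun N => ?_⟩
  obtain ⟨q, EF, ⟨Ce, hCe⟩, hF⟩ := multi_exp q₀ Eb hEb N
  obtain ⟨E₂, ⟨C₃, hC₃⟩, hE₂⟩ := gk2 q
  obtain ⟨Cb, hCb⟩ : PB fun D => (Eb D * (D + 1)) ^ N := (hEb.mul (PB.id.add (PB.const 1))).pow N
  set Dm : ℕ → ℕ := fun s => s * (4 * (2 * Cb) * (s * s + 2 * Cb + 2) ^ 2 + 1) * s + s with hDm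
  set Nb : ℕ → ℕ := fun s => (Dm s + s + 2) ^ Cb with hNb
  set Fb : ℕ → ℕ := fun s => (Dm s + s + 2) ^ Ce with hFb
  have hDmp : PB Dm := by
    have h1 : PB fun s : ℕ => s * s + 2 * Cb + 2 := ((PB.id.mul PB.id).add (PB.const (2 * Cb))).add (PB.const 2)
    exact ((PB.id.mul (((PB.const (4 * (2 * Cb))).mul (h1.pow 2)).add (PB.const 1))).mul PB.id).add PB.id
  have hNbp : PB Nb := ((hDmp.add PB.id).add (PB.const 2)).pow Cb
  have hFbp : PB Fb := ((hDmp.add PB.id).add (PB.const 2)).pow Ce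
  refine ⟨fun s => (c + C₂ + 4) + (Fb s + 1) * ((Nb s + 2) ^ C₃ * (s + 1)),
    (PB.const _).add ((hFbp.add (PB.const 1)).mul (((hNbp.add (PB.const 2)).pow C₃).mul (PB.id.add (PB.const 1)))), ?_⟩
  intro s m A H hm hA K ξ X hfd hrk hPt hξE hXA g hsep hgH P hP hP0 x Y hY
  set Et : ℕ := (c + C₂ + 4) + (Fb s + 1) * ((Nb s + 2) ^ C₃ * (s + 1)) with hEt
  have hξE : ((H : ℝ) + 2) ^ Et ≤ ‖(ξ : ℂ)‖ := hξE
  by_contra hne
  have hH2 : (1 : ℝ) ≤ (H : ℝ) + 2 := one_le_base H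
  have hge : ∀ e ≤ Et, ((H : ℝ) + 2) ^ e ≤ ‖(ξ : ℂ)‖ := fun e he => (base_mono hH2 he).trans hξE
  have hbig : (H : ℝ) + (c + C₂ + 3) < ‖(ξ : ℂ)‖ := by
    refine lt_of_lt_of_le ?_ (hge (c + C₂ + 4) (by omega))
    have h1 : H + (c + C₂ + 3) < (H + 2) ^ (c + C₂ + 4) := big_pow (H := H) (c := c + C₂ + 3) le_rfl
    have h2 : ((H + (c + C₂ + 3) : ℕ) : ℝ) < (((H + 2) ^ (c + C₂ + 4) : ℕ) : ℝ) := by exact_mod_cast h1
    push_cast at h2
    exact h2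
  have hc0 : (0 : ℝ) ≤ c := Nat.cast_nonneg c
  have hC20 : (0 : ℝ) ≤ C₂ := Nat.cast_nonneg C₂
  have hH0 : (0 : ℝ) ≤ H := Nat.cast_nonneg H
  have hC0 : (0 : ℝ) ≤ C₁ := by linarith
  have hξp : 0 < ‖(ξ : ℂ)‖ := by linarith
  have hξ1 : 1 ≤ ‖(ξ : ℂ)‖ := by linarith
  have hξ0 : ξ ≠ 0 := by
    rintro rfl
    simp at hξp
  have hgR : ∀ l, ((g l : ℕ) : ℝ) ≤ H := fun l => by exact_mod_cast hgH l
  have hg1 : ∀ l, ((g l : ℕ) : ℝ) < ‖(ξ : ℂ)‖ := fun l => by linarith [hgR l]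
  have hg2 : ∀ l, ((g l : ℕ) : ℝ) + C₁ < ‖(ξ : ℂ)‖ := fun l => by linarith [hgR l]
  have hg3 : ∀ l, ((g l : ℕ) : ℝ) + c < ‖(ξ : ℂ)‖ := fun l => by linarith [hgR l]
  have hz1 : ∀ l, ‖1 / ((ξ : ℂ) - (g l : ℂ))‖ < 1 := by
    intro l
    have h1 := norm_sub_norm_le (ξ : ℂ) (g l : ℂ)
    rw [Complex.norm_natCast] at h1
    rw [norm_div, norm_one, div_lt_one (by linarith [hgR l])]
    linarith [hgR l]
  have hs' : ∀ (j : Fin (n * n)) m, |((coeff m (hf n Q j) : ℚ) : ℝ)| ≤ C₁ ^ (m + 1) := fun j m =>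
    hs (Pool.Agent.Y119.HZ.ix n j) m
  -- the degree of the multipliers
  have hcard : ∀ D, Fintype.card (Fin N → B D × Fin (D + 1)) ≤ (D + 2) ^ Cb := by
    intro D
    rw [Fintype.card_fun, Fintype.card_prod, Fintype.card_coe, Fintype.card_fin, Fintype.card_fin]
    exact (Nat.pow_le_pow_left (Nat.mul_le_mul_right _ (hB D)) _).trans (hCb D)
  have hpos : ∀ D, 1 ≤ Fintype.card (Fin N → B D × Fin (D + 1)) := by
    intro D
    exact Fintype.card_pos_iff.2 ⟨fun _ => (⟨fun _ => none, h0B D⟩, 0)⟩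
  obtain ⟨D, hD, hgr⟩ := grow Cb s s (fun D => Fintype.card (Fin N → B D × Fin (D + 1))) hpos hcard
  have hD : D ≤ Dm s := hD
  have hgr : s * (Fintype.card (Fin N → B (D + s) × Fin (D + s + 1)) - Fintype.card (Fin N → B D × Fin (D + 1))) ≤
    Fintype.card (Fin N → B (D + s) × Fin (D + s + 1)) := hgr
  rw [Nat.add_comm D s] at hgr
  have hN : Fintype.card (Fin N → B (s + D) × Fin (s + D + 1)) ≤ Nb s :=
    (hcard _).trans (Nat.pow_le_pow_left (by omega) _)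
  have hFN : EF (s + D) ≤ Fb s := (hCe _).trans (Nat.pow_le_pow_left (by omega) _)
  -- the coordinates of the relation
  have haQ : ∀ D, (a D : ℂ) ≠ 0 := fun D => by exact_mod_cast ha D
  have hgood : ∀ Z : Matrix (Fin n) (Fin n) ℂ, Z.transpose * cm (Jm n Q) * Z = cm (Jm n Q) →
      ∀ w, yw (en Z) w = ∑ b, (((M s w b : ℚ) / a s : ℚ) : ℂ) * yw (en Z) b.1 := by
    intro Z hZ w
    have h1 := rel_sp hQ hKI (hrel s) hZ w
    have h2 : (a s : ℂ) * yw (en Z) w = ∑ b, (M s w b : ℂ) * yw (en Z) b.1 := h1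
    rw [← mul_right_inj' (haQ s), h2, Finset.mul_sum]
    refine Finset.sum_congr rfl fun b _ => ?_
    have h3 := haQ s
    push_cast
    field_simp
  obtain ⟨Γ, hΓ⟩ := expand_pxK (fun w b => (M s w b : ℚ) / a s) K P hP
  set lgv : Fin N → ℂ := fun l => Complex.log (1 - (g l : ℂ) / (ξ : ℂ)) with hlgv
  set Z : Fin N → Matrix (Fin n) (Fin n) ℂ := fun l => Hf (Hc n Q) (1 / ((ξ : ℂ) - (g l : ℂ))) with hZ
  have hZg : ∀ l, (Z l).transpose * cm (Jm n Q) * Z l = cm (Jm n Q) := fun l =>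
    Pool.Agent.Y119.HA.form_c hQ (hz1 l)
  have hΓZ : ∑ c, ((Γ c : K) : ℂ) * ∏ l, (yw (en (Z l)) (c l).1.1 * lgv l ^ ((c l).2 : ℕ)) = 0 := by
    rw [← hΓ lgv (fun l => en (Z l)) (fun l w => hgood _ (hZg l) w)]
    exact hP0
  have hΓ0 : ¬ ∀ c, Γ c = 0 := by
    intro hcon
    have h1 := hΓ x (fun l => en (Y l)) (fun l w => hgood _ (hY l) w)
    rw [Finset.sum_eq_zero fun c _ => by rw [hcon c]; simp] at h1
    exact hne h1
  -- independence of the relations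
  set uK : Fin N → Option (Fin (n * n)) → K⟦X⟧ := fun l o =>
    PowerSeries.map (algebraMap ℚ K) (sf (g l) (o.elim 1 (hf n Q))) with huK
  set xK : Fin N → K⟦X⟧ := fun l => PowerSeries.map (algebraMap ℚ K) (lg (g l)) with hxK
  have hpr : ∀ (D : ℕ) (b : Fin N → B D × Fin (D + 1)), pr uK xK b =
      PowerSeries.map (algebraMap ℚ K) (∏ l, Ys (hf n Q) (B D) (g l) (b l)) := by
    intro D b
    unfold pr Ys yw
    rw [map_prod]
    refine Finset.prod_congr rfl fun l _ => ?_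
    rw [map_mul, map_pow, sf_prod, map_prod]
  have hmapi : ∀ z : ℤ, PowerSeries.map (algebraMap ℚ K) ((z : ℤ) : ℚ⟦X⟧) = ((z : ℤ) : K⟦X⟧) := fun z => map_intCast _ _
  have hKu : ∀ (l : Fin N) (w : Fin (s + D) → Option (Fin (n * n))), ((a (s + D) : ℤ) : K⟦X⟧) * ∏ j, uK l (w j) =
      ∑ b, ((M (s + D) w b : ℤ) : K⟦X⟧) * ∏ j, uK l (b.1 j) := by
    intro l w
    have h1 := congrArg (fun f => PowerSeries.map (algebraMap ℚ K) (sf (g l) f)) (rel_ps hQ hKI (hrel (s + D)) w)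
    simp only [sf_int] at h1
    have h2 : ∀ w : Fin (s + D) → Option (Fin (n * n)), ∏ j, uK l (w j) =
        PowerSeries.map (algebraMap ℚ K) (sf (g l) (yw (hf n Q) w)) := by
      intro w
      unfold yw
      rw [sf_prod, map_prod]
    rw [h2, ← hmapi, ← map_mul, h1, sf_sum, map_sum]
    refine Finset.sum_congr rfl fun b _ => ?_
    rw [sf_int, map_mul, hmapi, h2]
  have hane : ¬ ((a (s + D) : ℤ) : ℚ⟦X⟧) = 0 := by
    have e : ((a (s + D) : ℤ) : ℚ⟦X⟧) = C ((a (s + D) : ℤ) : ℚ) := (map_intCast (C : ℚ →+* ℚ⟦X⟧) _).symm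
    rw [e]
    intro h
    have h2 := congrArg (coeff 0) h
    rw [coeff_zero_C, map_zero] at h2
    exact ha (s + D) (by exact_mod_cast h2)
  have hLIv := vvN_li (R := K⟦X⟧) (B := B s) (B' := B D) (B'' := B (s + D)) (C : K →+* K⟦X⟧) (M (s + D)) (a (s + D))
    (by
      rw [← hmapi]
      rw [Ne, map_eq_zero_iff _ (PowerSeries.map_injective _ (algebraMap ℚ K).injective)]
      exact hane) Γ uK xK hKu (by
      intro h
      apply hΓ0
      refine ps_ext _ (hli s N g hsep) K Γ ?_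
      rw [← h]
      exact Finset.sum_congr rfl fun b _ => by rw [hpr]) (by
      intro γ h
      refine ps_ext _ (hli D N g hsep) K γ ?_
      rw [← h]
      exact Finset.sum_congr rfl fun b _ => by rw [hpr])
  -- the values
  have hcvo : ∀ (l : Fin N) (o : Option (Fin (n * n))), Cvc (1 / (ξ : ℂ)) (sf (g l) (o.elim 1 (hf n Q))) ∧
      evc (1 / (ξ : ℂ)) (sf (g l) (o.elim 1 (hf n Q))) = o.elim 1 (en (Z l)) := by
    rintro l (_ | j)
    · show Cvc _ (sf (g l) 1) ∧ evc _ (sf (g l) 1) = 1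
      rw [sf_one]
      exact ⟨Cvc.one, Pool.Agent.Y916.Al.ev_one⟩
    · refine ⟨Pool.Agent.Y547.AF.cvc_of_cv (cx_sf_cv hC0 (hs' j) (g l) (hg2 l)), ?_⟩
      show evc _ (sf (g l) (hf n Q j)) = _
      rw [Pool.Agent.Y547.AF.evc_sf hC0 (hs' j) (g l) (hg2 l), Pool.Agent.Y119.HA.evc_hf]
      rfl
  have hcvl : ∀ l : Fin N, Cvc (1 / (ξ : ℂ)) (lg (g l)) ∧ evc (1 / (ξ : ℂ)) (lg (g l)) = lgv l := fun l =>
    ⟨Pool.Agent.Y547.AF.cvc_of_cv (lg_cv (hg1 l)), Pool.Agent.Y547.AF.evc_lg (hg1 l)⟩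
  have hval : ∀ (D : ℕ) (b : Fin N → B D × Fin (D + 1)), evc (1 / (ξ : ℂ)) (∏ l, Ys (hf n Q) (B D) (g l) (b l)) =
      ∏ l, (yw (en (Z l)) (b l).1.1 * lgv l ^ ((b l).2 : ℕ)) := by
    intro D b
    have h1 : ∀ l, Cvc (1 / (ξ : ℂ)) (sf (g l) (yw (hf n Q) (b l).1.1)) ∧
        evc (1 / (ξ : ℂ)) (sf (g l) (yw (hf n Q) (b l).1.1)) = yw (en (Z l)) (b l).1.1 := by
      intro l
      unfold yw
      rw [sf_prod]
      refine ⟨Cvc.prod _ _ fun i _ => (hcvo l _).1, ?_⟩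
      rw [Cvc.ev_prod _ _ fun i _ => (hcvo l _).1]
      exact Finset.prod_congr rfl fun i _ => (hcvo l _).2
    show evc (1 / (ξ : ℂ)) (∏ l, (sf (g l) (yw (hf n Q) (b l).1.1) * lg (g l) ^ ((b l).2 : ℕ))) = _
    rw [Cvc.ev_prod _ _ fun l _ => (h1 l).1.mul ((hcvl l).1.pow _)]
    refine Finset.prod_congr rfl fun l _ => ?_
    rw [Cvc.ev_mul (h1 l).1 ((hcvl l).1.pow _), (h1 l).2, (hcvl l).1.ev_pow, (hcvl l).2]
  -- enumeration
  set eqv : Fin (Fintype.card (Fin N → B (s + D) × Fin (s + D + 1))) ≃ (Fin N → B (s + D) × Fin (s + D + 1)) :=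
    (Fintype.equivFin _).symm with heqv
  set eqv' : Fin (Fintype.card (Fin N → B D × Fin (D + 1))) ≃ (Fin N → B D × Fin (D + 1)) :=
    (Fintype.equivFin _).symm with heqv'
  have hX0 : 0 ≤ X := by
    obtain ⟨u, w, -, -, -, -, hσ⟩ := hPt
    exact (norm_nonneg _).trans (hσ K.val.toRingHom).1
  have hPt' := Pool.Agent.Y916.Al.Pt.inv hX0 hξ0 hPt 1 le_rfl
  rw [Nat.cast_one, Nat.cast_one, one_mul, one_mul] at hPt'
  have hxc : ((1 / ξ : K) : ℂ) = 1 / (ξ : ℂ) := by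
    push_cast
    rfl
  have hxn : ‖((1 / ξ : K) : ℂ)‖ = 1 / ‖(ξ : ℂ)‖ := by rw [hxc, norm_div, norm_one]
  have hsysN := hF (s + D) (B (s + D) × Fin (s + D + 1)) (Ys (hf n Q) (B (s + D))) Tg (hsys (s + D)) H g hgH
  refine hE₂ m A _ (((H : ℝ) + 2) ^ EF (s + D)) (∏ l, Tg (g l)) (fun j => ∏ l, Ys (hf n Q) (B (s + D)) (g l) (eqv j l))
    (eqv.symm fun _ => (⟨fun _ => none, h0B _⟩, 0)) K (1 / ξ) X hfd hrk (one_div_ne_zero hξ0) hPt' (hsysN.reindex eqv)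
    ?_ ?_ ?_ ?_ ?_ (Fintype.card (Fin N → B D × Fin (D + 1)))
    (fun r j => vvN (M (s + D)) Γ (eqv' r) (eqv j)) ?_ ?_ ?_
  · show (∏ l, Ys (hf n Q) (B (s + D)) (g l) (eqv (eqv.symm fun _ => (⟨fun _ => none, h0B _⟩, 0)) l)) = 1
    rw [Equiv.apply_symm_apply]
    refine Finset.prod_eq_one fun l _ => ?_
    unfold Ys yw
    simp only [Option.elim_none, Finset.prod_const_one]
    rw [sf_one, Fin.val_zero, pow_zero, mul_one]
  · exact (hli (s + D) N g hsep).comp _ eqv.injective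
  · rw [hxn, one_div, inv_mul_le_iff₀ hξp, mul_one]
    refine (pow_base H _ _).trans (hge _ ?_)
    have h1 : (EF (s + D) + 1) * (E₂ (Fintype.card (Fin N → B (s + D) × Fin (s + D + 1))) * (m + 1)) ≤
        (Fb s + 1) * ((Nb s + 2) ^ C₃ * (s + 1)) := by
      refine Nat.mul_le_mul (by omega) (Nat.mul_le_mul ?_ (by omega))
      exact (hC₃ _).trans (Nat.pow_le_pow_left (by omega) _)
    exact h1.trans (Nat.le_add_left _ _)
  · rw [hxn, one_div, inv_pow, ← div_eq_mul_inv, div_le_one (by positivity)]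
    exact hXA
  · rw [hxc, map_prod]
    exact Finset.prod_ne_zero_iff.2 fun l _ => hc _ _ (hg3 l)
  · have h1 := hLIv.comp _ eqv'.injective
    exact h1.map' (LinearEquiv.funCongrLeft K K eqv).toLinearMap (LinearEquiv.ker _)
  · intro r
    have h1 := vvN_eq (R := ℂ) (algebraMap K ℂ) (M (s + D)) (a (s + D)) Γ (eqv' r)
      (fun l (o : Option (Fin (n * n))) => o.elim 1 (en (Z l))) lgv (fun l w => rel_sp hQ hKI (hrel (s + D)) (hZg l) w)
    have h2 : (∑ b : Fin N → B s × Fin (s + 1), algebraMap K ℂ (Γ b) *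
        pr (fun l (o : Option (Fin (n * n))) => o.elim 1 (en (Z l))) lgv b) = 0 := hΓZ
    rw [h2, mul_zero, zero_mul] at h1
    rw [Equiv.sum_comp eqv (fun b => ((vvN (M (s + D)) Γ (eqv' r) b : K) : ℂ) *
      evc ((1 / ξ : K) : ℂ) (∏ l, Ys (hf n Q) (B (s + D)) (g l) (b l)))]
    rw [← h1]
    refine Finset.sum_congr rfl fun b _ => ?_
    rw [hxc, hval]
    rfl
  · exact le_trans (Nat.mul_le_mul_right _ hA) hgr

end Pool.Agent.R351.GD.H
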