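import Pool.Agent.R351.GD.H.Nrel

/-!
# Hypergeometric functions: the Cayley coordinates of the period matrices satisfy no relations of small degree
-/

set_option autoImplicit false

open PowerSeries Pool.Agent.Y113 Pool.Agent.Y120.GF Pool.Agent.Y120.GH Pool.Agent.Y119.HZ
open Pool.Agent.Y119.HY (QD Jm cm Hf Hc)

namespace Pool.Agent.R351.GD.H

/-! ### clearing denominators -/

section
variable {σ τ F : Type} [Field F]

/-- clearing denominators in a polynomial -/
noncomputable def hmg (δ : ℕ) (P : MvPolynomial σ F) (D : MvPolynomial τ F) (x : σ → MvPolynomial τ F) :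
    MvPolynomial τ F :=
  ∑ m ∈ P.support, MvPolynomial.C (P.coeff m) * (D ^ (δ - m.sum fun _ e => e) * m.prod fun s e => x s ^ e)

theorem hmg_ev {L : Type} [Field L] [Algebra F L] {δ : ℕ} {P : MvPolynomial σ F} (hP : P.totalDegree ≤ δ)
    {D : MvPolynomial τ F} {x : σ → MvPolynomial τ F} (y : τ → L) (v : σ → L)
    (h : ∀ s, MvPolynomial.aeval y (x s) = MvPolynomial.aeval y D * v s) :
    MvPolynomial.aeval y (hmg δ P D x) = MvPolynomial.aeval y D ^ δ * MvPolynomial.aeval v P := by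
  unfold hmg
  rw [map_sum, MvPolynomial.aeval_def v, MvPolynomial.eval₂_eq, Finset.mul_sum]
  refine Finset.sum_congr rfl fun m hm => ?_
  have hd : (m.sum fun _ e => e) ≤ δ := (MvPolynomial.le_totalDegree hm).trans hP
  rw [map_mul, map_mul, MvPolynomial.aeval_C, map_pow, Finsupp.prod, map_prod]
  have h1 : ∏ s ∈ m.support, MvPolynomial.aeval y (x s ^ m s) =
      MvPolynomial.aeval y D ^ (m.sum fun _ e => e) * ∏ s ∈ m.support, v s ^ m s := by
    rw [Finsupp.sum, ← Finset.prod_pow_eq_pow_sum, ← Finset.prod_mul_distrib]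
    refine Finset.prod_congr rfl fun s _ => ?_
    rw [map_pow, h, mul_pow]
  rw [h1]
  have h2 : MvPolynomial.aeval y D ^ δ = MvPolynomial.aeval y D ^ (δ - m.sum fun _ e => e) *
      MvPolynomial.aeval y D ^ (m.sum fun _ e => e) := by
    rw [← pow_add, Nat.sub_add_cancel hd]
  rw [h2]
  ring

theorem hmg_deg {δ c : ℕ} {P : MvPolynomial σ F} (hP : P.totalDegree ≤ δ)
    {D : MvPolynomial τ F} {x : σ → MvPolynomial τ F} (hD : D.totalDegree ≤ c) (hx : ∀ s, (x s).totalDegree ≤ c) :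
    (hmg δ P D x).totalDegree ≤ δ * c := by
  unfold hmg
  refine (MvPolynomial.totalDegree_finsetSum _ _).trans (Finset.sup_le fun m hm => ?_)
  have hd : (m.sum fun _ e => e) ≤ δ := (MvPolynomial.le_totalDegree hm).trans hP
  refine (MvPolynomial.totalDegree_mul _ _).trans ?_
  rw [MvPolynomial.totalDegree_C, zero_add]
  refine (MvPolynomial.totalDegree_mul _ _).trans ?_
  have h1 : (D ^ (δ - m.sum fun _ e => e)).totalDegree ≤ (δ - m.sum fun _ e => e) * c :=
    (MvPolynomial.totalDegree_pow _ _).trans (Nat.mul_le_mul_left _ hD)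
  have h2 : (m.prod fun s e => x s ^ e).totalDegree ≤ (m.sum fun _ e => e) * c := by
    rw [Finsupp.prod, Finsupp.sum, Finset.sum_mul]
    refine (MvPolynomial.totalDegree_finsetProd _ _).trans (Finset.sum_le_sum fun s _ => ?_)
    exact (MvPolynomial.totalDegree_pow _ _).trans (Nat.mul_le_mul_left _ (hx s))
  refine (add_le_add h1 h2).trans (le_of_eq ?_)
  rw [← Nat.add_mul, Nat.sub_add_cancel hd]

end

/-! ### the Cayley coordinates -/

section
open Matrix
variable {n : ℕ} {F : Type} [Field F]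

/-- the Cayley coordinates of a matrix -/
noncomputable def sc (J : Matrix (Fin n) (Fin n) F) (d : ℕ) (Z : Matrix (Fin n) (Fin n) F) (p : Sx n) : F :=
  ((1 / (d : F)) • (J * ((Z - 1) * (Z + 1)⁻¹))) p.1.1 p.1.2

theorem sc_num {J Z : Matrix (Fin n) (Fin n) F} {d : ℕ} (hd : (d : F) ≠ 0) (hZ : (Z + 1).det ≠ 0) (p : Sx n) :
    (J * ((Z - 1) * (Z + 1).adjugate)) p.1.1 p.1.2 = (d * (Z + 1).det) * sc J d Z p := by
  have h1 : (Z + 1)⁻¹ = ((Z + 1).det)⁻¹ • (Z + 1).adjugate := by rw [Matrix.inv_def, Ring.inverse_eq_inv']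
  unfold sc
  rw [h1, mul_smul_comm, mul_smul_comm, smul_smul, Matrix.smul_apply, smul_eq_mul]
  generalize (J * ((Z - 1) * (Z + 1).adjugate)) p.1.1 p.1.2 = u
  field_simp

/-- the point of the chart over the Cayley coordinates -/
theorem sc_at {J K Z : Matrix (Fin n) (Fin n) F} {d : ℕ} (hd : (d : F) ≠ 0) (hJ : Jᵀ = -J)
    (hKJ : K * J = (d : F) • (1 : Matrix _ _ F)) (hZJ : Zᵀ * J * Z = J) (hZ : (Z + 1).det ≠ 0) :
    cN K (sc J d Z) = cD K (sc J d Z) • Z ∧ cD K (sc J d Z) * (Z + 1).det = 2 ^ n :=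
  cay_at (e := 1 / (d : F)) hJ hKJ (by rw [one_div, inv_mul_cancel₀ hd]) hZJ
    (mul_nonsing_inv _ (isUnit_iff_ne_zero.2 hZ)) fun _ => rfl

/-- the Cayley coordinates of a point of the chart -/
theorem sc_cay [CharZero F] {J K : Matrix (Fin n) (Fin n) F} {d : ℕ} (hd : (d : F) ≠ 0)
    (hJK : J * K = (d : F) • (1 : Matrix _ _ F)) {s : Sx n → F} (hD : cD K s ≠ 0) :
    ((cD K s)⁻¹ • cN K s + 1).det ≠ 0 ∧ sc J d ((cD K s)⁻¹ • cN K s) = s := by
  set g := (cD K s)⁻¹ • cN K s with hgd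
  have hg : g = (1 - K * sy s)⁻¹ * (1 + K * sy s) := by
    rw [hgd]
    unfold cN cD
    rw [Matrix.inv_def, Ring.inverse_eq_inv', smul_mul_assoc]
  set A := K * sy s with hA
  have hu : IsUnit (1 - A).det := isUnit_iff_ne_zero.2 hD
  have h1 : (1 - A) * g = 1 + A := by rw [hg, ← mul_assoc, mul_nonsing_inv _ hu, one_mul]
  have h2 : (1 - A) * (g + 1) = (2 : F) • 1 := by
    rw [mul_add, h1, mul_one, two_smul]
    abel
  have h20 : (2 : F) ≠ 0 := two_ne_zero
  have hdet : (g + 1).det ≠ 0 := by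
    intro h0
    have h3 := congrArg Matrix.det h2
    rw [det_mul, h0, mul_zero, det_smul, det_one, mul_one] at h3
    exact pow_ne_zero _ h20 h3.symm
  have hu' : IsUnit (g + 1).det := isUnit_iff_ne_zero.2 hdet
  have hinv : (g + 1)⁻¹ = (2 : F)⁻¹ • (1 - A) := by
    refine inv_eq_left_inv ?_
    rw [smul_mul_assoc, h2, smul_smul, inv_mul_cancel₀ h20, one_smul]
  have h3 : (g + 1) * (1 - A) = (2 : F) • 1 := by
    have h4 := mul_nonsing_inv (g + 1) hu'
    rw [hinv, mul_smul_comm] at h4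
    calc (g + 1) * (1 - A) = (2 : F) • ((2 : F)⁻¹ • ((g + 1) * (1 - A))) := by
          rw [smul_smul, mul_inv_cancel₀ h20, one_smul]
      _ = _ := by rw [h4]
  have h4 : (g - 1) * (g + 1)⁻¹ = A := by
    rw [hinv, mul_smul_comm]
    have h5 : (g - 1) * (1 - A) = (2 : F) • A := by
      have h6 : g * (1 - A) = 1 + A := by
        rw [add_mul, one_mul] at h3
        have : g * (1 - A) = (2 : F) • 1 - (1 - A) := by rw [← h3]; abel
        rw [this, two_smul]
        abel
      rw [sub_mul, h6, one_mul, two_smul]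
      abel
    rw [h5, smul_smul, inv_mul_cancel₀ h20, one_smul]
  refine ⟨hdet, ?_⟩
  funext p
  unfold sc
  rw [h4, hA, ← mul_assoc, hJK, smul_mul_assoc, one_mul, smul_smul, one_div, inv_mul_cancel₀ hd, one_smul]
  unfold sy
  rw [of_apply, dif_pos p.2]

end

variable {n : ℕ} {Q : Polynomial ℚ}

/-- the coordinates at the shift `g` -/
noncomputable def vS (n : ℕ) (Q : Polynomial ℚ) (d G : ℕ) (t g : ℕ) (o : Option (Sx n)) : ℂ :=
  o.elim ((Real.log (1 - (G * g : ℕ) / t) : ℝ) : ℂ) (sc (cm (Jm n Q)) d (zm1 n Q t (G * g)))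

/-- separated shifts -/
theorem sepR_mul {R G : ℕ} (hG : R ≤ G) {N : ℕ} {g : Fin N → ℕ} (hg : Function.Injective g) (hg1 : ∀ l, 1 ≤ g l) :
    SepR R fun l => G * g l := by
  refine ⟨fun l => hG.trans (Nat.le_mul_of_pos_right _ (hg1 l)), fun l l' hll => ?_⟩
  have h1 : g l ≠ g l' := fun h => hll (hg h)
  rcases Nat.lt_or_gt_of_ne h1 with h2 | h2
  · left
    have : G * (g l + 1) ≤ G * g l' := Nat.mul_le_mul_left _ h2
    rw [mul_add, mul_one] at this
    show G * g l + R ≤ G * g l'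
    omega
  · right
    have : G * (g l' + 1) ≤ G * g l := Nat.mul_le_mul_left _ h2
    rw [mul_add, mul_one] at this
    show G * g l' + R ≤ G * g l
    omega

/-- the generic matrices -/
noncomputable def ZX {N : ℕ} (n : ℕ) (l : Fin N) :
    Matrix (Fin n) (Fin n) (MvPolynomial (Fin N × Option (Fin (n * n))) ℚ) :=
  Matrix.of fun i j => MvPolynomial.X (l, some ((Pool.Agent.Y119.HZ.ix n).symm (i, j)))

theorem ZX_ev {N : ℕ} (x : Fin N → ℂ) (X : Fin N → Matrix (Fin n) (Fin n) ℂ) (l : Fin N) :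
    (MvPolynomial.aeval (px x fun l => en (X l)) :
      MvPolynomial (Fin N × Option (Fin (n * n))) ℚ →ₐ[ℚ] ℂ).toRingHom.mapMatrix (ZX n l) = X l := by
  ext i j
  rw [RingHom.mapMatrix_apply, Matrix.map_apply]
  unfold ZX
  rw [Matrix.of_apply]
  show MvPolynomial.aeval (px x fun l => en (X l)) (MvPolynomial.X (l, some ((Pool.Agent.Y119.HZ.ix n).symm (i, j)))) = _
  rw [MvPolynomial.aeval_X]
  unfold px en
  simp

/-- **no relations between the Cayley coordinates** -/
theorem hvalS (hQ : QD n Q) (hH : ∀ i j, SDc (Hp n Q i j)) {d : ℕ} {K : Matrix (Fin n) (Fin n) ℤ} (hK : IK n Q d K) :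
    ∃ R : ℕ, ∀ G : ℕ, R ≤ G → ∀ N : ℕ, ∃ E : ℕ → ℕ, PB E ∧
      ∀ (Δ H t : ℕ), (H + 2) ^ E Δ ≤ t → ∀ g : Fin N → ℕ, Function.Injective g → (∀ i, 1 ≤ g i ∧ g i ≤ H) →
      (∀ l, (zm1 n Q t (G * g l) + 1).det ≠ 0) ∧
      ∀ P : MvPolynomial (Fin N × Option (Sx n)) ℚ, P.totalDegree ≤ Δ →
      MvPolynomial.aeval (fun p : Fin N × Option (Sx n) => vS n Q d G t (g p.1) p.2) P = 0 → P = 0 := by
  classical
  obtain ⟨R, hR⟩ := nrel hQ hH
  refine ⟨R, fun G hG N => ?_⟩
  obtain ⟨En, hEn, hn⟩ := hR N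
  obtain ⟨hJKc, hKJc, hJc⟩ := hK.jk hQ (algebraMap ℚ ℂ)
  have hcm : (algebraMap ℚ ℂ).mapMatrix (Jm n Q) = cm (Jm n Q) := rfl
  rw [hcm] at hJKc hKJc hJc
  have hdc : ((d : ℕ) : ℂ) ≠ 0 := by exact_mod_cast hK.ne
  -- the polynomials
  set T := Fin N × Option (Fin (n * n)) with hT
  set JX : Matrix (Fin n) (Fin n) (MvPolynomial T ℚ) := (MvPolynomial.C (σ := T) (R := ℚ)).mapMatrix (Jm n Q) with hJX
  set dz : Fin N → MvPolynomial T ℚ := fun l => MvPolynomial.C (d : ℚ) * (ZX n l + 1).det with hdz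
  set D : MvPolynomial T ℚ := ∏ l, dz l with hD
  set x : Fin N × Option (Sx n) → MvPolynomial T ℚ := fun s => s.2.elim (D * MvPolynomial.X (s.1, none)) fun p =>
    (∏ l ∈ Finset.univ.erase s.1, dz l) * (JX * ((ZX n s.1 - 1) * (ZX n s.1 + 1).adjugate)) p.1.1 p.1.2 with hx
  set c : ℕ := D.totalDegree + ∑ s, (x s).totalDegree + ∑ l, (dz l).totalDegree with hc
  have hDc : D.totalDegree ≤ c := by rw [hc]; omega
  have hxc : ∀ s, (x s).totalDegree ≤ c := by
    intro s
    have h1 := Finset.single_le_sum (f := fun s => (x s).totalDegree) (fun _ _ => Nat.zero_le _) (Finset.mem_univ s)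
    rw [hc]
    omega
  have hdzc : ∀ l, (dz l).totalDegree ≤ c := by
    intro l
    have h1 := Finset.single_le_sum (f := fun l => (dz l).totalDegree) (fun _ _ => Nat.zero_le _) (Finset.mem_univ l)
    rw [hc]
    omega
  -- the values
  have hJe : ∀ (y : T → ℂ), (MvPolynomial.aeval y : MvPolynomial T ℚ →ₐ[ℚ] ℂ).toRingHom.mapMatrix JX = cm (Jm n Q) := by
    intro y
    ext i j
    rw [RingHom.mapMatrix_apply, Matrix.map_apply, hJX, RingHom.mapMatrix_apply, Matrix.map_apply]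
    show MvPolynomial.aeval y (MvPolynomial.C _) = _
    rw [MvPolynomial.aeval_C]
    rfl
  have hdze : ∀ (x' : Fin N → ℂ) (X : Fin N → Matrix (Fin n) (Fin n) ℂ) (l : Fin N),
      MvPolynomial.aeval (px x' fun l => en (X l)) (dz l) = (d : ℂ) * (X l + 1).det := by
    intro x' X l
    show MvPolynomial.aeval (px x' fun l => en (X l)) (MvPolynomial.C (d : ℚ) * (ZX n l + 1).det) = _
    have hd2 : (algebraMap ℚ ℂ) (d : ℚ) = (d : ℂ) := by rw [eq_ratCast, Rat.cast_natCast]
    rw [map_mul, MvPolynomial.aeval_C, hd2]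
    congr 1
    have h1 := RingHom.map_det (MvPolynomial.aeval (px x' fun l => en (X l)) : MvPolynomial T ℚ →ₐ[ℚ] ℂ).toRingHom (ZX n l + 1)
    rw [map_add, map_one, ZX_ev] at h1
    exact h1
  have hxe : ∀ (x' : Fin N → ℂ) (X : Fin N → Matrix (Fin n) (Fin n) ℂ), (∀ l, (X l + 1).det ≠ 0) → ∀ s,
      MvPolynomial.aeval (px x' fun l => en (X l)) (x s) = MvPolynomial.aeval (px x' fun l => en (X l)) D *
        (px x' (fun l => sc (cm (Jm n Q)) d (X l)) s) := by
    intro x' X hX s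
    obtain ⟨l, _ | p⟩ := s
    · show MvPolynomial.aeval _ (D * MvPolynomial.X (l, none)) = _
      rw [map_mul, MvPolynomial.aeval_X]
      rfl
    · show MvPolynomial.aeval _ ((∏ l ∈ Finset.univ.erase l, dz l) *
        (JX * ((ZX n l - 1) * (ZX n l + 1).adjugate)) p.1.1 p.1.2) = _ * sc (cm (Jm n Q)) d (X l) p
      rw [map_mul]
      have h1 : MvPolynomial.aeval (px x' fun l => en (X l)) ((JX * ((ZX n l - 1) * (ZX n l + 1).adjugate)) p.1.1 p.1.2) =
          (cm (Jm n Q) * ((X l - 1) * (X l + 1).adjugate)) p.1.1 p.1.2 := by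
        have h2 : (MvPolynomial.aeval (px x' fun l => en (X l)) : MvPolynomial T ℚ →ₐ[ℚ] ℂ).toRingHom.mapMatrix
            (JX * ((ZX n l - 1) * (ZX n l + 1).adjugate)) = cm (Jm n Q) * ((X l - 1) * (X l + 1).adjugate) := by
          rw [map_mul, map_mul, RingHom.map_adjugate, map_sub, map_add, map_one, ZX_ev, hJe]
        exact congrFun (congrFun h2 p.1.1) p.1.2
      have h3 : MvPolynomial.aeval (px x' fun l => en (X l)) D =
          MvPolynomial.aeval (px x' fun l => en (X l)) (∏ l ∈ Finset.univ.erase l, dz l) * ((d : ℂ) * (X l + 1).det) := by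
        rw [hD, ← Finset.prod_erase_mul _ _ (Finset.mem_univ l), map_mul, hdze]
      rw [h1, h3, sc_num hdc (hX l)]
      generalize MvPolynomial.aeval (px x' fun l => en (X l)) (∏ l ∈ Finset.univ.erase l, dz l) = v1
      ring
  refine ⟨fun Δ => (G + 1) * (En (Δ * c) + En c + 1), (PB.const (G + 1)).mul
    (((hEn.comp (PB.id.mul (PB.const c))).add (PB.const (En c))).add (PB.const 1)), fun Δ H t ht g hginj hgH => ?_⟩
  have hH2 : 1 ≤ H + 2 := by omega
  have hGH : G * H + 2 ≤ (H + 2) ^ (G + 1) := by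
    have h2 : G + 1 ≤ 2 ^ G := Nat.lt_two_pow_self
    have h3 : 2 ^ G ≤ (H + 2) ^ G := Nat.pow_le_pow_left (by omega) _
    rw [pow_succ]
    nlinarith
  have hge : ∀ e ≤ En (Δ * c) + En c + 1, (G * H + 2) ^ e ≤ t := by
    intro e he
    refine le_trans (Nat.pow_le_pow_left hGH e) ?_
    rw [← pow_mul]
    exact (Nat.pow_le_pow_right (by omega) (Nat.mul_le_mul_left _ he)).trans ht
  have hsep := sepR_mul hG hginj fun l => (hgH l).1
  have hgH' : ∀ l, G * g l ≤ G * H := fun l => Nat.mul_le_mul_left _ (hgH l).2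
  set x₀ : Fin N → ℂ := fun l => ((Real.log (1 - (G * g l : ℕ) / t) : ℝ) : ℂ) with hx₀
  have hdet : ∀ l, (zm1 n Q t (G * g l) + 1).det ≠ 0 := by
    intro l h0
    have h1 := hn c (G * H) t (hge _ (by omega)) (fun l => G * g l) hsep hgH' (dz l) (hdzc l) (by
      rw [hdze, h0, mul_zero]) (fun _ => 0) (fun _ => 1) (fun _ => by rw [Matrix.transpose_one, one_mul, mul_one])
    rw [hdze] at h1
    have h2 : ((1 : Matrix (Fin n) (Fin n) ℂ) + 1).det ≠ 0 := by
      have h3 : (1 : Matrix (Fin n) (Fin n) ℂ) + 1 = (2 : ℂ) • 1 := (two_smul ℂ _).symm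
      rw [h3, Matrix.det_smul, Matrix.det_one, mul_one]
      exact pow_ne_zero _ two_ne_zero
    exact (mul_ne_zero hdc h2) h1
  refine ⟨hdet, fun P hP hP0 => ?_⟩
  have h1 := hn (Δ * c) (G * H) t (hge _ (by omega)) (fun l => G * g l) hsep hgH' (hmg Δ P D x) (hmg_deg hP hDc hxc) (by
    rw [hmg_ev hP _ _ (hxe x₀ (fun l => zm1 n Q t (G * g l)) hdet)]
    have h2 : (px x₀ fun l => sc (cm (Jm n Q)) d (zm1 n Q t (G * g l))) =
        fun p : Fin N × Option (Sx n) => vS n Q d G t (g p.1) p.2 := by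
      funext p
      obtain ⟨l, _ | p⟩ := p <;> rfl
    rw [h2, hP0, mul_zero])
  -- the generic points
  set Dp : MvPolynomial (Fin N × Option (Sx n)) ℚ := ∏ l, cD (zm K) (fun p => MvPolynomial.X (l, some p)) with hDp
  have hDpe : ∀ y : Fin N × Option (Sx n) → ℚ, MvPolynomial.eval y Dp = ∏ l, cD (zm K) (fun p => y (l, some p)) := by
    intro y
    rw [hDp, map_prod]
    refine Finset.prod_congr rfl fun l _ => ?_
    rw [← cD_map, zm_map]
    simp only [MvPolynomial.eval_X]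
  have hprod : P * Dp = 0 := by
    refine MvPolynomial.funext fun y => ?_
    rw [map_mul, map_zero, hDpe]
    by_cases h0 : ∏ l, cD (zm K) (fun p => y (l, some p)) = 0
    · rw [h0, mul_zero]
    · have h0' : ∀ l, cD (zm K : Matrix (Fin n) (Fin n) ℂ) (fun p => ((y (l, some p) : ℚ) : ℂ)) ≠ 0 := by
        intro l h2
        have h3 := cD_map (algebraMap ℚ ℂ) (zm K) (fun p => y (l, some p))
        rw [zm_map] at h3
        have h4 : (fun p : Sx n => (algebraMap ℚ ℂ) (y (l, some p))) = fun p => ((y (l, some p) : ℚ) : ℂ) := rfl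
        rw [h4, h2] at h3
        have h5 : cD (zm K) (fun p => y (l, some p)) = 0 := by
          have h6 := h3.symm
          rw [_root_.map_eq_zero] at h6
          exact h6
        exact h0 (Finset.prod_eq_zero (Finset.mem_univ l) h5)
      set X : Fin N → Matrix (Fin n) (Fin n) ℂ := fun l =>
        (cD (zm K) (fun p => ((y (l, some p) : ℚ) : ℂ)))⁻¹ • cN (zm K) (fun p => ((y (l, some p) : ℚ) : ℂ)) with hX
      have hXm : ∀ l, (X l).transpose * cm (Jm n Q) * X l = cm (Jm n Q) := fun l => cay_mem hJc hJKc (h0' l)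
      have hXs := fun l => sc_cay hdc hJKc (h0' l)
      have h2 := h1 (fun l => ((y (l, none) : ℚ) : ℂ)) X hXm
      rw [hmg_ev hP _ _ (hxe _ X fun l => (hXs l).1)] at h2
      have h3 : (px (fun l => ((y (l, none) : ℚ) : ℂ)) fun l => sc (cm (Jm n Q)) d (X l)) =
          fun p => ((y p : ℚ) : ℂ) := by
        funext p
        obtain ⟨l, _ | p⟩ := p
        · rfl
        · show sc (cm (Jm n Q)) d (X l) p = _
          rw [(hXs l).2]
      rw [h3] at h2
      have h4 : MvPolynomial.aeval (px (fun l => ((y (l, none) : ℚ) : ℂ)) fun l => en (X l)) D ≠ 0 := by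
        rw [hD, map_prod]
        refine Finset.prod_ne_zero_iff.2 fun l _ => ?_
        rw [hdze]
        exact mul_ne_zero hdc (hXs l).1
      have h5 := (mul_eq_zero.1 h2).resolve_left (pow_ne_zero _ h4)
      have h6 : MvPolynomial.aeval (fun p => ((y p : ℚ) : ℂ)) P = ((MvPolynomial.eval y P : ℚ) : ℂ) :=
        MvPolynomial.aeval_algebraMap_apply (A := ℚ) ℂ y P
      rw [h6] at h5
      have h7 : MvPolynomial.eval y P = 0 := by exact_mod_cast h5
      rw [h7, zero_mul]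
  refine (mul_eq_zero.1 hprod).resolve_right fun h0 => ?_
  have h2 := hDpe (fun _ => 0)
  rw [h0, map_zero] at h2
  refine (Finset.prod_ne_zero_iff.2 fun l _ => ?_) h2.symm
  have h4 : (sy fun _ : Sx n => (0 : ℚ)) = 0 := by
    ext i j
    unfold sy
    rw [Matrix.of_apply]
    split_ifs <;> rfl
  unfold cD
  rw [h4, mul_zero, sub_zero, Matrix.det_one]
  exact one_ne_zero

end Pool.Agent.R351.GD.H
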