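import Pool.Agent.R351.GD.H.Alx3
import Pool.Agent.Y916.Al.WinH

/-!
# All relations of growing degree over number fields of growing degree at algebraic points near the origin
-/

set_option autoImplicit false

open Matrix PowerSeries Pool.Agent.Y113 Pool.Agent.Y120.GF Pool.Agent.Y120.GH Pool.Agent.Y119.HZ
open Pool.Agent.Y119.HY (QD Jm cm Hf Hc)
open Pool.Agent.Y916.Al (Pt Ht)

namespace Pool.Agent.R351.GD.H

/-- quotients of integers in a larger field -/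
theorem pt_mono {K L : IntermediateField ℚ ℂ} (h : K ≤ L) {ξ : K} {X : ℝ} (hp : Pt K ξ X) :
    Pt L (IntermediateField.inclusion h ξ) X := by
  obtain ⟨u, w, hu, hw, hw0, hx, hσ⟩ := hp
  refine ⟨IntermediateField.inclusion h u, IntermediateField.inclusion h w, ?_, ?_, ?_, ?_, fun σ => ?_⟩
  · exact hu.map ((IntermediateField.inclusion h).toRingHom.toIntAlgHom)
  · exact hw.map ((IntermediateField.inclusion h).toRingHom.toIntAlgHom)
  · rwa [map_ne_zero]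
  · rw [hx, map_div₀]
  · exact hσ (σ.comp (IntermediateField.inclusion h).toRingHom)

variable {n : ℕ} {Q : Polynomial ℚ}

/-- heights are monotone -/
theorem ht_mono {m A m' A' : ℕ} {ξ : ℂ} (hm : m ≤ m') (hA : A ≤ A') (hξ : 1 ≤ ‖ξ‖) (h : Ht m A ξ) : Ht m' A' ξ := by
  obtain ⟨p, hp0, hpd, hpc, hp⟩ := h
  exact ⟨p, hp0, hpd.trans hm, fun j => (hpc j).trans (pow_le_pow_right₀ hξ hA), hp⟩

/-- **All relations of degree at most `D` over number fields of degree at most `D` between the entries of the holomorphic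
part at `1 / ξ`, `ξ` algebraic of degree at most `D`, of height at most `|ξ|^D`, `|ξ| ≥ 2^((D+2)^C)`, hold on the
symplectic group.** -/
theorem one_fibre_exp (hQ : QD n Q) (hH : ∀ i j, SDc (Hp n Q i j)) :
    ∃ C : ℕ, ∀ (D : ℕ) (ξ : ℂ), (2 : ℝ) ^ ((D + 2) ^ C) ≤ ‖ξ‖ → Ht D D ξ →
    ∀ K : IntermediateField ℚ ℂ, FiniteDimensional ℚ K → Module.finrank ℚ K ≤ D →
    ∀ P : MvPolynomial (Fin n × Fin n) K, P.totalDegree ≤ D →
    MvPolynomial.aeval (fun x => Hf (Hc n Q) (1 / ξ) x.1 x.2) P = 0 →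
    ∀ g : Matrix (Fin n) (Fin n) ℂ, g.transpose * cm (Jm n Q) * g = cm (Jm n Q) →
    MvPolynomial.aeval (fun x => g x.1 x.2) P = 0 := by
  classical
  obtain ⟨E, hE, hmain⟩ := nrelF hQ hH
  obtain ⟨C, hC⟩ := hE.comp (((((PB.const 2).mul (((PB.const 2).mul PB.id).add (PB.const 2))).add (PB.const 1)).mul
    (PB.id.mul PB.id)).add PB.id)
  refine ⟨C, fun D ξ hξ hHt K hK hKD P hPd hP0 g hg => ?_⟩
  set A' : ℕ := 2 * D + 2 with hA'
  have hC' : E ((2 * A' + 1) * (D * D) + D) ≤ (D + 2) ^ C := hC D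
  set s : ℕ := (2 * A' + 1) * (D * D) + D with hs
  have hpos : 1 ≤ (D + 2) ^ C := Nat.one_le_pow _ _ (by omega)
  have hξ2 : (2 : ℝ) ≤ ‖ξ‖ := by
    refine le_trans ?_ hξ
    calc (2 : ℝ) = 2 ^ 1 := (pow_one _).symm
      _ ≤ _ := pow_le_pow_right₀ (by norm_num) hpos
  have hξ0 : (0 : ℝ) < ‖ξ‖ := by linarith
  obtain ⟨p, hp0, hpd, hpc, hp⟩ := hHt
  obtain ⟨K₁, ξ₁, hfd₁, hK₁d, hξ₁, hPt₁⟩ := Pool.Agent.Y916.Al.pt_root hp0 hpd hpc hp
  set L : IntermediateField ℚ ℂ := K ⊔ K₁ with hL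
  have hKL : K ≤ L := le_sup_left
  have hK₁L : K₁ ≤ L := le_sup_right
  have hfdL : FiniteDimensional ℚ L := IntermediateField.finiteDimensional_sup K K₁
  have hLd : Module.finrank ℚ L ≤ D * D := (IntermediateField.finrank_sup_le K K₁).trans (Nat.mul_le_mul hKD hK₁d)
  set ξL : L := IntermediateField.inclusion hK₁L ξ₁ with hξL
  have hξLc : (ξL : ℂ) = ξ := hξ₁
  have hξL0 : ξL ≠ 0 := by
    intro h
    have h1 : (ξL : ℂ) = 0 := by rw [h]; rfl
    rw [hξLc] at h1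
    rw [h1, norm_zero] at hξ0
    exact lt_irrefl _ hξ0
  have hY0 : (0 : ℝ) ≤ ‖ξ‖ ^ D * (‖ξ‖ ^ D + 2) := by positivity
  have hPtL := Pool.Agent.Y916.Al.Pt.inv hY0 hξL0 (pt_mono hK₁L hPt₁) 1 le_rfl
  rw [Nat.cast_one, Nat.cast_one, one_mul, one_mul] at hPtL
  have hxc : ((1 / ξL : L) : ℂ) = 1 / ξ := by
    rw [← hξLc]
    push_cast
    rfl
  have hxn : ‖((1 / ξL : L) : ℂ)‖ = 1 / ‖ξ‖ := by rw [hxc, norm_div, norm_one]
  have hx0 : (1 / ξL : L) ≠ 0 := one_div_ne_zero hξL0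
  -- the two bounds
  have hb1 : ‖((1 / ξL : L) : ℂ)‖ * 2 ^ E s ≤ 1 := by
    rw [hxn, one_div, inv_mul_le_iff₀ hξ0, mul_one]
    exact (pow_le_pow_right₀ (by norm_num) hC').trans hξ
  have hb2 : ‖ξ‖ ^ D * (‖ξ‖ ^ D + 2) * ‖((1 / ξL : L) : ℂ)‖ ^ A' ≤ 1 := by
    rw [hxn, one_div, inv_pow, ← div_eq_mul_inv, div_le_one (by positivity), hA']
    have h1 : (1 : ℝ) ≤ ‖ξ‖ ^ D := one_le_pow₀ (by linarith)
    have h2 : (4 : ℝ) ≤ ‖ξ‖ ^ 2 := by nlinarith
    calc ‖ξ‖ ^ D * (‖ξ‖ ^ D + 2) ≤ ‖ξ‖ ^ D * (‖ξ‖ ^ D * ‖ξ‖ ^ 2) := by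
          refine mul_le_mul_of_nonneg_left ?_ (by positivity)
          nlinarith
      _ = ‖ξ‖ ^ (2 * D + 2) := by ring
  -- the polynomial over the larger field
  set P' : MvPolynomial (Fin n × Fin n) L := MvPolynomial.map (IntermediateField.inclusion hKL).toRingHom P with hP'
  have hev : ∀ z : Fin n × Fin n → ℂ, MvPolynomial.aeval z P' = MvPolynomial.aeval z P := by
    intro z
    rw [hP', MvPolynomial.aeval_def, MvPolynomial.eval₂_map, MvPolynomial.aeval_def]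
    rfl
  have hs1 : D * D ≤ s := by
    have : 1 * (D * D) ≤ (2 * A' + 1) * (D * D) := Nat.mul_le_mul_right _ (by omega)
    omega
  have hs2 : 2 * A' * (D * D) ≤ s := by
    have : 2 * A' * (D * D) ≤ (2 * A' + 1) * (D * D) := Nat.mul_le_mul_right _ (by omega)
    omega
  have hfin := hmain s (D * D) A' hs1 hs2 L (1 / ξL) (‖ξ‖ ^ D * (‖ξ‖ ^ D + 2)) hfdL hLd hx0 hPtL hb1 hb2 P'
    (le_trans (Finset.sup_mono (MvPolynomial.support_map_subset _ _)) (hPd.trans (by omega))) (by rw [hev, hxc]; exact hP0) g hg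
  rwa [hev] at hfin

end Pool.Agent.R351.GD.H
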