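import Pool.Agent.R351.GD.H.AlN2
import Pool.Agent.R351.GD.H.OneF
import Pool.Agent.R351.GD.H.Coo

/-!
# Hypergeometric functions at several algebraic points: no relations between the Cayley coordinates
-/

set_option autoImplicit false

open PowerSeries Pool.Agent.Y113 Pool.Agent.Y120.GF Pool.Agent.Y120.GH Pool.Agent.Y119.HZ
open Pool.Agent.Y119.HY (QD Jm cm Hf Hc)
open Pool.Agent.Y916.Al (Pt Ht)

namespace Pool.Agent.R351.GD.H

variable {n : ℕ} {Q : Polynomial ℚ}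

/-- the holomorphic part at `1 / (ξ - g)` -/
noncomputable def zc (n : ℕ) (Q : Polynomial ℚ) (ξ : ℂ) (g : ℕ) : Matrix (Fin n) (Fin n) ℂ :=
  Hf (Hc n Q) (1 / (ξ - (g : ℂ)))

/-- the logarithm and the Cayley coordinates at `1 / (ξ - G g)` -/
noncomputable def vA (n : ℕ) (Q : Polynomial ℚ) (d G : ℕ) (ξ : ℂ) (g : ℕ) (o : Option (Sx n)) : ℂ :=
  o.elim (Complex.log (1 - ((G * g : ℕ) : ℂ) / ξ)) (sc (cm (Jm n Q)) d (zc n Q ξ (G * g)))

/-- **the rational relations between the values at algebraic points hold on the product of the groups** -/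
theorem nrelQ (hQ : QD n Q) (hH : ∀ i j, SDc (Hp n Q i j)) : ∃ R : ℕ, ∀ N : ℕ, ∃ E : ℕ → ℕ, PB E ∧
    ∀ (Δ H : ℕ) (ξ : ℂ), Ht Δ Δ ξ → ((H : ℝ) + 2) ^ E Δ ≤ ‖ξ‖ → ∀ g : Fin N → ℕ, SepR R g → (∀ l, g l ≤ H) →
    ∀ P : MvPolynomial (Fin N × Option (Fin (n * n))) ℚ, P.totalDegree ≤ Δ →
    MvPolynomial.aeval (px (fun l => Complex.log (1 - (g l : ℂ) / ξ)) fun l => en (zc n Q ξ (g l))) P = 0 →
    ∀ (x : Fin N → ℂ) (Y : Fin N → Matrix (Fin n) (Fin n) ℂ),
      (∀ l, (Y l).transpose * cm (Jm n Q) * Y l = cm (Jm n Q)) →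
      MvPolynomial.aeval (px x fun l => en (Y l)) P = 0 := by
  classical
  obtain ⟨R, hR⟩ := nrelA hQ hH
  refine ⟨R, fun N => ?_⟩
  obtain ⟨E, hEp, hE⟩ := hR N
  have h2 : PB fun Δ : ℕ => 2 * (2 * Δ + 2) * Δ + Δ :=
    (((PB.const 2).mul (((PB.const 2).mul PB.id).add (PB.const 2))).mul PB.id).add PB.id
  refine ⟨fun Δ => E (2 * (2 * Δ + 2) * Δ + Δ) + 1, (hEp.comp h2).add (PB.const 1), ?_⟩
  intro Δ H ξ hht hξ g hsep hgH P hP hP0 x Y hY
  have hH2 : (1 : ℝ) ≤ (H : ℝ) + 2 := one_le_base H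
  have hge : ∀ e ≤ E (2 * (2 * Δ + 2) * Δ + Δ) + 1, ((H : ℝ) + 2) ^ e ≤ ‖ξ‖ := fun e he => (base_mono hH2 he).trans hξ
  have hξ2 : (2 : ℝ) ≤ ‖ξ‖ := by
    have h1 := hge 1 (by omega)
    rw [pow_one] at h1
    have h3 : (0 : ℝ) ≤ H := Nat.cast_nonneg H
    linarith
  obtain ⟨p, hp0, hpd, hpc, hp⟩ := hht
  obtain ⟨K, ξ₁, hfd, hKd, hξ₁, hPt⟩ := Pool.Agent.Y916.Al.pt_root hp0 hpd hpc hp
  set P' : MvPolynomial (Fin N × Option (Fin (n * n))) K := MvPolynomial.map (algebraMap ℚ K) P with hP'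
  have hev : ∀ z : Fin N × Option (Fin (n * n)) → ℂ, MvPolynomial.aeval z P' = MvPolynomial.aeval z P := by
    intro z
    rw [hP', MvPolynomial.aeval_map_algebraMap]
  have h3 := hE (2 * (2 * Δ + 2) * Δ + Δ) Δ (2 * Δ + 2) H (Nat.le_add_left _ _) (Nat.le_add_right _ _) K ξ₁ _ hfd hKd hPt
    (by rw [hξ₁]; exact hge _ (Nat.le_succ _)) (by
      rw [hξ₁]
      have h1 : (1 : ℝ) ≤ ‖ξ‖ ^ Δ := one_le_pow₀ (by linarith)
      have h2 : (4 : ℝ) ≤ ‖ξ‖ ^ 2 := by nlinarith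
      calc ‖ξ‖ ^ Δ * (‖ξ‖ ^ Δ + 2) ≤ ‖ξ‖ ^ Δ * (‖ξ‖ ^ Δ * ‖ξ‖ ^ 2) := by
            refine mul_le_mul_of_nonneg_left ?_ (by positivity)
            nlinarith
        _ = ‖ξ‖ ^ (2 * Δ + 2) := by ring) g hsep hgH P'
    ((Finset.sup_mono (MvPolynomial.support_map_subset _ _)).trans (hP.trans (Nat.le_add_left _ _))) (by
      rw [hev, hξ₁]
      exact hP0) x Y hY
  rwa [hev] at h3

/-- **no relations between the Cayley coordinates** -/
theorem hvalA (hQ : QD n Q) (hH : ∀ i j, SDc (Hp n Q i j)) {d : ℕ} {K : Matrix (Fin n) (Fin n) ℤ} (hK : IK n Q d K) :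
    ∃ R : ℕ, ∀ G : ℕ, R ≤ G → ∀ N : ℕ, ∃ E : ℕ → ℕ, PB E ∧
      ∀ (Δ H : ℕ) (ξ : ℂ), Ht Δ Δ ξ → ((H : ℝ) + 2) ^ E Δ ≤ ‖ξ‖ → ∀ g : Fin N → ℕ, Function.Injective g →
      (∀ i, 1 ≤ g i ∧ g i ≤ H) → (∀ l, (zc n Q ξ (G * g l) + 1).det ≠ 0) ∧
      ∀ P : MvPolynomial (Fin N × Option (Sx n)) ℚ, P.totalDegree ≤ Δ →
      MvPolynomial.aeval (fun p : Fin N × Option (Sx n) => vA n Q d G ξ (g p.1) p.2) P = 0 → P = 0 := by
  classical
  obtain ⟨R, hR⟩ := nrelQ hQ hH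
  refine ⟨R, fun G hG N => ?_⟩
  obtain ⟨En, hEn, hn⟩ := hR N
  obtain ⟨hJKc, hKJc, hJc⟩ := hK.jk hQ (algebraMap ℚ ℂ)
  have hcm : (algebraMap ℚ ℂ).mapMatrix (Jm n Q) = cm (Jm n Q) := rfl
  rw [hcm] at hJKc hKJc hJc
  have hdc : ((d : ℕ) : ℂ) ≠ 0 := by exact_mod_cast hK.ne
  -- the polynomials
  set T := Fin N × Option (Fin (n * n)) with hT
  set JX : Matrix (Fin n) (Fin n) (MvPolynomial T ℚ) := (MvPolynomial.C (σ := T) (R := ℚ)).mapMatrix (Jm n Q) with hJX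
  set dz : Fin N → MvPolynomial T ℚ := fun l => MvPolynomial.C (d : ℚ) * (ZX n l + 1).det with hdz
  set D : MvPolynomial T ℚ := ∏ l, dz l with hD
  set x : Fin N × Option (Sx n) → MvPolynomial T ℚ := fun s => s.2.elim (D * MvPolynomial.X (s.1, none)) fun p =>
    (∏ l ∈ Finset.univ.erase s.1, dz l) * (JX * ((ZX n s.1 - 1) * (ZX n s.1 + 1).adjugate)) p.1.1 p.1.2 with hx
  set c : ℕ := D.totalDegree + ∑ s, (x s).totalDegree + ∑ l, (dz l).totalDegree with hc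
  have hDc : D.totalDegree ≤ c := by rw [hc]; omega
  have hxc : ∀ s, (x s).totalDegree ≤ c := by
    intro s
    have h1 := Finset.single_le_sum (f := fun s => (x s).totalDegree) (fun _ _ => Nat.zero_le _) (Finset.mem_univ s)
    rw [hc]
    omega
  have hdzc : ∀ l, (dz l).totalDegree ≤ c := by
    intro l
    have h1 := Finset.single_le_sum (f := fun l => (dz l).totalDegree) (fun _ _ => Nat.zero_le _) (Finset.mem_univ l)
    rw [hc]
    omega
  -- the values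
  have hJe : ∀ (y : T → ℂ), (MvPolynomial.aeval y : MvPolynomial T ℚ →ₐ[ℚ] ℂ).toRingHom.mapMatrix JX = cm (Jm n Q) := by
    intro y
    ext i j
    rw [RingHom.mapMatrix_apply, Matrix.map_apply, hJX, RingHom.mapMatrix_apply, Matrix.map_apply]
    show MvPolynomial.aeval y (MvPolynomial.C _) = _
    rw [MvPolynomial.aeval_C]
    rfl
  have hdze : ∀ (x' : Fin N → ℂ) (X : Fin N → Matrix (Fin n) (Fin n) ℂ) (l : Fin N),
      MvPolynomial.aeval (px x' fun l => en (X l)) (dz l) = (d : ℂ) * (X l + 1).det := by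
    intro x' X l
    show MvPolynomial.aeval (px x' fun l => en (X l)) (MvPolynomial.C (d : ℚ) * (ZX n l + 1).det) = _
    have hd2 : (algebraMap ℚ ℂ) (d : ℚ) = (d : ℂ) := by rw [eq_ratCast, Rat.cast_natCast]
    rw [map_mul, MvPolynomial.aeval_C, hd2]
    congr 1
    have h1 := RingHom.map_det (MvPolynomial.aeval (px x' fun l => en (X l)) : MvPolynomial T ℚ →ₐ[ℚ] ℂ).toRingHom (ZX n l + 1)
    rw [map_add, map_one, ZX_ev] at h1
    exact h1
  have hxe : ∀ (x' : Fin N → ℂ) (X : Fin N → Matrix (Fin n) (Fin n) ℂ), (∀ l, (X l + 1).det ≠ 0) → ∀ s,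
      MvPolynomial.aeval (px x' fun l => en (X l)) (x s) = MvPolynomial.aeval (px x' fun l => en (X l)) D *
        (px x' (fun l => sc (cm (Jm n Q)) d (X l)) s) := by
    intro x' X hX s
    obtain ⟨l, _ | p⟩ := s
    · show MvPolynomial.aeval _ (D * MvPolynomial.X (l, none)) = _
      rw [map_mul, MvPolynomial.aeval_X]
      rfl
    · show MvPolynomial.aeval _ ((∏ l ∈ Finset.univ.erase l, dz l) *
        (JX * ((ZX n l - 1) * (ZX n l + 1).adjugate)) p.1.1 p.1.2) = _ * sc (cm (Jm n Q)) d (X l) p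
      rw [map_mul]
      have h1 : MvPolynomial.aeval (px x' fun l => en (X l)) ((JX * ((ZX n l - 1) * (ZX n l + 1).adjugate)) p.1.1 p.1.2) =
          (cm (Jm n Q) * ((X l - 1) * (X l + 1).adjugate)) p.1.1 p.1.2 := by
        have h2 : (MvPolynomial.aeval (px x' fun l => en (X l)) : MvPolynomial T ℚ →ₐ[ℚ] ℂ).toRingHom.mapMatrix
            (JX * ((ZX n l - 1) * (ZX n l + 1).adjugate)) = cm (Jm n Q) * ((X l - 1) * (X l + 1).adjugate) := by
          rw [map_mul, map_mul, RingHom.map_adjugate, map_sub, map_add, map_one, ZX_ev, hJe]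
        exact congrFun (congrFun h2 p.1.1) p.1.2
      have h3 : MvPolynomial.aeval (px x' fun l => en (X l)) D =
          MvPolynomial.aeval (px x' fun l => en (X l)) (∏ l ∈ Finset.univ.erase l, dz l) * ((d : ℂ) * (X l + 1).det) := by
        rw [hD, ← Finset.prod_erase_mul _ _ (Finset.mem_univ l), map_mul, hdze]
      rw [h1, h3, sc_num hdc (hX l)]
      generalize MvPolynomial.aeval (px x' fun l => en (X l)) (∏ l ∈ Finset.univ.erase l, dz l) = v1
      ring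
  refine ⟨fun Δ => (G + 1) * (En (Δ * c + c + Δ) + 1), (PB.const (G + 1)).mul
    ((hEn.comp (((PB.id.mul (PB.const c)).add (PB.const c)).add PB.id)).add (PB.const 1)),
    fun Δ H ξ hht ht g hginj hgH => ?_⟩
  have hH2 : (1 : ℝ) ≤ (H : ℝ) + 2 := one_le_base H
  have hGH : G * H + 2 ≤ (H + 2) ^ (G + 1) := by
    have h2 : G + 1 ≤ 2 ^ G := Nat.lt_two_pow_self
    have h3 : 2 ^ G ≤ (H + 2) ^ G := Nat.pow_le_pow_left (by omega) _
    rw [pow_succ]
    nlinarith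
  have hGHR : ((G * H : ℕ) : ℝ) + 2 ≤ ((H : ℝ) + 2) ^ (G + 1) := by exact_mod_cast hGH
  have hge : ∀ e ≤ En (Δ * c + c + Δ) + 1, (((G * H : ℕ) : ℝ) + 2) ^ e ≤ ‖ξ‖ := by
    intro e he
    refine le_trans (pow_le_pow_left₀ (by positivity) hGHR e) ?_
    rw [← pow_mul]
    exact (pow_le_pow_right₀ hH2 (Nat.mul_le_mul_left _ he)).trans ht
  have hξ1 : (1 : ℝ) ≤ ‖ξ‖ := by
    have h1 := hge 0 (Nat.zero_le _)
    rwa [pow_zero] at h1
  have hht' : Ht (Δ * c + c + Δ) (Δ * c + c + Δ) ξ := ht_mono (by omega) (by omega) hξ1 hht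
  have hsep := sepR_mul hG hginj fun l => (hgH l).1
  have hgH' : ∀ l, G * g l ≤ G * H := fun l => Nat.mul_le_mul_left _ (hgH l).2
  set x₀ : Fin N → ℂ := fun l => Complex.log (1 - ((G * g l : ℕ) : ℂ) / ξ) with hx₀
  have hdet : ∀ l, (zc n Q ξ (G * g l) + 1).det ≠ 0 := by
    intro l h0
    have h1 := hn (Δ * c + c + Δ) (G * H) ξ hht' (hge _ (by omega)) (fun l => G * g l) hsep hgH' (dz l) ((hdzc l).trans (by omega)) (by
      rw [hdze, h0, mul_zero]) (fun _ => 0) (fun _ => 1) (fun _ => by rw [Matrix.transpose_one, one_mul, mul_one])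
    rw [hdze] at h1
    have h2 : ((1 : Matrix (Fin n) (Fin n) ℂ) + 1).det ≠ 0 := by
      have h3 : (1 : Matrix (Fin n) (Fin n) ℂ) + 1 = (2 : ℂ) • 1 := (two_smul ℂ _).symm
      rw [h3, Matrix.det_smul, Matrix.det_one, mul_one]
      exact pow_ne_zero _ two_ne_zero
    exact (mul_ne_zero hdc h2) h1
  refine ⟨hdet, fun P hP hP0 => ?_⟩
  have h1 := hn (Δ * c + c + Δ) (G * H) ξ hht' (hge _ (by omega)) (fun l => G * g l) hsep hgH' (hmg Δ P D x)
    ((hmg_deg hP hDc hxc).trans (by omega)) (by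
    rw [hmg_ev hP _ _ (hxe x₀ (fun l => zc n Q ξ (G * g l)) hdet)]
    have h2 : (px x₀ fun l => sc (cm (Jm n Q)) d (zc n Q ξ (G * g l))) =
        fun p : Fin N × Option (Sx n) => vA n Q d G ξ (g p.1) p.2 := by
      funext p
      obtain ⟨l, _ | p⟩ := p <;> rfl
    rw [h2, hP0, mul_zero])
  -- the generic points
  set Dp : MvPolynomial (Fin N × Option (Sx n)) ℚ := ∏ l, cD (zm K) (fun p => MvPolynomial.X (l, some p)) with hDp
  have hDpe : ∀ y : Fin N × Option (Sx n) → ℚ, MvPolynomial.eval y Dp = ∏ l, cD (zm K) (fun p => y (l, some p)) := by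
    intro y
    rw [hDp, map_prod]
    refine Finset.prod_congr rfl fun l _ => ?_
    rw [← cD_map, zm_map]
    simp only [MvPolynomial.eval_X]
  have hprod : P * Dp = 0 := by
    refine MvPolynomial.funext fun y => ?_
    rw [map_mul, map_zero, hDpe]
    by_cases h0 : ∏ l, cD (zm K) (fun p => y (l, some p)) = 0
    · rw [h0, mul_zero]
    · have h0' : ∀ l, cD (zm K : Matrix (Fin n) (Fin n) ℂ) (fun p => ((y (l, some p) : ℚ) : ℂ)) ≠ 0 := by
        intro l h2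
        have h3 := cD_map (algebraMap ℚ ℂ) (zm K) (fun p => y (l, some p))
        rw [zm_map] at h3
        have h4 : (fun p : Sx n => (algebraMap ℚ ℂ) (y (l, some p))) = fun p => ((y (l, some p) : ℚ) : ℂ) := rfl
        rw [h4, h2] at h3
        have h5 : cD (zm K) (fun p => y (l, some p)) = 0 := by
          have h6 := h3.symm
          rw [_root_.map_eq_zero] at h6
          exact h6
        exact h0 (Finset.prod_eq_zero (Finset.mem_univ l) h5)
      set X : Fin N → Matrix (Fin n) (Fin n) ℂ := fun l =>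
        (cD (zm K) (fun p => ((y (l, some p) : ℚ) : ℂ)))⁻¹ • cN (zm K) (fun p => ((y (l, some p) : ℚ) : ℂ)) with hX
      have hXm : ∀ l, (X l).transpose * cm (Jm n Q) * X l = cm (Jm n Q) := fun l => cay_mem hJc hJKc (h0' l)
      have hXs := fun l => sc_cay hdc hJKc (h0' l)
      have h2 := h1 (fun l => ((y (l, none) : ℚ) : ℂ)) X hXm
      rw [hmg_ev hP _ _ (hxe _ X fun l => (hXs l).1)] at h2
      have h3 : (px (fun l => ((y (l, none) : ℚ) : ℂ)) fun l => sc (cm (Jm n Q)) d (X l)) =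
          fun p => ((y p : ℚ) : ℂ) := by
        funext p
        obtain ⟨l, _ | p⟩ := p
        · rfl
        · show sc (cm (Jm n Q)) d (X l) p = _
          rw [(hXs l).2]
      rw [h3] at h2
      have h4 : MvPolynomial.aeval (px (fun l => ((y (l, none) : ℚ) : ℂ)) fun l => en (X l)) D ≠ 0 := by
        rw [hD, map_prod]
        refine Finset.prod_ne_zero_iff.2 fun l _ => ?_
        rw [hdze]
        exact mul_ne_zero hdc (hXs l).1
      have h5 := (mul_eq_zero.1 h2).resolve_left (pow_ne_zero _ h4)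
      have h6 : MvPolynomial.aeval (fun p => ((y p : ℚ) : ℂ)) P = ((MvPolynomial.eval y P : ℚ) : ℂ) :=
        MvPolynomial.aeval_algebraMap_apply (A := ℚ) ℂ y P
      rw [h6] at h5
      have h7 : MvPolynomial.eval y P = 0 := by exact_mod_cast h5
      rw [h7, zero_mul]
  refine (mul_eq_zero.1 hprod).resolve_right fun h0 => ?_
  have h2 := hDpe (fun _ => 0)
  rw [h0, map_zero] at h2
  refine (Finset.prod_ne_zero_iff.2 fun l _ => ?_) h2.symm
  have h4 : (sy fun _ : Sx n => (0 : ℚ)) = 0 := by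
    ext i j
    unfold sy
    rw [Matrix.of_apply]
    split_ifs <;> rfl
  unfold cD
  rw [h4, mul_zero, sub_zero, Matrix.det_one]
  exact one_ne_zero

end Pool.Agent.R351.GD.H
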