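import Pool.Agent.R351.GD.H.Coo
import Pool.Agent.Y118.CM.Sp

/-!
# From the Cayley coordinates to the period matrices
-/

set_option autoImplicit false

open Pool.Agent.Y119.HZ
open Pool.Agent.Y119.HY (QD Jm Am cm Hf Hc E E_isom)

namespace Pool.Agent.R351.GD.H

variable {n : ℕ}

/-- the denominator at one block -/
noncomputable def dk {k : ℕ} (K : Fin k → Matrix (Fin n) (Fin n) ℤ) (l : Fin k) : MvPolynomial (Fin k × Option (Sx n)) ℤ :=
  cD (zm (K l)) fun p => MvPolynomial.X (l, some p)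

/-- the common denominator -/
noncomputable def Dk {k : ℕ} (K : Fin k → Matrix (Fin n) (Fin n) ℤ) : MvPolynomial (Fin k × Option (Sx n)) ℤ := ∏ l, dk K l

/-- the numerators -/
noncomputable def Nk {k : ℕ} (K : Fin k → Matrix (Fin n) (Fin n) ℤ) (l : Fin k) (j : Fin (n * n)) :
    MvPolynomial (Fin k × Option (Sx n)) ℤ :=
  (∏ l' ∈ Finset.univ.erase l, dk K l') * en (cN (zm (K l)) fun p => MvPolynomial.X (l, some p)) j

/-- evaluation of integral polynomials -/
noncomputable def evy {σ : Type} (y : σ → ℂ) : MvPolynomial σ ℤ →+* ℂ := MvPolynomial.eval₂Hom (Int.castRingHom ℂ) y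

theorem evy_X {σ : Type} (y : σ → ℂ) (s : σ) : evy y (MvPolynomial.X s) = y s := MvPolynomial.eval₂Hom_X' _ _ _

theorem evy_dk {k : ℕ} (K : Fin k → Matrix (Fin n) (Fin n) ℤ) (y : Fin k × Option (Sx n) → ℂ) (l : Fin k) :
    evy y (dk K l) = cD (zm (K l)) fun p => y (l, some p) := by
  unfold dk
  rw [← cD_map, zm_map]
  simp only [evy_X]

theorem evy_Dk {k : ℕ} (K : Fin k → Matrix (Fin n) (Fin n) ℤ) (y : Fin k × Option (Sx n) → ℂ) :
    evy y (Dk K) = ∏ l, cD (zm (K l)) fun p => y (l, some p) := by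
  unfold Dk
  rw [map_prod]
  exact Finset.prod_congr rfl fun l _ => evy_dk K y l

theorem evy_Nk {k : ℕ} (K : Fin k → Matrix (Fin n) (Fin n) ℤ) (y : Fin k × Option (Sx n) → ℂ) (l : Fin k) (j : Fin (n * n))
    {X : Matrix (Fin n) (Fin n) ℂ}
    (hX : cN (zm (K l)) (fun p => y (l, some p)) = cD (zm (K l)) (fun p => y (l, some p)) • X) :
    evy y (Nk K l j) = evy y (Dk K) * en X j := by
  classical
  unfold Nk Dk
  rw [map_mul, ← Finset.prod_erase_mul _ _ (Finset.mem_univ l), map_mul, evy_dk, mul_assoc]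
  congr 1
  have h1 : evy y (en (cN (zm (K l)) fun p => MvPolynomial.X (l, some p)) j) = en (cN (zm (K l)) fun p => y (l, some p)) j := by
    have h2 := cN_map (evy y) (zm (K l)) (fun p => MvPolynomial.X (l, some p))
    rw [zm_map] at h2
    simp only [evy_X] at h2
    rw [h2]
    rfl
  rw [h1, hX]
  rfl

section
variable {υ τ : Type} (F : IntermediateField ℚ ℂ)

/-- integral polynomials over a field, with additional variables -/
noncomputable def emb (p : MvPolynomial τ ℤ) : MvPolynomial (υ ⊕ τ) F :=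
  MvPolynomial.rename Sum.inr (MvPolynomial.map (Int.castRingHom F) p)

theorem emb_deg (p : MvPolynomial τ ℤ) : (emb (υ := υ) F p).totalDegree ≤ p.totalDegree := by
  refine (MvPolynomial.totalDegree_rename_le _ _).trans ?_
  exact Finset.sup_mono (MvPolynomial.support_map_subset _ _)

theorem emb_ev (w : υ → ℂ) (y : τ → ℂ) (p : MvPolynomial τ ℤ) :
    MvPolynomial.aeval (Sum.elim w y) (emb F p) = evy y p := by
  unfold emb evy
  rw [MvPolynomial.aeval_rename, MvPolynomial.aeval_def, MvPolynomial.eval₂_map]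
  congr 1

end

theorem px_eq {k : ℕ} {σ : Type} (x : Fin k → ℂ) (z : Fin k → σ → ℂ) (l : Fin k) : (fun p => px x z (l, some p)) = z l := rfl

/-- **from the Cayley coordinates to the matrices** -/
theorem alg {k : ℕ} {Q : Fin k → Polynomial ℚ} (hQ : ∀ l, QD n (Q l)) {d : Fin k → ℕ}
    {K : Fin k → Matrix (Fin n) (Fin n) ℤ} (hK : ∀ l, IK n (Q l) (d l) (K l)) :
    ∃ c : ℕ, ∀ (F : IntermediateField ℚ ℂ) (υ : Type) (w : υ → ℂ) (δ : ℕ) (x₀ : Fin k → ℂ)
      (Z : Fin k → Matrix (Fin n) (Fin n) ℂ), (∀ l, (Z l).transpose * cm (Jm n (Q l)) * Z l = cm (Jm n (Q l))) →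
      (∀ l, (Z l + 1).det ≠ 0) →
      (∀ P' : MvPolynomial (υ ⊕ Fin k × Option (Sx n)) F, P'.totalDegree ≤ δ * c →
        MvPolynomial.aeval (Sum.elim w (px x₀ fun l => sc (cm (Jm n (Q l))) (d l) (Z l))) P' = 0 →
        ∀ y, MvPolynomial.aeval (Sum.elim w y) P' = 0) →
      ∀ P : MvPolynomial (υ ⊕ Fin k × Option (Fin (n * n))) F, P.totalDegree ≤ δ →
        MvPolynomial.aeval (Sum.elim w (px x₀ fun l => en (Z l))) P = 0 →
        ∀ (x : Fin k → ℂ) (X : Fin k → Matrix (Fin n) (Fin n) ℂ),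
          (∀ l, (X l).transpose * cm (Jm n (Q l)) * X l = cm (Jm n (Q l))) →
          MvPolynomial.aeval (Sum.elim w (px x fun l => en (X l))) P = 0 := by
  classical
  refine ⟨(Dk K).totalDegree + 1 + ∑ l, ∑ j, (Nk K l j).totalDegree, fun F υ w δ x₀ Z hZ hZdet hfree P hP hP0 => ?_⟩
  set c := (Dk K).totalDegree + 1 + ∑ l, ∑ j, (Nk K l j).totalDegree with hc
  have hJ : ∀ l, zm (K l) * cm (Jm n (Q l)) = ((d l : ℕ) : ℂ) • (1 : Matrix (Fin n) (Fin n) ℂ) ∧
      (cm (Jm n (Q l))).transpose = -cm (Jm n (Q l)) := fun l =>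
    ⟨((hK l).jk (hQ l) (algebraMap ℚ ℂ)).2.1, ((hK l).jk (hQ l) (algebraMap ℚ ℂ)).2.2⟩
  have hdc : ∀ l, ((d l : ℕ) : ℂ) ≠ 0 := fun l => by exact_mod_cast (hK l).ne
  set xx : υ ⊕ Fin k × Option (Fin (n * n)) → MvPolynomial (υ ⊕ Fin k × Option (Sx n)) F :=
    Sum.elim (fun v => emb F (Dk K) * MvPolynomial.X (Sum.inl v)) fun s =>
      s.2.elim (emb F (Dk K) * MvPolynomial.X (Sum.inr (s.1, none))) fun j => emb F (Nk K s.1 j) with hxx
  have hDc : (emb (υ := υ) F (Dk K)).totalDegree ≤ c := (emb_deg F _).trans (by rw [hc]; omega)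
  have hDX : ∀ s, (emb F (Dk K) * MvPolynomial.X s : MvPolynomial (υ ⊕ Fin k × Option (Sx n)) F).totalDegree ≤ c := by
    intro s
    refine (MvPolynomial.totalDegree_mul _ _).trans ?_
    rw [MvPolynomial.totalDegree_X]
    have := emb_deg (υ := υ) F (Dk K)
    rw [hc]
    omega
  have hxc : ∀ s, (xx s).totalDegree ≤ c := by
    rintro (v | ⟨l, _ | j⟩)
    · exact hDX _
    · exact hDX _
    · refine (emb_deg F _).trans ?_
      show (Nk K l j).totalDegree ≤ c
      have h1 : (Nk K l j).totalDegree ≤ ∑ j, (Nk K l j).totalDegree :=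
        Finset.single_le_sum (f := fun j => (Nk K l j).totalDegree) (fun _ _ => Nat.zero_le _) (Finset.mem_univ j)
      have h2 : ∑ j, (Nk K l j).totalDegree ≤ ∑ l, ∑ j, (Nk K l j).totalDegree :=
        Finset.single_le_sum (f := fun l => ∑ j, (Nk K l j).totalDegree) (fun _ _ => Nat.zero_le _) (Finset.mem_univ l)
      rw [hc]
      omega
  have hxe : ∀ (x : Fin k → ℂ) (X : Fin k → Matrix (Fin n) (Fin n) ℂ),
      (∀ l, (X l).transpose * cm (Jm n (Q l)) * X l = cm (Jm n (Q l))) → (∀ l, (X l + 1).det ≠ 0) → ∀ s,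
      MvPolynomial.aeval (Sum.elim w (px x fun l => sc (cm (Jm n (Q l))) (d l) (X l))) (xx s) =
        MvPolynomial.aeval (Sum.elim w (px x fun l => sc (cm (Jm n (Q l))) (d l) (X l))) (emb F (Dk K)) *
          (Sum.elim w (px x fun l => en (X l)) s) := by
    intro x X hX hXd s
    rcases s with v | ⟨l, _ | j⟩
    · show MvPolynomial.aeval _ (emb F (Dk K) * MvPolynomial.X (Sum.inl v)) = _
      rw [map_mul, MvPolynomial.aeval_X]
      rfl
    · show MvPolynomial.aeval _ (emb F (Dk K) * MvPolynomial.X (Sum.inr (l, none))) = _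
      rw [map_mul, MvPolynomial.aeval_X]
      rfl
    · show MvPolynomial.aeval _ (emb F (Nk K l j)) = _
      rw [emb_ev, emb_ev]
      exact evy_Nk K _ l j (sc_at (hdc l) (hJ l).2 (hJ l).1 (hX l) (hXd l)).1
  have hall := hfree (hmg δ P (emb F (Dk K)) xx) (hmg_deg hP hDc hxc) (by
    rw [hmg_ev hP _ _ (hxe x₀ Z hZ hZdet), hP0, mul_zero])
  -- the dense open subset
  have hopen : ∀ (x : Fin k → ℂ) (X : Fin k → Matrix (Fin n) (Fin n) ℂ),
      (∀ l, (X l).transpose * cm (Jm n (Q l)) * X l = cm (Jm n (Q l))) → (∀ l, (X l + 1).det ≠ 0) →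
      MvPolynomial.aeval (Sum.elim w (px x fun l => en (X l))) P = 0 := by
    intro x X hX hXd
    have h1 := hall (px x fun l => sc (cm (Jm n (Q l))) (d l) (X l))
    rw [hmg_ev hP _ _ (hxe x X hX hXd)] at h1
    refine (mul_eq_zero.1 h1).resolve_left (pow_ne_zero _ ?_)
    rw [emb_ev, evy_Dk]
    refine Finset.prod_ne_zero_iff.2 fun l _ => ?_
    have h2 := (sc_at (hdc l) (hJ l).2 (hJ l).1 (hX l) (hXd l)).2
    rw [px_eq]
    intro h0
    rw [h0, zero_mul] at h2
    exact pow_ne_zero n (two_ne_zero (α := ℂ)) h2.symm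
  -- the closure
  intro x X hX
  have hpath := fun l => Pool.Agent.Y118.CM.Pc_all (hJ l).2 (Pool.Agent.Y119.HY.Jc_det (hQ l)) (X l) (hX l)
  choose M hM0 hM1 hM using hpath
  set p : Polynomial ℂ := MvPolynomial.aeval (Sum.elim (fun v => Polynomial.C (w v)) fun s : Fin k × Option (Fin (n * n)) =>
    s.2.elim (Polynomial.C (x s.1)) (en (M s.1))) P with hp
  have hpe : ∀ c : ℂ, p.eval c = MvPolynomial.aeval (Sum.elim w (px x fun l => en ((M l).map (Polynomial.eval c)))) P := by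
    intro c
    have h1 : ((Polynomial.aeval c : Polynomial ℂ →ₐ[ℂ] ℂ).restrictScalars F).comp
        (MvPolynomial.aeval (Sum.elim (fun v => Polynomial.C (w v)) fun s : Fin k × Option (Fin (n * n)) =>
          s.2.elim (Polynomial.C (x s.1)) (en (M s.1)))) =
        MvPolynomial.aeval (Sum.elim w (px x fun l => en ((M l).map (Polynomial.eval c)))) := by
      refine MvPolynomial.algHom_ext fun s => ?_
      rw [AlgHom.comp_apply, MvPolynomial.aeval_X, MvPolynomial.aeval_X, AlgHom.restrictScalars_apply]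
      rcases s with v | ⟨l, _ | j⟩
      · exact Polynomial.aeval_C c (w v)
      · exact Polynomial.aeval_C c (x l)
      · rfl
    rw [← h1]
    rfl
  set q : Polynomial ℂ := ∏ l, (M l + 1).det with hq
  have hqe : ∀ c : ℂ, q.eval c = ∏ l, ((M l).map (Polynomial.eval c) + 1).det := by
    intro c
    rw [hq, Polynomial.eval_prod]
    refine Finset.prod_congr rfl fun l _ => ?_
    have h1 := RingHom.map_det (Polynomial.evalRingHom c) (M l + 1)
    rw [map_add, map_one] at h1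
    exact h1
  have hpq : p * q = 0 := by
    refine Polynomial.funext fun c => ?_
    rw [Polynomial.eval_mul, Polynomial.eval_zero, hpe, hqe]
    by_cases h0 : ∏ l, ((M l).map (Polynomial.eval c) + 1).det = 0
    · rw [h0, mul_zero]
    · rw [hopen x _ (fun l => hM l c) fun l h1 => h0 (Finset.prod_eq_zero (Finset.mem_univ l) h1), zero_mul]
  have hq0 : q ≠ 0 := by
    intro h0
    have h1 := hqe 0
    rw [h0, Polynomial.eval_zero] at h1
    refine (Finset.prod_ne_zero_iff.2 fun l _ => ?_) h1.symm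
    rw [hM0]
    have h3 : (1 : Matrix (Fin n) (Fin n) ℂ) + 1 = (2 : ℂ) • 1 := (two_smul ℂ _).symm
    rw [h3, Matrix.det_smul, Matrix.det_one, mul_one]
    exact pow_ne_zero _ two_ne_zero
  have hp0 := (mul_eq_zero.1 hpq).resolve_right hq0
  have h1 := hpe 1
  rw [hp0, Polynomial.eval_zero] at h1
  simp only [hM1] at h1
  exact h1.symm

/-! ### the logarithmic part and the constant matrices -/

/-- the point with the logarithms `L` and the matrices `Y` -/
def pm {k : ℕ} (L : Fin k → ℂ) (Y : Fin k → Matrix (Fin n) (Fin n) ℂ) (p : Fin k × Option (Fin n × Fin n)) : ℂ :=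
  p.2.elim (L p.1) fun q => Y p.1 q.1 q.2

/-- the substitution -/
noncomputable def sb {k : ℕ} {υ : Type} (Oi : Fin k → Fin n → Fin n → υ) :
    υ ⊕ Fin k × Option (Fin n × Fin n) → MvPolynomial (υ ⊕ Fin k × Option (Fin (n * n))) ℚ :=
  Sum.elim (fun v => MvPolynomial.X (Sum.inl v)) fun s => s.2.elim (MvPolynomial.X (Sum.inr (s.1, none))) fun q =>
    ∑ c, ∑ e, MvPolynomial.X (Sum.inr (s.1, some ((Pool.Agent.Y119.HZ.ix n).symm (q.1, c)))) *
      (∑ i ∈ Finset.range n, MvPolynomial.C (qe n i c e) * MvPolynomial.X (Sum.inr (s.1, none)) ^ i) *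
      MvPolynomial.X (Sum.inl (Oi s.1 e q.2))

theorem sb_deg {k : ℕ} {υ : Type} (Oi : Fin k → Fin n → Fin n → υ) (s : υ ⊕ Fin k × Option (Fin n × Fin n)) :
    (sb Oi s).totalDegree ≤ n + 2 := by
  rcases s with v | ⟨l, _ | q⟩
  · show (MvPolynomial.X (Sum.inl v) : MvPolynomial (υ ⊕ Fin k × Option (Fin (n * n))) ℚ).totalDegree ≤ _
    rw [MvPolynomial.totalDegree_X]
    omega
  · show (MvPolynomial.X (Sum.inr (l, none)) : MvPolynomial (υ ⊕ Fin k × Option (Fin (n * n))) ℚ).totalDegree ≤ _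
    rw [MvPolynomial.totalDegree_X]
    omega
  · show (∑ c, ∑ e, MvPolynomial.X (Sum.inr (l, some ((Pool.Agent.Y119.HZ.ix n).symm (q.1, c)))) *
      (∑ i ∈ Finset.range n, MvPolynomial.C (qe n i c e) * MvPolynomial.X (Sum.inr (l, none)) ^ i) *
      MvPolynomial.X (Sum.inl (Oi l e q.2)) : MvPolynomial (υ ⊕ Fin k × Option (Fin (n * n))) ℚ).totalDegree ≤ n + 2
    refine (MvPolynomial.totalDegree_finsetSum _ _).trans (Finset.sup_le fun c _ => ?_)
    refine (MvPolynomial.totalDegree_finsetSum _ _).trans (Finset.sup_le fun e _ => ?_)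
    refine (MvPolynomial.totalDegree_mul _ _).trans ?_
    rw [MvPolynomial.totalDegree_X]
    have h0 : ∀ A : MvPolynomial (υ ⊕ Fin k × Option (Fin (n * n))) ℚ, (MvPolynomial.X
        (Sum.inr (l, some ((Pool.Agent.Y119.HZ.ix n).symm (q.1, c)))) * A).totalDegree ≤ 1 + A.totalDegree := by
      intro A
      refine (MvPolynomial.totalDegree_mul _ _).trans ?_
      rw [MvPolynomial.totalDegree_X]
    have h1 := h0 (∑ i ∈ Finset.range n, MvPolynomial.C (qe n i c e) * MvPolynomial.X (Sum.inr (l, none)) ^ i)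
    have h2 : (∑ i ∈ Finset.range n, MvPolynomial.C (qe n i c e) *
        (MvPolynomial.X (Sum.inr (l, none)) : MvPolynomial (υ ⊕ Fin k × Option (Fin (n * n))) ℚ) ^ i).totalDegree ≤ n := by
      refine (MvPolynomial.totalDegree_finsetSum _ _).trans (Finset.sup_le fun i hi => ?_)
      refine (MvPolynomial.totalDegree_mul _ _).trans ?_
      rw [MvPolynomial.totalDegree_C, zero_add, MvPolynomial.totalDegree_X_pow]
      exact (Finset.mem_range.1 hi).le
    omega

theorem sb_ev {k : ℕ} {υ : Type} (Oi : Fin k → Fin n → Fin n → υ) (w : υ → ℂ) (x : Fin k → ℂ)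
    (X : Fin k → Matrix (Fin n) (Fin n) ℂ) (s : υ ⊕ Fin k × Option (Fin n × Fin n)) :
    MvPolynomial.aeval (Sum.elim w (px x fun l => en (X l))) (sb Oi s) =
      Sum.elim w (pm x fun l => X l * E (cm (Am n)) (-x l) * Matrix.of fun a b => w (Oi l a b)) s := by
  rcases s with v | ⟨l, _ | q⟩
  · show MvPolynomial.aeval _ (MvPolynomial.X (Sum.inl v)) = _
    rw [MvPolynomial.aeval_X]
    rfl
  · show MvPolynomial.aeval _ (MvPolynomial.X (Sum.inr (l, none))) = _
    rw [MvPolynomial.aeval_X]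
    rfl
  · show MvPolynomial.aeval _ (∑ c, ∑ e, MvPolynomial.X (Sum.inr (l, some ((Pool.Agent.Y119.HZ.ix n).symm (q.1, c)))) *
      (∑ i ∈ Finset.range n, MvPolynomial.C (qe n i c e) * MvPolynomial.X (Sum.inr (l, none)) ^ i) *
      MvPolynomial.X (Sum.inl (Oi l e q.2))) =
      (X l * E (cm (Am n)) (-x l) * Matrix.of fun a b => w (Oi l a b)) q.1 q.2
    rw [map_sum, Matrix.mul_apply]
    simp only [map_sum, map_mul, map_pow, MvPolynomial.aeval_X, MvPolynomial.aeval_C, Matrix.mul_apply, Finset.sum_mul]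
    rw [Finset.sum_comm]
    refine Finset.sum_congr rfl fun e _ => Finset.sum_congr rfl fun c _ => ?_
    rw [E_qe]
    have h1 : Sum.elim w (px x fun l => en (X l)) (Sum.inr (l, some ((Pool.Agent.Y119.HZ.ix n).symm (q.1, c)))) = X l q.1 c := by
      show en (X l) ((Pool.Agent.Y119.HZ.ix n).symm (q.1, c)) = _
      unfold en
      rw [Equiv.apply_symm_apply]
    rw [h1]
    rfl

/-- **from the Cayley coordinates to the period matrices** -/
theorem alg2 {k : ℕ} {Q : Fin k → Polynomial ℚ} (hQ : ∀ l, QD n (Q l)) {d : Fin k → ℕ}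
    {K : Fin k → Matrix (Fin n) (Fin n) ℤ} (hK : ∀ l, IK n (Q l) (d l) (K l)) :
    ∃ c : ℕ, ∀ (F : IntermediateField ℚ ℂ) (υ : Type) (w : υ → ℂ) (Oi : Fin k → Fin n → Fin n → υ) (δ : ℕ) (x₀ : Fin k → ℂ)
      (Z : Fin k → Matrix (Fin n) (Fin n) ℂ), (∀ l, (Z l).transpose * cm (Jm n (Q l)) * Z l = cm (Jm n (Q l))) →
      (∀ l, (Z l + 1).det ≠ 0) →
      (∀ P' : MvPolynomial (υ ⊕ Fin k × Option (Sx n)) F, P'.totalDegree ≤ δ * c →
        MvPolynomial.aeval (Sum.elim w (px x₀ fun l => sc (cm (Jm n (Q l))) (d l) (Z l))) P' = 0 →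
        ∀ y, MvPolynomial.aeval (Sum.elim w y) P' = 0) →
      ∀ P : MvPolynomial (υ ⊕ Fin k × Option (Fin n × Fin n)) F, P.totalDegree ≤ δ →
        MvPolynomial.aeval (Sum.elim w (pm x₀ fun l => Z l * E (cm (Am n)) (-x₀ l) * Matrix.of fun a b => w (Oi l a b))) P = 0 →
        ∀ (x : Fin k → ℂ) (X : Fin k → Matrix (Fin n) (Fin n) ℂ),
          (∀ l, (X l).transpose * cm (Jm n (Q l)) * X l = cm (Jm n (Q l))) →
          MvPolynomial.aeval (Sum.elim w (pm x fun l => X l * Matrix.of fun a b => w (Oi l a b))) P = 0 := by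
  classical
  obtain ⟨c, hc⟩ := alg hQ hK
  refine ⟨(n + 2) * c, fun F υ w Oi δ x₀ Z hZ hZd hfree P hP hP0 x X hX => ?_⟩
  set xx : υ ⊕ Fin k × Option (Fin n × Fin n) → MvPolynomial (υ ⊕ Fin k × Option (Fin (n * n))) F := fun s =>
    MvPolynomial.map (algebraMap ℚ F) (sb Oi s) with hxx
  have hxc : ∀ s, (xx s).totalDegree ≤ n + 2 := fun s =>
    (Finset.sup_mono (MvPolynomial.support_map_subset _ _)).trans (sb_deg Oi s)
  have hxe : ∀ (x : Fin k → ℂ) (X : Fin k → Matrix (Fin n) (Fin n) ℂ) s,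
      MvPolynomial.aeval (Sum.elim w (px x fun l => en (X l))) (xx s) =
      MvPolynomial.aeval (Sum.elim w (px x fun l => en (X l))) (1 : MvPolynomial _ F) *
      Sum.elim w (pm x fun l => X l * E (cm (Am n)) (-x l) * Matrix.of fun a b => w (Oi l a b)) s := by
    intro x X s
    rw [map_one, one_mul, ← sb_ev, hxx]
    exact MvPolynomial.aeval_map_algebraMap _ _ _
  have h1 := hc F υ w (δ * (n + 2)) x₀ Z hZ hZd (fun P' hP' => hfree P' (by rw [← mul_assoc]; exact hP'))
    (hmg δ P 1 xx) (hmg_deg hP (by rw [MvPolynomial.totalDegree_one]; exact Nat.zero_le _) hxc) (by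
      rw [hmg_ev hP _ _ (hxe x₀ Z), hP0, mul_zero]) x (fun l => X l * E (cm (Am n)) (x l)) (fun l =>
        isom_mul (hX l) (E_isom Pool.Agent.Y119.HY.Ac_nil Pool.Agent.Y119.HY.Jc_rel (x l)))
  rw [hmg_ev hP _ _ (hxe x _), map_one, one_pow, one_mul] at h1
  have h2 : (fun l => X l * E (cm (Am n)) (x l) * E (cm (Am n)) (-x l) * Matrix.of fun a b => w (Oi l a b)) =
      fun l => X l * Matrix.of fun a b => w (Oi l a b) := by
    funext l
    rw [Matrix.mul_assoc (X l), Pool.Agent.Y119.HY.E_mul_neg Pool.Agent.Y119.HY.Ac_nil, mul_one]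
  rw [h2] at h1
  exact h1

end Pool.Agent.R351.GD.H
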