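import Pool.Agent.R351.GD.H.Val

/-!
# Hypergeometric functions: the relations of degree at most `Δ` between the values at separated points
-/

set_option autoImplicit false

open PowerSeries Pool.Agent.Y113 Pool.Agent.Y120.GF Pool.Agent.Y120.GH Pool.Agent.Y119.HZ
open Pool.Agent.Y119.HY (QD Jm cm Hf Hc)

namespace Pool.Agent.R351.GD.H

variable {n : ℕ} {Q : Polynomial ℚ}

/-- the period matrix without the logarithmic part at `1 / (t - g)` -/
noncomputable def zm1 (n : ℕ) (Q : Polynomial ℚ) (t : ℕ) (g : ℕ) : Matrix (Fin n) (Fin n) ℂ :=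
  Hf (Hc n Q) (((1 / ((t : ℝ) - g) : ℝ)) : ℂ)

/-- the entries of a matrix -/
def en {R : Type} (X : Matrix (Fin n) (Fin n) R) (j : Fin (n * n)) : R := X (ix n j).1 (ix n j).2

theorem big_pow {H c t : ℕ} (h : (H + 2) ^ (c + 1) ≤ t) : H + c < t := by
  have h2 : (H + 2) ^ c * (H + 2) ≤ t := by rw [← pow_succ]; exact h
  have h3 : 2 ^ c ≤ (H + 2) ^ c := Nat.pow_le_pow_left (by omega) _
  have h4 : c < 2 ^ c := Nat.lt_two_pow_self
  nlinarith

/-- **the relations between the values hold on the product of the groups** -/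
theorem nrel (hQ : QD n Q) (hH : ∀ i j, SDc (Hp n Q i j)) : ∃ R : ℕ, ∀ N : ℕ, ∃ E : ℕ → ℕ, PB E ∧
    ∀ (Δ H t : ℕ), (H + 2) ^ E Δ ≤ t → ∀ g : Fin N → ℕ, SepR R g → (∀ l, g l ≤ H) →
    ∀ P : MvPolynomial (Fin N × Option (Fin (n * n))) ℚ, P.totalDegree ≤ Δ →
    MvPolynomial.aeval (px (fun l => ((Real.log (1 - g l / t) : ℝ) : ℂ)) fun l => en (zm1 n Q t (g l))) P = 0 →
    ∀ (x : Fin N → ℂ) (X : Fin N → Matrix (Fin n) (Fin n) ℂ),
      (∀ l, (X l).transpose * cm (Jm n Q) * X l = cm (Jm n Q)) →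
      MvPolynomial.aeval (px x fun l => en (X l)) P = 0 := by
  classical
  obtain ⟨q₀, R, c, Eb, Tg, d, K, hK, hEb, hc, hpk⟩ := pack hQ hH
  obtain ⟨C₁, hC₁, hs, -⟩ := Pool.Agent.Y119.HY.SDc.unif (y := fun p : Fin n × Fin n => Hp n Q p.1 p.2) fun p => hH p.1 p.2
  obtain ⟨C₂, hC₂⟩ := exists_nat_ge C₁
  refine ⟨R, fun N => ?_⟩
  obtain ⟨q, EF, hEFp, hF⟩ := multi_exp q₀ Eb hEb N
  obtain ⟨EG, hEGp, hG⟩ := gof_exp Pool.Agent.Y141.GF.t_shid Pool.Agent.Y141.GF.t_loc q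
  refine ⟨fun Δ => (c + 1) + (C₂ + 2) + (EF Δ + 1) * EG ((Eb Δ * (Δ + 1)) ^ N), ?_, ?_⟩
  · have h1 : PB fun Δ : ℕ => (Eb Δ * (Δ + 1)) ^ N := (hEb.mul (PB.id.add (PB.const 1))).pow N
    exact (PB.const (c + 1 + (C₂ + 2))).add ((hEFp.add (PB.const 1)).mul (hEGp.comp h1))
  intro Δ H t ht g hsep hgH P hP hP0 x X hX
  obtain ⟨B, a, M, ha0, h0B, hB, hrel, hsys, hli⟩ := hpk Δ
  have hF := hF Δ (B × Fin (Δ + 1)) (Ys (hf n Q) B) Tg hsys H g hgH
  have hG := hG ((Eb Δ * (Δ + 1)) ^ N)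
  set EF := EF Δ
  set EG := EG ((Eb Δ * (Δ + 1)) ^ N)
  set E := (c + 1) + (C₂ + 2) + (EF + 1) * EG with hE
  have ht' : (H + 2) ^ E ≤ t := ht
  have hH2 : (1 : ℝ) ≤ (H : ℝ) + 2 := one_le_base H
  have htR : ((H : ℝ) + 2) ^ E ≤ t := by exact_mod_cast ht'
  have hge : ∀ a ≤ E, ((H : ℝ) + 2) ^ a ≤ t := fun a ha => (base_mono hH2 ha).trans htR
  have hgeN : ∀ a ≤ E, (H + 2) ^ a ≤ t := fun a ha => (Nat.pow_le_pow_right (by omega) ha).trans ht'
  have htc : H + c < t := big_pow (hgeN _ (by omega))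
  have htC : H + (C₂ + 1) < t := big_pow (hgeN _ (by omega))
  have ht0 : (0 : ℝ) < t := by exact_mod_cast (by omega : 0 < t)
  have hgt : ∀ l, ((g l : ℕ) : ℝ) + C₁ + 1 < t := by
    intro l
    have h1 : ((g l : ℕ) : ℝ) ≤ H := by exact_mod_cast hgH l
    have h2 : ((H : ℝ) + (C₂ + 1)) < t := by exact_mod_cast htC
    linarith
  have hgt0 : ∀ l, ((g l : ℕ) : ℝ) < t := fun l => by
    have := hgt l
    linarith
  have hs' : ∀ (j : Fin (n * n)) m, |((coeff m (hf n Q j) : ℚ) : ℝ)| ≤ C₁ ^ (m + 1) := fun j m => hs (ix n j) m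
  have hC0 : (0 : ℝ) ≤ C₁ := by linarith
  -- the values of the functions
  have hcv : ∀ (l : Fin N) (j : Fin (n * n)), Cv (t : ℝ) (sf (g l) (hf n Q j)) := fun l j =>
    cx_sf_cv hC0 (hs' j) (g l) (by have := hgt l; linarith)
  have hval : ∀ (l : Fin N) (j : Fin (n * n)), ((ev (t : ℝ) (sf (g l) (hf n Q j)) : ℝ) : ℂ) = en (zm1 n Q t (g l)) j := by
    intro l j
    have h1 := ou_shift hC0 (hs' j) (g l) (t := ((t : ℝ) : ℂ)) (by
      rw [Complex.norm_real, Real.norm_of_nonneg ht0.le]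
      have := hgt l
      linarith)
    have h2 : (((t : ℝ) : ℂ)) - ((g l : ℕ) : ℂ) = ((((t : ℝ) - g l : ℝ)) : ℂ) := by
      push_cast
      ring
    rw [h2, ou_ev, ou_ev] at h1
    rw [h1]
    exact ev_Hp _ _ _
  have hcvo : ∀ (l : Fin N) (o : Option (Fin (n * n))), Cv (t : ℝ) (sf (g l) (o.elim 1 (hf n Q))) := by
    intro l o
    rcases o with _ | j
    · show Cv (t : ℝ) (sf (g l) 1)
      rw [sf_one, ← map_one (C (R := ℚ))]
      exact Cv.C _
    · exact hcv l j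
  have hvalo : ∀ (l : Fin N) (o : Option (Fin (n * n))), ((ev (t : ℝ) (sf (g l) (o.elim 1 (hf n Q))) : ℝ) : ℂ) =
      o.elim 1 (en (zm1 n Q t (g l))) := by
    intro l o
    rcases o with _ | j
    · show ((ev (t : ℝ) (sf (g l) 1) : ℝ) : ℂ) = 1
      rw [sf_one, ev_one]
      simp
    · exact hval l j
  have hcvy : ∀ (l : Fin N) (w : Fin Δ → Option (Fin (n * n))), Cv (t : ℝ) (sf (g l) (yw (hf n Q) w)) := by
    intro l w
    unfold yw
    rw [sf_prod]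
    exact Cv.prod ht0 _ _ fun i _ => hcvo l (w i)
  have hevy : ∀ (l : Fin N) (w : Fin Δ → Option (Fin (n * n))), ((ev (t : ℝ) (sf (g l) (yw (hf n Q) w)) : ℝ) : ℂ) =
      yw (en (zm1 n Q t (g l))) w := by
    intro l w
    unfold yw
    rw [sf_prod, Cv.ev_prod ht0 _ _ fun i _ => hcvo l (w i), Complex.ofReal_prod]
    exact Finset.prod_congr rfl fun i _ => hvalo l (w i)
  have hcvl : ∀ l : Fin N, Cv (t : ℝ) (lg (g l)) := fun l => lg_cv (hgt0 l)
  have hcvY : ∀ (l : Fin N) (b : B × Fin (Δ + 1)), Cv (t : ℝ) (Ys (hf n Q) B (g l) b) := fun l b =>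
    (hcvy l b.1.1).mul ht0 ((hcvl l).pow ht0 _)
  have hevY : ∀ (l : Fin N) (b : B × Fin (Δ + 1)), ((ev (t : ℝ) (Ys (hf n Q) B (g l) b) : ℝ) : ℂ) =
      yw (en (zm1 n Q t (g l))) b.1.1 * ((Real.log (1 - g l / t) : ℝ) : ℂ) ^ (b.2 : ℕ) := by
    intro l b
    unfold Ys
    rw [Cv.ev_mul ht0 (hcvy l b.1.1) ((hcvl l).pow ht0 _), Cv.ev_pow ht0 (hcvl l), ev_lg (hgt0 l), Complex.ofReal_mul,
      hevy, Complex.ofReal_pow]
  -- linear independence of the values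
  have hone : (∏ l, Ys (hf n Q) B (g l) ((⟨fun _ => none, h0B⟩ : B), (0 : Fin (Δ + 1)))) = 1 := by
    refine Finset.prod_eq_one fun l _ => ?_
    unfold Ys yw
    simp only [Option.elim_none, Finset.prod_const_one]
    rw [sf_one, Fin.val_zero, pow_zero, mul_one]
  have hcard : Fintype.card (Fin N → B × Fin (Δ + 1)) ≤ (Eb Δ * (Δ + 1)) ^ N := by
    rw [Fintype.card_fun, Fintype.card_prod, Fintype.card_coe, Fintype.card_fin, Fintype.card_fin]
    exact Nat.pow_le_pow_left (Nat.mul_le_mul_right _ hB) _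
  have hEG : (2 * ((H : ℝ) + 2) ^ EF) ^ EG ≤ t := by
    refine (pow_base H _ _).trans (hge _ ?_)
    rw [hE]
    omega
  have hT0 : Polynomial.aeval (1 / (t : ℝ)) (∏ l, Tg (g l)) ≠ 0 := by
    rw [map_prod]
    refine Finset.prod_ne_zero_iff.2 fun l _ => hc _ _ ?_
    have := hgH l
    omega
  have hLI := hG (Fin N → B × Fin (Δ + 1)) (((H : ℝ) + 2) ^ EF) (∏ l, Tg (g l))
    (fun b => ∏ l, Ys (hf n Q) B (g l) (b l)) (fun _ => ((⟨fun _ => none, h0B⟩ : B), (0 : Fin (Δ + 1)))) t hcard hF hone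
    (hli N g hsep) hEG hT0
  -- the coordinates in the basis
  have haQ : (a : ℂ) ≠ 0 := by exact_mod_cast ha0
  have hgood : ∀ Z : Matrix (Fin n) (Fin n) ℂ, Z.transpose * cm (Jm n Q) * Z = cm (Jm n Q) →
      ∀ w, yw (en Z) w = ∑ b, (((M w b : ℚ) / a : ℚ) : ℂ) * yw (en Z) b.1 := by
    intro Z hZ w
    have h1 := rel_sp hQ hK hrel hZ w
    have h2 : (a : ℂ) * yw (en Z) w = ∑ b, (M w b : ℂ) * yw (en Z) b.1 := h1
    rw [← mul_right_inj' haQ, h2, Finset.mul_sum]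
    refine Finset.sum_congr rfl fun b _ => ?_
    push_cast
    field_simp
  obtain ⟨Γ, hΓ⟩ := expand_px (fun w b => (M w b : ℚ) / a) P hP
  have hz1 : ∀ l, ‖(((1 / ((t : ℝ) - g l) : ℝ)) : ℂ)‖ < 1 := by
    intro l
    have h1 : 1 < (t : ℝ) - g l := by
      have := hgt l
      linarith
    rw [Complex.norm_real, Real.norm_of_nonneg (by positivity), div_lt_one (by linarith)]
    exact h1
  have h1 := hΓ (fun l => ((Real.log (1 - g l / t) : ℝ) : ℂ)) (fun l => en (zm1 n Q t (g l)))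
    (fun l w => hgood _ (Pool.Agent.Y119.HA.form_c hQ (hz1 l)) w)
  rw [hP0] at h1
  have hΓ0 : ∀ c, Γ c = 0 := by
    refine Fintype.linearIndependent_iff.1 hLI Γ ?_
    have h2 : ((∑ c, Γ c • ev (t : ℝ) (∏ l, Ys (hf n Q) B (g l) (c l)) : ℝ) : ℂ) = 0 := by
      rw [h1, Complex.ofReal_sum]
      refine Finset.sum_congr rfl fun c _ => ?_
      rw [Rat.smul_def, Complex.ofReal_mul, Complex.ofReal_ratCast, Cv.ev_prod ht0 _ _ fun l _ => hcvY l (c l),
        Complex.ofReal_prod]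
      congr 1
      exact Finset.prod_congr rfl fun l _ => hevY l (c l)
    exact_mod_cast h2
  have h3 := hΓ x (fun l => en (X l)) (fun l w => hgood _ (hX l) w)
  rw [h3]
  refine Finset.sum_eq_zero fun c _ => ?_
  rw [hΓ0 c, Rat.cast_zero, zero_mul]

end Pool.Agent.R351.GD.H
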