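import Pool.Agent.R351.GD.GKm
import Pool.Agent.R351.GD.Valc
import Pool.Agent.R351.GD.H.Nrel

/-!
# Hypergeometric functions at algebraic points: bases of the products, growth of the dimensions
-/

set_option autoImplicit false

open PowerSeries Pool.Agent.Y113 Pool.Agent.Y120.GF Pool.Agent.Y120.GH Pool.Agent.Y119.HZ
open Pool.Agent.Y119.HY (QD Jm cm Hf Hc)

namespace Pool.Agent.R351.GD.H

/-- a step with small growth -/
theorem grow (n c Δ : ℕ) (f : ℕ → ℕ) (hf1 : ∀ D, 1 ≤ f D) (hf2 : ∀ D, f D ≤ (D + 2) ^ n) :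
    ∃ D : ℕ, D ≤ c * (4 * (2 * n) * (c * Δ + 2 * n + 2) ^ 2 + 1) * Δ + Δ ∧ c * (f (D + Δ) - f D) ≤ f (D + Δ) := by
  rcases Nat.eq_zero_or_pos c with rfl | hc0
  · exact ⟨0, Nat.zero_le _, by rw [zero_mul]; exact Nat.zero_le _⟩
  rcases Nat.eq_zero_or_pos Δ with rfl | hΔ0
  · refine ⟨0, Nat.zero_le _, ?_⟩
    rw [add_zero, Nat.sub_self, mul_zero]
    exact Nat.zero_le _
  by_contra hcon
  push Not at hcon
  set K := 4 * (2 * n) * (c * Δ + 2 * n + 2) ^ 2 + 1 with hK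
  have hcon' : ∀ D, D ≤ c * K * Δ + Δ → f (D + Δ) < c * (f (D + Δ) - f D) := hcon
  have hlt : ∀ D, D ≤ c * K * Δ + Δ → f D < f (D + Δ) := by
    intro D hD
    by_contra h
    push Not at h
    have h1 := hcon' D hD
    rw [Nat.sub_eq_zero_of_le h] at h1
    omega
  have hR : ∀ D, D ≤ c * K * Δ + Δ → ((f (D + Δ) : ℕ) : ℝ) < c * ((f (D + Δ) : ℝ) - f D) := by
    intro D hD
    have h1 := hcon' D hD
    have h2 : (((f (D + Δ) : ℕ) : ℝ)) < ((c * (f (D + Δ) - f D) : ℕ) : ℝ) := by exact_mod_cast h1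
    rw [Nat.cast_mul, Nat.cast_sub (hlt D hD).le] at h2
    exact h2
  have hpos : ∀ D, (1 : ℝ) ≤ f D := fun D => by exact_mod_cast hf1 D
  have hc : (1 : ℝ) < c := by
    by_contra h
    push Not at h
    have h1 := hR 0 (Nat.zero_le _)
    have h2 := hpos 0
    have h3 := hpos (0 + Δ)
    have h4 : ((f 0 : ℕ) : ℝ) < f (0 + Δ) := by exact_mod_cast hlt 0 (Nat.zero_le _)
    nlinarith
  set r : ℝ := c / (c - 1) with hr
  have hc1 : (0 : ℝ) < c - 1 := by linarith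
  have hr1 : 1 < r := by
    rw [hr, lt_div_iff₀ hc1]
    linarith
  have hstep : ∀ D, D ≤ c * K * Δ + Δ → r * f D ≤ f (D + Δ) := by
    intro D hD
    rw [hr, div_mul_eq_mul_div, div_le_iff₀ hc1]
    have := hR D hD
    nlinarith
  have hgrow : ∀ j : ℕ, j ≤ c * K → r ^ j ≤ f (j * Δ) := by
    intro j
    induction j with
    | zero => intro _; simpa using hpos 0
    | succ j ih =>
      intro hj
      calc r ^ (j + 1) = r * r ^ j := by ring
        _ ≤ r * f (j * Δ) := mul_le_mul_of_nonneg_left (ih (by omega)) (by linarith)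
        _ ≤ f (j * Δ + Δ) := hstep _ (by
            have := Nat.mul_le_mul_right Δ (show j ≤ c * K by omega)
            omega)
        _ = f ((j + 1) * Δ) := by rw [add_mul, one_mul]
  have h1 := hgrow (c * K) le_rfl
  have h2 : (2 : ℝ) ≤ r ^ c := by
    have h3 : r = 1 + 1 / (c - 1) := by rw [hr]; field_simp; ring
    have h4 := one_add_mul_le_pow (show (-2 : ℝ) ≤ 1 / (c - 1) by
      have : (0 : ℝ) ≤ 1 / (c - 1) := by positivity
      linarith) c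
    rw [← h3] at h4
    refine le_trans ?_ h4
    have h5 : (1 : ℝ) ≤ c * (1 / (c - 1)) := by
      rw [mul_one_div, le_div_iff₀ hc1]
      linarith
    linarith
  have h3 : (2 : ℝ) ^ K ≤ r ^ (c * K) := by
    rw [pow_mul]
    exact pow_le_pow_left₀ (by norm_num) h2 _
  have h4 : (f (c * K * Δ) : ℝ) ≤ ((c * K * Δ + 1 : ℕ) : ℝ) ^ (2 * n) := by
    have h6 : 1 ≤ c * K * Δ := Nat.mul_pos (Nat.mul_pos hc0 (by omega)) hΔ0
    have h7 : c * K * Δ + 2 ≤ (c * K * Δ + 1) ^ 2 := by nlinarith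
    have h8 : f (c * K * Δ) ≤ (c * K * Δ + 1) ^ (2 * n) := by
      rw [pow_mul]
      exact (hf2 _).trans (Nat.pow_le_pow_left h7 _)
    exact_mod_cast h8
  have h5 : (((c * K * Δ + 1 : ℕ) : ℝ)) ^ (2 * n) < 2 ^ K := by exact_mod_cast aux_grow c (2 * n) Δ
  linarith

variable {n : ℕ} {Q : Polynomial ℚ}

/-- **the data for the hypergeometric family, without shifts** -/
theorem pack0 (hQ : QD n Q) (hH : ∀ i j, SDc (Hp n Q i j)) : ∃ (q₀ : ℕ) (Eb : ℕ → ℕ) (T : Polynomial ℤ) (d : ℕ)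
    (K : Matrix (Fin n) (Fin n) ℤ), IK n Q d K ∧ PB Eb ∧
    (∀ x : ℂ, x ≠ 0 → ‖x‖ < 1 → Polynomial.aeval x T ≠ 0) ∧
    ∀ δ : ℕ, ∃ (B : Finset (Fin δ → Option (Fin (n * n)))) (a : ℤ) (M : (Fin δ → Option (Fin (n * n))) → B → ℤ), a ≠ 0 ∧
      (fun _ => none) ∈ B ∧ B.card ≤ Eb δ ∧
      (∀ w, MvPolynomial.C a * ∏ i, uu K (w i) = ∑ b, MvPolynomial.C (M w b) * ∏ i, uu K (b.1 i)) ∧
      (∀ c : B → ℚ, ∑ b, MvPolynomial.C (c b) * MvPolynomial.map (Int.castRingHom ℚ) (∏ i, uu K (b.1 i)) = 0 →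
        ∀ b, c b = 0) ∧
      GSys q₀ ((2 : ℝ) ^ Eb δ) T (fun b : B => yw (hf n Q) b.1) ∧
      LinearIndependent (Polynomial ℚ) (fun b : B => yw (hf n Q) b.1) := by
  classical
  obtain ⟨d, K, hK⟩ := exists_IK n Q
  obtain ⟨D', b', hD', hb'⟩ := exists_b n Q
  obtain ⟨q, Cg, hG0⟩ := gsys_Hp hQ hH hb'
  have hG : GSys q Cg (Polynomial.X * T1 D') (hf n Q) := hG0.reindex (ix n)
  have huu : MvPolynomial.eval (fun _ => (0 : ℤ)) (uu K none) ≠ 0 := by
    have hD := (uu_at K (MvPolynomial.eval (fun _ : Sx n => (0 : ℤ)))).1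
    rw [hD]
    have h3 : (fun p : Sx n => MvPolynomial.eval (fun _ : Sx n => (0 : ℤ)) (MvPolynomial.X p)) = fun _ : Sx n => (0 : ℤ) := by
      funext p
      rw [MvPolynomial.eval_X]
    have h4 : (sy fun _ : Sx n => (0 : ℤ)) = 0 := by
      ext i j
      unfold sy
      rw [Matrix.of_apply]
      split_ifs <;> rfl
    rw [h3]
    unfold cD
    rw [h4, mul_zero, sub_zero, Matrix.det_one]
    exact one_ne_zero
  obtain ⟨E, hE, hbas⟩ := bas (uu K) none huu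
  have hC := hG.one_le
  obtain ⟨c₀, hc₀⟩ : ∃ c₀ : ℕ, Cg ≤ 2 ^ c₀ := by
    obtain ⟨c₀, hc₀⟩ := pow_unbounded_of_one_lt Cg (show (1 : ℝ) < 2 by norm_num)
    exact ⟨c₀, hc₀.le⟩
  set r := n * n with hr
  refine ⟨q, fun δ => 2 * E δ + ((r + 1) * δ + ((q + 1 + c₀) * δ + c₀)), Polynomial.X * T1 D', d, K, hK,
    ((PB.const 2).mul hE).add (((PB.const (r + 1)).mul PB.id).add (((PB.const (q + 1 + c₀)).mul PB.id).add (PB.const c₀))),
    fun x hx0 hx1 => ?_, fun δ => ?_⟩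
  · unfold T1
    rw [map_mul, map_mul, Polynomial.aeval_X, Polynomial.aeval_C, map_sub, map_one, Polynomial.aeval_X]
    refine mul_ne_zero hx0 (mul_ne_zero ?_ ?_)
    · simp only [algebraMap_int_eq, eq_intCast, Int.cast_natCast]
      exact_mod_cast hD'
    · intro h
      have h1 : x = 1 := (sub_eq_zero.1 h).symm
      rw [h1, norm_one] at hx1
      exact lt_irrefl _ hx1
  obtain ⟨B, a, M, ha0, h0B, ha, hM, hB, hrel, hli⟩ := hbas δ
  have hps := rel_ps hQ hK hrel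
  refine ⟨B, a, M, ha0, h0B, ?_, hrel, hli, ?_, li_ps hQ hK hli⟩
  · show B.card ≤ 2 * E δ + _
    have h9 : 0 ≤ (r + 1) * δ + ((q + 1 + c₀) * δ + c₀) := Nat.zero_le _
    omega
  · have hw := words r (gsys_opt hG) δ
    have h2e : (1 : ℝ) ≤ 2 ^ E δ := one_le_pow₀ (by norm_num)
    have h1 := quotA (w := fun b : B => yw (hf n Q) b.1) hw (fun b : B => b.1) a ha0 M (fun b => rfl) (fun f => hps f)
      (2 ^ E δ) (2 ^ E δ) (2 ^ ((r + 1) * δ)) (by exact_mod_cast ha) (fun f b => by exact_mod_cast hM f b)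
      h2e (one_le_pow₀ (by norm_num)) (by
        rw [Fintype.card_fun, Fintype.card_option, Fintype.card_fin, Fintype.card_fin]
        have h3 : r + 1 ≤ 2 ^ (r + 1) := (Nat.lt_two_pow_self).le
        have h4 : (r + 1) ^ δ ≤ 2 ^ ((r + 1) * δ) := by
          rw [pow_mul]
          exact Nat.pow_le_pow_left h3 _
        exact_mod_cast h4)
    refine h1.mono le_rfl ?_
    have hC0 : 0 ≤ Cg := by linarith
    calc (2 : ℝ) ^ E δ * (2 ^ ((r + 1) * δ) * 2 ^ E δ * ((2 ^ (q + 1) * Cg) ^ δ * Cg))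
        ≤ (2 : ℝ) ^ E δ * (2 ^ ((r + 1) * δ) * 2 ^ E δ * ((2 ^ (q + 1) * 2 ^ c₀) ^ δ * 2 ^ c₀)) := by gcongr
      _ = 2 ^ (2 * E δ + ((r + 1) * δ + ((q + 1 + c₀) * δ + c₀))) := by
        rw [← pow_add 2 (q + 1) c₀, ← pow_mul, ← pow_add, ← pow_add, ← pow_add, ← pow_add]
        congr 1
        ring

end Pool.Agent.R351.GD.H
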