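import Pool.Agent.R351.GD.H.Alx

/-!
# Hypergeometric functions at algebraic points: the relations over number fields of growing degree
-/

set_option autoImplicit false

open PowerSeries Pool.Agent.Y113 Pool.Agent.Y120.GF Pool.Agent.Y120.GH Pool.Agent.Y119.HZ
open Pool.Agent.Y119.HY (QD Jm cm Hf Hc)
open Pool.Agent.Y916.Al (Pt evc Cvc)

namespace Pool.Agent.R351.GD.H

/-- linear independence over extensions of the rationals -/
theorem li_ext {τ β : Type} [Fintype β] (p : β → MvPolynomial τ ℤ)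
    (h : ∀ c : β → ℚ, ∑ b, MvPolynomial.C (c b) * MvPolynomial.map (Int.castRingHom ℚ) (p b) = 0 → ∀ b, c b = 0)
    (F : Type) [Field F] [Algebra ℚ F] (c : β → F)
    (hc : ∑ b, MvPolynomial.C (c b) * MvPolynomial.map (Int.castRingHom F) (p b) = 0) : ∀ b, c b = 0 := by
  intro b
  rw [← Module.forall_dual_apply_eq_zero_iff ℚ (c b)]
  intro φ
  refine h (fun b => φ (c b)) ?_ b
  refine MvPolynomial.ext _ _ fun s => ?_
  have h1 := congrArg (MvPolynomial.coeff s) hc
  rw [MvPolynomial.coeff_sum, MvPolynomial.coeff_zero] at h1 ⊢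
  have h2 : ∀ b, MvPolynomial.coeff s (MvPolynomial.C (c b) * MvPolynomial.map (Int.castRingHom F) (p b)) =
      (((p b).coeff s : ℤ) : ℚ) • c b := by
    intro b
    rw [MvPolynomial.coeff_C_mul, MvPolynomial.coeff_map, Algebra.smul_def, eq_intCast, mul_comm]
    congr 1
    simp
  have h3 : ∀ b, MvPolynomial.coeff s (MvPolynomial.C (φ (c b)) * MvPolynomial.map (Int.castRingHom ℚ) (p b)) =
      (((p b).coeff s : ℤ) : ℚ) • φ (c b) := by
    intro b
    rw [MvPolynomial.coeff_C_mul, MvPolynomial.coeff_map, smul_eq_mul, eq_intCast, mul_comm]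
  rw [Finset.sum_congr rfl fun b _ => h2 b] at h1
  rw [Finset.sum_congr rfl fun b _ => h3 b]
  have h4 := congrArg φ h1
  rw [map_sum, map_zero] at h4
  rw [← h4]
  refine Finset.sum_congr rfl fun b _ => ?_
  rw [map_smul]

section
variable {β R : Type} [CommRing R] {δ D : ℕ}

/-- products over concatenated words -/
theorem prod_app (u : β → R) (f : Fin δ → β) (f' : Fin D → β) :
    ∏ i, u (Fin.append f f' i) = (∏ i, u (f i)) * ∏ i, u (f' i) := by
  rw [Fin.prod_univ_add]
  congr 1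
  · exact Finset.prod_congr rfl fun i _ => by rw [Fin.append_left]
  · exact Finset.prod_congr rfl fun i _ => by rw [Fin.append_right]

/-- the coordinates of the product of a combination with a word -/
def vv {F : Type} [Field F] {B : Finset (Fin δ → β)} {B'' : Finset (Fin (δ + D) → β)} (M : (Fin (δ + D) → β) → B'' → ℤ)
    (Γ : B → F) (f' : Fin D → β) (b'' : B'') : F := ∑ b : B, Γ b * ((M (Fin.append b.1 f') b'' : ℤ) : F)

theorem vv_eq {F : Type} [Field F] (i : F →+* R) {B : Finset (Fin δ → β)} {B'' : Finset (Fin (δ + D) → β)}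
    (M : (Fin (δ + D) → β) → B'' → ℤ) (a : ℤ) (Γ : B → F) (f' : Fin D → β) (u : β → R)
    (hu : ∀ w : Fin (δ + D) → β, (a : R) * ∏ i, u (w i) = ∑ b, (M w b : R) * ∏ i, u (b.1 i)) :
    ∑ b'', i (vv M Γ f' b'') * ∏ j, u (b''.1 j) = (a : R) * (∑ b : B, i (Γ b) * ∏ j, u (b.1 j)) * ∏ j, u (f' j) := by
  unfold vv
  simp only [map_sum, map_mul, map_intCast, Finset.sum_mul, Finset.mul_sum]
  rw [Finset.sum_comm]
  refine Finset.sum_congr rfl fun b _ => ?_
  have h1 := hu (Fin.append b.1 f')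
  rw [prod_app] at h1
  calc ∑ x, i (Γ b) * ((M (Fin.append b.1 f') x : ℤ) : R) * ∏ j, u (x.1 j) =
      i (Γ b) * ∑ x, ((M (Fin.append b.1 f') x : ℤ) : R) * ∏ j, u (x.1 j) := by
        rw [Finset.mul_sum]
        exact Finset.sum_congr rfl fun x _ => by ring
    _ = i (Γ b) * ((a : R) * ((∏ j, u (b.1 j)) * ∏ j, u (f' j))) := by rw [← h1]
    _ = _ := by ring

end

/-- independence of the relations -/
theorem vv_li {τ β : Type} {δ D : ℕ} (u : β → MvPolynomial τ ℤ) (F : Type) [Field F] [Algebra ℚ F]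
    {B : Finset (Fin δ → β)} {B' : Finset (Fin D → β)} {B'' : Finset (Fin (δ + D) → β)}
    (hB : ∀ c : B → ℚ, ∑ b, MvPolynomial.C (c b) * MvPolynomial.map (Int.castRingHom ℚ) (∏ i, u (b.1 i)) = 0 → ∀ b, c b = 0)
    (hB' : ∀ c : B' → ℚ, ∑ b, MvPolynomial.C (c b) * MvPolynomial.map (Int.castRingHom ℚ) (∏ i, u (b.1 i)) = 0 →
      ∀ b, c b = 0)
    (M : (Fin (δ + D) → β) → B'' → ℤ) (a : ℤ) (ha : a ≠ 0)
    (hrel : ∀ w, MvPolynomial.C a * ∏ i, u (w i) = ∑ b, MvPolynomial.C (M w b) * ∏ i, u (b.1 i))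
    (Γ : B → F) (b₀ : B) (hb₀ : Γ b₀ ≠ 0) : LinearIndependent F (fun (b' : B') (b'' : B'') => vv M Γ b'.1 b'') := by
  classical
  rw [Fintype.linearIndependent_iff]
  intro γ hγ
  have h0 : ∀ b'', ∑ b' : B', γ b' * vv M Γ b'.1 b'' = 0 := by
    intro b''
    have := congrFun hγ b''
    rw [Finset.sum_apply] at this
    simpa using this
  set û : β → MvPolynomial τ F := fun o => MvPolynomial.map (Int.castRingHom F) (u o) with hû
  have hprod : ∀ {k : ℕ} (w : Fin k → β), ∏ i, û (w i) = MvPolynomial.map (Int.castRingHom F) (∏ i, u (w i)) := by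
    intro k w
    rw [map_prod]
  have hCi : ∀ z : ℤ, MvPolynomial.map (Int.castRingHom F) (MvPolynomial.C z : MvPolynomial τ ℤ) =
      ((z : ℤ) : MvPolynomial τ F) := by
    intro z
    rw [MvPolynomial.map_C, eq_intCast, map_intCast]
  have hu' : ∀ w : Fin (δ + D) → β, (a : MvPolynomial τ F) * ∏ i, û (w i) =
      ∑ b, (M w b : MvPolynomial τ F) * ∏ i, û (b.1 i) := by
    intro w
    have h1 := congrArg (MvPolynomial.map (Int.castRingHom F)) (hrel w)
    rw [map_mul, hCi, map_sum, ← hprod] at h1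
    rw [h1]
    refine Finset.sum_congr rfl fun b _ => ?_
    rw [map_mul, hCi, ← hprod]
  set P : MvPolynomial τ F := ∑ b : B, MvPolynomial.C (Γ b) * ∏ j, û (b.1 j) with hP
  have hP0 : P ≠ 0 := by
    intro h
    refine hb₀ (li_ext (fun b : B => ∏ i, u (b.1 i)) hB F Γ ?_ b₀)
    rw [← h, hP]
    exact Finset.sum_congr rfl fun b _ => by rw [hprod]
  have h1 : (a : MvPolynomial τ F) * P * ∑ b' : B', MvPolynomial.C (γ b') * ∏ j, û (b'.1 j) = 0 := by
    have h2 : ∀ b' : B', (a : MvPolynomial τ F) * P * (MvPolynomial.C (γ b') * ∏ j, û (b'.1 j)) =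
        ∑ b'' : B'', MvPolynomial.C (γ b' * vv M Γ b'.1 b'') * ∏ j, û (b''.1 j) := by
      intro b'
      have h3 := vv_eq (MvPolynomial.C : F →+* MvPolynomial τ F) M a Γ b'.1 û hu'
      calc (a : MvPolynomial τ F) * P * (MvPolynomial.C (γ b') * ∏ j, û (b'.1 j)) =
          MvPolynomial.C (γ b') * ((a : MvPolynomial τ F) * P * ∏ j, û (b'.1 j)) := by ring
        _ = _ := by
          rw [← h3, Finset.mul_sum]
          refine Finset.sum_congr rfl fun b'' _ => ?_
          rw [map_mul]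
          ring
    rw [Finset.mul_sum, Finset.sum_congr rfl fun b' _ => h2 b', Finset.sum_comm]
    refine Finset.sum_eq_zero fun b'' _ => ?_
    rw [← Finset.sum_mul, ← map_sum, h0, map_zero, zero_mul]
  have haF : (a : MvPolynomial τ F) ≠ 0 := by
    have h2 : (a : MvPolynomial τ F) = MvPolynomial.C ((a : ℤ) : F) := by rw [map_intCast]
    rw [h2, Ne, MvPolynomial.C_eq_zero]
    have : CharZero F := algebraRat.charZero F
    exact_mod_cast ha
  have h4 := (mul_eq_zero.1 h1).resolve_left (mul_ne_zero haF hP0)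
  refine li_ext (fun b : B' => ∏ i, u (b.1 i)) hB' F γ ?_
  rw [← h4]
  exact Finset.sum_congr rfl fun b _ => by rw [hprod]

end Pool.Agent.R351.GD.H
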