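import Pool.Agent.R351.GD.H.Alx2

/-!
# Hypergeometric functions at algebraic points: the relations over number fields of growing degree, main theorem
-/

set_option autoImplicit false

open PowerSeries Pool.Agent.Y113 Pool.Agent.Y120.GF Pool.Agent.Y120.GH Pool.Agent.Y119.HZ
open Pool.Agent.Y119.HY (QD Jm cm Hf Hc)
open Pool.Agent.Y916.Al (Pt evc Cvc)

namespace Pool.Agent.R351.GD.H

variable {n : ℕ} {Q : Polynomial ℚ}

/-- expansion of a polynomial over a number field on the group -/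
theorem expF (hQ : QD n Q) {d : ℕ} {KI : Matrix (Fin n) (Fin n) ℤ} (hK : IK n Q d KI) {s : ℕ}
    {B : Finset (Fin s → Option (Fin (n * n)))} {a : ℤ} {M : (Fin s → Option (Fin (n * n))) → B → ℤ}
    (hrel : ∀ w, MvPolynomial.C a * ∏ i, uu KI (w i) = ∑ b, MvPolynomial.C (M w b) * ∏ i, uu KI (b.1 i))
    (K : IntermediateField ℚ ℂ) (P : MvPolynomial (Fin n × Fin n) K) (hP : P.totalDegree ≤ s) :
    ∃ Γ : B → K, ∀ g : Matrix (Fin n) (Fin n) ℂ, g.transpose * cm (Jm n Q) * g = cm (Jm n Q) →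
      (a : ℂ) * MvPolynomial.aeval (fun p => g p.1 p.2) P = ∑ b, ((Γ b : K) : ℂ) * yw (en g) b.1 := by
  classical
  set P' : MvPolynomial (Fin (n * n)) K := MvPolynomial.rename (Pool.Agent.Y119.HZ.ix n).symm P with hP'
  have hP'd : P'.totalDegree ≤ s := (MvPolynomial.totalDegree_rename_le _ _).trans hP
  have hev : ∀ g : Matrix (Fin n) (Fin n) ℂ, MvPolynomial.aeval (en g) P' = MvPolynomial.aeval (fun p => g p.1 p.2) P := by
    intro g
    rw [hP', MvPolynomial.aeval_rename]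
    congr 2
    funext p
    show g (Pool.Agent.Y119.HZ.ix n ((Pool.Agent.Y119.HZ.ix n).symm p)).1 (Pool.Agent.Y119.HZ.ix n ((Pool.Agent.Y119.HZ.ix n).symm p)).2 = g p.1 p.2
    rw [Equiv.apply_symm_apply]
  have hw : ∀ e : P'.support, ∃ f : Fin s → Option (Fin (n * n)), ∀ z : Fin (n * n) → ℂ,
      yw z f = ∏ i, z i ^ (e : Fin (n * n) →₀ ℕ) i := by
    intro e
    refine word_c (n * n) s _ ?_
    have h1 := (MvPolynomial.le_totalDegree e.2).trans hP'd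
    rwa [Finsupp.sum_fintype _ _ (fun _ => rfl)] at h1
  choose f hf using hw
  refine ⟨fun b => ∑ e : P'.support, P'.coeff e * ((M (f e) b : ℤ) : K), fun g hg => ?_⟩
  rw [← hev, MvPolynomial.aeval_def, MvPolynomial.eval₂_eq', ← Finset.sum_coe_sort P'.support]
  have h3 : ∀ e : P'.support, (a : ℂ) * (algebraMap K ℂ (P'.coeff e) * ∏ i, en g i ^ (e : Fin (n * n) →₀ ℕ) i) =
      ∑ b, ((P'.coeff e * ((M (f e) b : ℤ) : K) : K) : ℂ) * yw (en g) b.1 := by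
    intro e
    rw [← hf e (en g)]
    have h4 := rel_sp hQ hK hrel hg (f e)
    have h5 : (a : ℂ) * yw (en g) (f e) = ∑ b, (M (f e) b : ℂ) * yw (en g) b.1 := h4
    calc (a : ℂ) * (algebraMap K ℂ (P'.coeff e) * yw (en g) (f e)) =
        algebraMap K ℂ (P'.coeff e) * ((a : ℂ) * yw (en g) (f e)) := by ring
      _ = _ := by
        rw [h5, Finset.mul_sum]
        refine Finset.sum_congr rfl fun b _ => ?_
        have h6 : algebraMap K ℂ (P'.coeff e) = ((P'.coeff e : K) : ℂ) := rfl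
        rw [h6]
        push_cast
        ring
  rw [Finset.mul_sum, Finset.sum_congr rfl fun e _ => h3 e, Finset.sum_comm]
  refine Finset.sum_congr rfl fun b _ => ?_
  rw [← Finset.sum_mul]
  congr 1
  push_cast
  rfl

/-- **all relations of growing degree over number fields of growing degree hold on the group** -/
theorem nrelF (hQ : QD n Q) (hH : ∀ i j, SDc (Hp n Q i j)) : ∃ E : ℕ → ℕ, PB E ∧
    ∀ (s m A : ℕ), m ≤ s → 2 * A * m ≤ s → ∀ (K : IntermediateField ℚ ℂ) (x : K) (X : ℝ), FiniteDimensional ℚ K →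
    Module.finrank ℚ K ≤ m → x ≠ 0 → Pt K x X → ‖(x : ℂ)‖ * 2 ^ E s ≤ 1 → X * ‖(x : ℂ)‖ ^ A ≤ 1 →
    ∀ P : MvPolynomial (Fin n × Fin n) K, P.totalDegree ≤ s →
    MvPolynomial.aeval (fun p => Hf (Hc n Q) (x : ℂ) p.1 p.2) P = 0 →
    ∀ g : Matrix (Fin n) (Fin n) ℂ, g.transpose * cm (Jm n Q) * g = cm (Jm n Q) →
      MvPolynomial.aeval (fun p => g p.1 p.2) P = 0 := by
  classical
  obtain ⟨q₀, Eb, T, d, KI, hK, ⟨Cb, hCb⟩, hT, hpk⟩ := pack0 hQ hH
  choose B a M ha h0B hB hrel hli hsys hLI using hpk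
  obtain ⟨E₂, ⟨C₂, hC₂⟩, hE₂⟩ := gk2 q₀
  obtain ⟨C₁, hC₁, hs, -⟩ := Pool.Agent.Y119.HY.SDc.unif (y := fun p : Fin n × Fin n => Hp n Q p.1 p.2) fun p => hH p.1 p.2
  obtain ⟨c₁, hc₁⟩ : ∃ c₁ : ℕ, C₁ < 2 ^ c₁ := pow_unbounded_of_one_lt C₁ (by norm_num)
  set Dm : ℕ → ℕ := fun s => s * (4 * (2 * Cb) * (s * s + 2 * Cb + 2) ^ 2 + 1) * s + s with hDm
  set Nb : ℕ → ℕ := fun s => (Dm s + s + 2) ^ Cb with hNb
  have hDmp : PB Dm := by
    have h1 : PB fun s : ℕ => s * s + 2 * Cb + 2 := ((PB.id.mul PB.id).add (PB.const (2 * Cb))).add (PB.const 2)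
    exact ((PB.id.mul (((PB.const (4 * (2 * Cb))).mul (h1.pow 2)).add (PB.const 1))).mul PB.id).add PB.id
  have hNbp : PB Nb := ((hDmp.add PB.id).add (PB.const 2)).pow Cb
  refine ⟨fun s => (Nb s + 1) * ((Nb s + 2) ^ C₂ * (s + 1)) + (c₁ + 1),
    ((hNbp.add (PB.const 1)).mul (((hNbp.add (PB.const 2)).pow C₂).mul (PB.id.add (PB.const 1)))).add (PB.const _), ?_⟩
  intro s m A hm hA K x X hfd hrk hx0 hPt hxE hXA P hP hP0 g hg
  have hxE : ‖(x : ℂ)‖ * 2 ^ ((Nb s + 1) * ((Nb s + 2) ^ C₂ * (s + 1)) + (c₁ + 1)) ≤ 1 := hxE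
  by_contra hne
  have hxR : ∀ k, k ≤ (Nb s + 1) * ((Nb s + 2) ^ C₂ * (s + 1)) + (c₁ + 1) → ‖(x : ℂ)‖ * 2 ^ k ≤ 1 := fun k hk =>
    (mul_le_mul_of_nonneg_left (pow_le_pow_right₀ (by norm_num) hk) (norm_nonneg _)).trans hxE
  have hxp : 0 < ‖(x : ℂ)‖ := by
    rw [norm_pos_iff]
    exact_mod_cast hx0
  have hx1 : ‖(x : ℂ)‖ < 1 := by
    have h1 := hxR 1 (by omega)
    linarith
  have hxC : C₁ * ‖(x : ℂ)‖ < 1 := by
    have h1 := hxR (c₁ + 1) (by omega)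
    rw [pow_succ] at h1
    have h2 : C₁ * ‖(x : ℂ)‖ ≤ 2 ^ c₁ * ‖(x : ℂ)‖ := mul_le_mul_of_nonneg_right hc₁.le hxp.le
    nlinarith [pow_pos (show (0 : ℝ) < 2 by norm_num) c₁]
  have hC0 : (0 : ℝ) ≤ C₁ := by linarith
  -- the degree of the multipliers
  obtain ⟨D, hD, hgr⟩ := grow Cb s s (fun D => (B D).card) (fun D => Finset.card_pos.2 ⟨_, h0B D⟩)
    (fun D => (hB D).trans (hCb D))
  have hD : D ≤ Dm s := hD
  have hgr : s * ((B (D + s)).card - (B D).card) ≤ (B (D + s)).card := hgr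
  rw [Nat.add_comm D s] at hgr
  have hN : (B (s + D)).card ≤ Nb s := by
    refine (hB _).trans ((hCb _).trans (Nat.pow_le_pow_left ?_ _))
    omega
  have hEbN : Eb (s + D) ≤ Nb s := by
    refine (hCb _).trans (Nat.pow_le_pow_left ?_ _)
    omega
  -- the coordinates of the relation
  obtain ⟨Γ, hΓ⟩ := expF hQ hK (hrel s) K P hP
  set Z := Hf (Hc n Q) (x : ℂ) with hZ
  have hZg : Z.transpose * cm (Jm n Q) * Z = cm (Jm n Q) := Pool.Agent.Y119.HA.form_c hQ hx1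
  have hΓZ : ∑ b, ((Γ b : K) : ℂ) * yw (en Z) b.1 = 0 := by
    rw [← hΓ Z hZg, hP0, mul_zero]
  obtain ⟨b₀, hb₀⟩ : ∃ b₀, Γ b₀ ≠ 0 := by
    by_contra hcon
    push Not at hcon
    have h1 := hΓ g hg
    rw [Finset.sum_eq_zero fun b _ => by rw [hcon b]; simp] at h1
    rcases mul_eq_zero.1 h1 with h2 | h2
    · exact ha s (by exact_mod_cast h2)
    · exact hne h2
  have hvli := vv_li (uu KI) K (hli s) (hli D) (M (s + D)) (a (s + D)) (ha _) (hrel _) Γ b₀ hb₀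
  -- the values
  have hcv : ∀ o : Option (Fin (n * n)), Cvc (x : ℂ) (o.elim 1 (hf n Q)) ∧
      evc (x : ℂ) (o.elim 1 (hf n Q)) = o.elim 1 (en Z) := by
    rintro (_ | j)
    · exact ⟨Cvc.one, Pool.Agent.Y916.Al.ev_one⟩
    · refine ⟨?_, Pool.Agent.Y119.HA.evc_hf (x : ℂ) j⟩
      show Cvc (x : ℂ) (hf n Q j)
      refine Cvc.of_bound (A := C₁) (B := C₁) hC0 hxC fun k => ?_
      have h1 := hs (Pool.Agent.Y119.HZ.ix n j) k
      rw [pow_succ'] at h1
      rw [Complex.norm_ratCast]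
      exact h1
  have hval : ∀ {k : ℕ} (w : Fin k → Option (Fin (n * n))), evc (x : ℂ) (yw (hf n Q) w) = yw (en Z) w := by
    intro k w
    unfold yw
    rw [Cvc.ev_prod _ _ fun i _ => (hcv (w i)).1]
    exact Finset.prod_congr rfl fun i _ => (hcv (w i)).2
  -- enumeration
  let eqv : Fin (B (s + D)).card ≃ B (s + D) := (B (s + D)).equivFin.symm
  let eqv' : Fin (B D).card ≃ B D := (B D).equivFin.symm
  refine hE₂ m A (B (s + D)).card ((2 : ℝ) ^ Eb (s + D)) T (fun j => yw (hf n Q) (eqv j).1)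
    (eqv.symm ⟨fun _ => none, h0B _⟩) K x X hfd hrk hx0 hPt ((hsys (s + D)).reindex eqv) ?_ ?_ ?_ hXA
    (hT _ (by exact_mod_cast hx0) hx1) (B D).card
    (fun r j => vv (M (s + D)) Γ (eqv' r).1 (eqv j)) ?_ ?_ ?_
  · show yw (hf n Q) (eqv (eqv.symm ⟨fun _ => none, h0B _⟩)).1 = 1
    rw [Equiv.apply_symm_apply]
    unfold yw
    exact Finset.prod_eq_one fun i _ => rfl
  · exact (hLI (s + D)).comp _ eqv.injective
  · have h1 : (2 * (2 : ℝ) ^ Eb (s + D)) ^ (E₂ (B (s + D)).card * (m + 1)) ≤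
        2 ^ ((Nb s + 1) * ((Nb s + 2) ^ C₂ * (s + 1))) := by
      rw [← pow_succ', ← pow_mul]
      refine pow_le_pow_right₀ (by norm_num) ?_
      refine Nat.mul_le_mul (by omega) (Nat.mul_le_mul ?_ (by omega))
      exact (hC₂ _).trans (Nat.pow_le_pow_left (by omega) _)
    exact (mul_le_mul_of_nonneg_left h1 (norm_nonneg _)).trans (hxR _ (Nat.le_add_right _ _))
  · have h1 := hvli.comp _ eqv'.injective
    exact h1.map' (LinearEquiv.funCongrLeft K K eqv).toLinearMap (LinearEquiv.ker _)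
  · intro r
    have h1 := vv_eq (algebraMap K ℂ) (M (s + D)) (a (s + D)) Γ (eqv' r).1 (fun o : Option (Fin (n * n)) => o.elim 1 (en Z))
      (fun w => rel_sp hQ hK (hrel (s + D)) hZg w)
    have h2 : (∑ b : B s, algebraMap K ℂ (Γ b) * ∏ j, (fun o : Option (Fin (n * n)) => o.elim 1 (en Z)) (b.1 j)) = 0 := hΓZ
    rw [h2, mul_zero, zero_mul] at h1
    rw [Equiv.sum_comp eqv (fun b => ((vv (M (s + D)) Γ (eqv' r).1 b : K) : ℂ) * evc (x : ℂ) (yw (hf n Q) b.1))]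
    rw [← h1]
    refine Finset.sum_congr rfl fun b _ => ?_
    rw [hval]
    rfl
  · refine le_trans (Nat.mul_le_mul_right _ hA) hgr

end Pool.Agent.R351.GD.H
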