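import Mathlib
import Pool.Agent.R351.GD.PB

/-!
# Bases of the products of `δ` polynomials of a finite family, with bounded integral coordinates
-/

set_option autoImplicit false

open Matrix

namespace Pool.Agent.R351.GD.H

/-- a subfamily of integral vectors which is a basis of the span, with bounded coordinates -/
theorem gram {W G : Type} [Fintype W] [Fintype G] (V : W → G → ℤ) (L : ℕ) (hL1 : 1 ≤ L)
    (hV : ∀ w g, |V w g| ≤ L) (w₀ : W) (g₀ : G) (hw₀ : V w₀ g₀ ≠ 0) :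
    ∃ (B : Finset W) (a : ℤ) (M : W → B → ℤ), a ≠ 0 ∧ w₀ ∈ B ∧ B.card ≤ Fintype.card G ∧
      |a| ≤ (((Fintype.card G + 1) ^ 2 * L ^ 2) ^ (Fintype.card G + 1) : ℕ) ∧
      (∀ w b, |M w b| ≤ (((Fintype.card G + 1) ^ 2 * L ^ 2) ^ (Fintype.card G + 1) : ℕ)) ∧
      (∀ w g, a * V w g = ∑ b, M w b * V b g) ∧
      LinearIndependent ℚ (fun b : B => fun g => (V b g : ℚ)) := by
  classical
  have hs0 : LinearIndepOn ℚ (fun w => fun g => (V w g : ℚ)) {w₀} := by
    refine LinearIndepOn.singleton fun h0 => hw₀ ?_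
    have := congrFun h0 g₀
    simpa using this
  obtain ⟨b, -, hwb, hsp, hli⟩ := exists_linearIndepOn_extension hs0 (Set.subset_univ _)
  set B : Finset W := Finset.univ.filter (· ∈ b) with hB
  have hBb : ∀ x : B, (x : W) ∈ b := fun x => (Finset.mem_filter.1 x.2).2
  have hLI : LinearIndependent ℚ (fun b : B => fun g => (V b g : ℚ)) := by
    have h1 : LinearIndependent ℚ (fun x : b => fun g => (V x g : ℚ)) := hli
    exact h1.comp (fun x : B => (⟨x, hBb x⟩ : b)) fun x y h => Subtype.ext (by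
      have h2 := congrArg (fun z : b => (z : W)) h
      exact h2)
  have hspB : ∀ w, (fun g => (V w g : ℚ)) ∈ Submodule.span ℚ (Set.range (fun b : B => fun g => (V b g : ℚ))) := by
    intro w
    have h1 := hsp ⟨w, Set.mem_univ w, rfl⟩
    refine Submodule.span_mono ?_ h1
    rintro _ ⟨x, hx, rfl⟩
    exact ⟨⟨x, Finset.mem_filter.2 ⟨Finset.mem_univ _, hx⟩⟩, rfl⟩
  have hcard : B.card ≤ Fintype.card G := by
    have h1 := hLI.fintype_card_le_finrank
    rwa [Module.finrank_fintype_fun_eq_card, Fintype.card_coe] at h1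
  choose c hc using fun w => (Submodule.mem_span_range_iff_exists_fun ℚ).1 (hspB w)
  -- the matrices
  set VB : Matrix B G ℤ := Matrix.of fun b g => V b g with hVB
  set Gm : Matrix B B ℤ := VB * VBᵀ with hGm
  set VQ : Matrix B G ℚ := Matrix.of fun b g => (V b g : ℚ) with hVQ
  have hGQ : Gm.map (Int.castRingHom ℚ) = VQ * VQᵀ := by
    rw [hGm, Matrix.map_mul]
    congr 1
  have hcw : ∀ w, VQᵀ *ᵥ c w = fun g => (V w g : ℚ) := by
    intro w
    rw [← hc w]
    funext g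
    rw [mulVec, dotProduct, Finset.sum_apply]
    refine Finset.sum_congr rfl fun b _ => ?_
    rw [Pi.smul_apply, smul_eq_mul, transpose_apply, hVQ, of_apply]
    ring
  have hdet : Gm.det ≠ 0 := by
    intro h0
    have h1 : (VQ * VQᵀ).det = 0 := by
      rw [← hGQ]
      have := (RingHom.map_det (Int.castRingHom ℚ) Gm).symm
      rw [h0, map_zero] at this
      exact this
    obtain ⟨v, hv0, hv⟩ := Matrix.exists_mulVec_eq_zero_iff.2 h1
    have h2 : (VQᵀ *ᵥ v) ⬝ᵥ (VQᵀ *ᵥ v) = 0 := by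
      have h3 : v ⬝ᵥ ((VQ * VQᵀ) *ᵥ v) = 0 := by rw [hv, dotProduct_zero]
      rw [← mulVec_mulVec, dotProduct_mulVec] at h3
      have h4 : v ᵥ* VQ = VQᵀ *ᵥ v := by rw [mulVec_transpose]
      rwa [h4] at h3
    have h3 := dotProduct_self_eq_zero.1 h2
    have h4 := Fintype.linearIndependent_iff.1 hLI v (by
      rw [← h3]
      funext g
      rw [mulVec, dotProduct, Finset.sum_apply]
      refine Finset.sum_congr rfl fun b _ => ?_
      rw [Pi.smul_apply, smul_eq_mul, transpose_apply, hVQ, of_apply]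
      ring)
    exact hv0 (funext h4)
  set M : W → B → ℤ := fun w => Gm.adjugate *ᵥ (VB *ᵥ V w) with hM
  have hMq : ∀ w, (fun b => ((M w b : ℤ) : ℚ)) = ((Gm.det : ℤ) : ℚ) • c w := by
    intro w
    have h1 : (fun b => ((M w b : ℤ) : ℚ)) = (Gm.map (Int.castRingHom ℚ)).adjugate *ᵥ (VQ *ᵥ fun g => (V w g : ℚ)) := by
      have h2 : (Gm.map (Int.castRingHom ℚ)).adjugate = Gm.adjugate.map (Int.castRingHom ℚ) :=
        (RingHom.map_adjugate (Int.castRingHom ℚ) Gm).symm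
      rw [h2]
      funext b
      rw [hM]
      simp only [mulVec, dotProduct, map_apply, eq_intCast]
      push_cast
      rfl
    have h4 : VQ *ᵥ (VQᵀ *ᵥ c w) = (Gm.map (Int.castRingHom ℚ)) *ᵥ c w := by rw [mulVec_mulVec, hGQ]
    rw [h1, ← hcw w, h4, mulVec_mulVec, adjugate_mul]
    have h3 : (Gm.map (Int.castRingHom ℚ)).det = (Gm.det : ℚ) := (RingHom.map_det (Int.castRingHom ℚ) Gm).symm
    rw [h3, smul_mulVec, one_mulVec]
  obtain ⟨a, had⟩ : ∃ a : ℤ, a = Gm.det := ⟨_, rfl⟩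
  rw [← had] at hdet hMq
  have hrel : ∀ w g, a * V w g = ∑ b, M w b * V b g := by
    intro w g
    have h1 : ((a * V w g : ℤ) : ℚ) = ((∑ b, M w b * V b g : ℤ) : ℚ) := by
      have h2 := congrFun (hcw w) g
      rw [mulVec, dotProduct] at h2
      push_cast
      rw [← h2, Finset.mul_sum]
      refine Finset.sum_congr rfl fun b _ => ?_
      have h3 := congrFun (hMq w) b
      simp only [Pi.smul_apply, smul_eq_mul] at h3
      rw [h3, transpose_apply, hVQ, of_apply]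
      ring
    exact_mod_cast h1
  -- the bounds
  set N := Fintype.card G with hN
  have hG1 : ∀ b b', |Gm b b'| ≤ (N + 1) * L ^ 2 := by
    intro b b'
    rw [hGm, mul_apply]
    refine (Finset.abs_sum_le_sum_abs _ _).trans ?_
    refine (Finset.sum_le_card_nsmul _ _ ((L : ℤ) ^ 2) fun g _ => ?_).trans ?_
    · rw [abs_mul, transpose_apply, hVB, of_apply, of_apply, sq]
      exact mul_le_mul (hV _ _) (hV _ _) (abs_nonneg _) (by positivity)
    · rw [Finset.card_univ, ← hN, nsmul_eq_mul]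
      nlinarith [sq_nonneg (L : ℤ)]
  have hY1 : (1 : ℤ) ≤ (N + 1) * L ^ 2 := by
    have h1 : (1 : ℤ) ≤ (L : ℤ) ^ 2 := one_le_pow₀ (by exact_mod_cast hL1)
    nlinarith [show (0 : ℤ) ≤ N by positivity]
  have hD : ∀ A : Matrix B B ℤ, (∀ b b', |A b b'| ≤ (N + 1) * L ^ 2) →
      |A.det| ≤ (N + 1) ^ N * ((N + 1) * L ^ 2) ^ N := by
    intro A hA
    have h1 := Matrix.det_le (abv := AbsoluteValue.abs) (A := A) (x := ((N : ℤ) + 1) * L ^ 2) hA
    rw [AbsoluteValue.abs_apply, nsmul_eq_mul, Fintype.card_coe] at h1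
    refine h1.trans (mul_le_mul ?_ (pow_le_pow_right₀ hY1 hcard) (by positivity) (by positivity))
    have h2 : (B.card).factorial ≤ (N + 1) ^ N := by
      refine (Nat.factorial_le_pow _).trans ?_
      refine (Nat.pow_le_pow_left (hcard.trans (Nat.le_succ N)) _).trans ?_
      exact Nat.pow_le_pow_right (by omega) hcard
    exact_mod_cast h2
  have hN1 : (1 : ℤ) ≤ N + 1 := by omega
  have hXeq : ((((N + 1) ^ 2 * L ^ 2) ^ (N + 1) : ℕ) : ℤ) =
      ((N + 1) ^ N * ((N + 1) * L ^ 2) ^ N) * ((N + 1) * ((N + 1) * L ^ 2)) := by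
    have h0 : ∀ x y : ℤ, (x ^ 2 * y ^ 2) ^ (N + 1) = (x ^ N * (x * y ^ 2) ^ N) * (x * (x * y ^ 2)) := by
      intro x y
      rw [← mul_pow x (x * y ^ 2) N, ← pow_succ]
      congr 1
      ring
    push_cast
    exact h0 _ _
  have hD0 : (0 : ℤ) ≤ (N + 1) ^ N * ((N + 1) * L ^ 2) ^ N := by positivity
  refine ⟨B, a, M, hdet, Finset.mem_filter.2 ⟨Finset.mem_univ _, hwb rfl⟩, hcard, ?_, fun w b => ?_, hrel, hLI⟩
  · rw [hXeq, had]
    refine (hD Gm hG1).trans (le_mul_of_one_le_right hD0 ?_)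
    exact one_le_mul_of_one_le_of_one_le hN1 hY1
  · rw [hXeq, hM]
    simp only [mulVec, dotProduct]
    refine (Finset.abs_sum_le_sum_abs _ _).trans ?_
    refine (Finset.sum_le_card_nsmul _ _ (((((N : ℤ) + 1) ^ N * (((N : ℤ) + 1) * (L : ℤ) ^ 2) ^ N)) *
      (((N : ℤ) + 1) * (L : ℤ) ^ 2)) fun b' _ => ?_).trans ?_
    · rw [abs_mul]
      refine mul_le_mul ?_ ?_ (abs_nonneg _) hD0
      · rw [adjugate_apply]
        refine hD _ fun i j => ?_
        rw [updateRow_apply]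
        split_ifs
        · rw [Pi.single_apply]
          split_ifs
          · simpa using hY1
          · rw [abs_zero]; positivity
        · exact hG1 i j
      · refine (Finset.abs_sum_le_sum_abs _ _).trans ?_
        refine (Finset.sum_le_card_nsmul _ _ ((L : ℤ) ^ 2) fun g _ => ?_).trans ?_
        · rw [abs_mul, sq]
          exact mul_le_mul (hV _ _) (hV _ _) (abs_nonneg _) (by positivity)
        · rw [Finset.card_univ, ← hN, nsmul_eq_mul]
          nlinarith [sq_nonneg (L : ℤ)]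
    · rw [Finset.card_univ, Fintype.card_coe, nsmul_eq_mul]
      have h1 : ((B.card : ℕ) : ℤ) ≤ N + 1 := by
        have : (B.card : ℤ) ≤ N := by exact_mod_cast hcard
        linarith
      calc ((B.card : ℕ) : ℤ) * (((N + 1) ^ N * ((N + 1) * L ^ 2) ^ N) * ((N + 1) * L ^ 2))
          ≤ (N + 1) * (((N + 1) ^ N * ((N + 1) * L ^ 2) ^ N) * ((N + 1) * L ^ 2)) :=
            mul_le_mul_of_nonneg_right h1 (by positivity)
        _ = _ := by ring

theorem poly_bound {ι : Type} (p : MvPolynomial ι ℤ) : ∃ c : ℕ, ∀ (m : ℕ) (s : ι → ℤ), (∀ i, 0 ≤ s i ∧ s i ≤ m) →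
    |MvPolynomial.eval s p| ≤ ((m : ℤ) + 2) ^ c := by
  induction p using MvPolynomial.induction_on with
  | C a =>
    refine ⟨a.natAbs, fun m s _ => ?_⟩
    rw [MvPolynomial.eval_C]
    have h1 : a.natAbs ≤ 2 ^ a.natAbs := (Nat.lt_two_pow_self).le
    have h2 : 2 ^ a.natAbs ≤ (m + 2) ^ a.natAbs := Nat.pow_le_pow_left (by omega) _
    have h3 : (a.natAbs : ℤ) = |a| := Int.natCast_natAbs a
    rw [← h3]
    exact_mod_cast h1.trans h2
  | add p q hp hq =>
    obtain ⟨c, hc⟩ := hp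
    obtain ⟨c', hc'⟩ := hq
    refine ⟨c + c' + 1, fun m s hs => ?_⟩
    rw [map_add]
    have hm : (1 : ℤ) ≤ (m : ℤ) + 2 := by omega
    have h1 := (hc m s hs).trans (pow_le_pow_right₀ hm (show c ≤ c + c' by omega))
    have h2 := (hc' m s hs).trans (pow_le_pow_right₀ hm (show c' ≤ c + c' by omega))
    refine (abs_add_le _ _).trans ((add_le_add h1 h2).trans ?_)
    rw [pow_succ]
    have : (0 : ℤ) ≤ ((m : ℤ) + 2) ^ (c + c') := by positivity
    nlinarith
  | mul_X p i hp =>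
    obtain ⟨c, hc⟩ := hp
    refine ⟨c + 1, fun m s hs => ?_⟩
    rw [map_mul, MvPolynomial.eval_X, abs_mul, pow_succ]
    refine mul_le_mul (hc m s hs) ?_ (abs_nonneg _) (by positivity)
    rw [abs_of_nonneg (hs i).1]
    have := (hs i).2
    omega

/-- **the basis** -/
theorem bas {β ι : Type} [Fintype β] [Fintype ι] (u : β → MvPolynomial ι ℤ) (o₀ : β)
    (ho₀ : MvPolynomial.eval (fun _ => (0 : ℤ)) (u o₀) ≠ 0) : ∃ E : ℕ → ℕ, PB E ∧ ∀ δ : ℕ,
    ∃ (B : Finset (Fin δ → β)) (a : ℤ) (M : (Fin δ → β) → B → ℤ), a ≠ 0 ∧ (fun _ => o₀) ∈ B ∧ |a| ≤ 2 ^ E δ ∧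
      (∀ w b, |M w b| ≤ 2 ^ E δ) ∧ B.card ≤ E δ ∧
      (∀ w, MvPolynomial.C a * ∏ i, u (w i) = ∑ b, MvPolynomial.C (M w b) * ∏ i, u (b.1 i)) ∧
      ∀ c : B → ℚ, ∑ b, MvPolynomial.C (c b) * MvPolynomial.map (Int.castRingHom ℚ) (∏ i, u (b.1 i)) = 0 → ∀ b, c b = 0 := by
  classical
  obtain ⟨c₀, hc₀⟩ : ∃ c₀ : ℕ, ∀ o, (u o).totalDegree ≤ c₀ :=
    ⟨∑ o, (u o).totalDegree, fun o => Finset.single_le_sum (f := fun o => (u o).totalDegree)
      (fun _ _ => Nat.zero_le _) (Finset.mem_univ o)⟩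
  choose c' hc' using fun o => poly_bound (u o)
  obtain ⟨c₁, hc₁⟩ : ∃ c₁ : ℕ, ∀ o, c' o ≤ c₁ :=
    ⟨∑ o, c' o, fun o => Finset.single_le_sum (f := c') (fun _ _ => Nat.zero_le _) (Finset.mem_univ o)⟩
  set κ := Fintype.card ι with hκ
  have hPBN : PB fun δ : ℕ => (c₀ * δ + 1) ^ κ := ((((PB.const c₀).mul PB.id).add (PB.const 1))).pow κ
  refine ⟨fun δ => (2 * ((c₀ * δ + 1) ^ κ + 1) + 2 * ((c₀ * δ + 2) * (c₁ * δ))) * ((c₀ * δ + 1) ^ κ + 1) +
    (c₀ * δ + 1) ^ κ, ?_, fun δ => ?_⟩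
  · have h1 := hPBN.add (PB.const 1)
    have h2 : PB fun δ : ℕ => (c₀ * δ + 2) * (c₁ * δ) :=
      (((PB.const c₀).mul PB.id).add (PB.const 2)).mul ((PB.const c₁).mul PB.id)
    exact ((((PB.const 2).mul h1).add ((PB.const 2).mul h2)).mul h1).add hPBN
  set m := c₀ * δ with hm
  set L : ℕ := ((m + 2) ^ c₁) ^ δ with hL
  set V : (Fin δ → β) → (ι → Fin (m + 1)) → ℤ := fun w s =>
    MvPolynomial.eval (fun i => ((s i : ℕ) : ℤ)) (∏ i, u (w i)) with hV
  have hVL : ∀ w s, |V w s| ≤ L := by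
    intro w s
    rw [hV]
    simp only [map_prod, Finset.abs_prod]
    refine (Finset.prod_le_prod (g := fun _ => ((m : ℤ) + 2) ^ c₁) (fun i _ => abs_nonneg _) fun i _ => ?_).trans ?_
    · refine (hc' (w i) m _ fun i => ⟨by positivity, ?_⟩).trans (pow_le_pow_right₀ (by omega) (hc₁ _))
      have := (s i).2
      omega
    · rw [Finset.prod_const, Finset.card_univ, Fintype.card_fin, hL]
      push_cast
      exact le_rfl
  have hL1 : 1 ≤ L := Nat.one_le_pow _ _ (Nat.pos_of_ne_zero (pow_ne_zero _ (by omega)))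
  obtain ⟨B, a, M, ha, h0B, hB, ha', hM', hrel, hLI⟩ := gram V L hL1 hVL (fun _ => o₀) (fun _ => 0) (by
    show MvPolynomial.eval (fun _ => (((0 : Fin (m + 1)) : ℕ) : ℤ)) (∏ i : Fin δ, u o₀) ≠ 0
    rw [map_prod, Finset.prod_const]
    exact pow_ne_zero _ ho₀)
  have hcg : Fintype.card (ι → Fin (m + 1)) = (m + 1) ^ κ := by
    rw [Fintype.card_fun, Fintype.card_fin]
  rw [hcg] at hB ha' hM'
  set N := (m + 1) ^ κ with hN
  have hX : (((N + 1) ^ 2 * L ^ 2) ^ (N + 1) : ℕ) ≤ 2 ^ ((2 * (N + 1) + 2 * ((m + 2) * (c₁ * δ))) * (N + 1)) := by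
    rw [pow_mul]
    refine Nat.pow_le_pow_left ?_ _
    rw [pow_add, pow_mul', pow_mul' 2 2]
    refine Nat.mul_le_mul (Nat.pow_le_pow_left (Nat.lt_two_pow_self).le _) (Nat.pow_le_pow_left ?_ _)
    rw [hL, ← pow_mul, pow_mul 2]
    exact Nat.pow_le_pow_left (Nat.lt_two_pow_self).le _
  have hXZ : ((((N + 1) ^ 2 * L ^ 2) ^ (N + 1) : ℕ) : ℤ) ≤
      2 ^ ((2 * (N + 1) + 2 * ((m + 2) * (c₁ * δ))) * (N + 1) + N) := by
    have h1 := hX.trans (Nat.pow_le_pow_right (by norm_num : 0 < 2)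
      (Nat.le_add_right ((2 * (N + 1) + 2 * ((m + 2) * (c₁ * δ))) * (N + 1)) N))
    exact_mod_cast h1
  refine ⟨B, a, M, ha, h0B, ha'.trans hXZ, fun w b => (hM' w b).trans hXZ, hB.trans (Nat.le_add_left _ _), fun w => ?_, ?_⟩
  · have hdeg : ∀ (z : ℤ) (w : Fin δ → β), (MvPolynomial.C z * ∏ i, u (w i)).totalDegree ≤ m := by
      intro z w
      refine (MvPolynomial.totalDegree_mul _ _).trans ?_
      rw [MvPolynomial.totalDegree_C, zero_add]
      refine (MvPolynomial.totalDegree_finsetProd _ _).trans ?_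
      refine (Finset.sum_le_card_nsmul _ _ c₀ fun i _ => hc₀ _).trans ?_
      rw [Finset.card_univ, Fintype.card_fin, smul_eq_mul, hm, mul_comm]
    rw [← sub_eq_zero]
    refine MvPolynomial.eq_zero_of_eval_zero_at_prod_finset _ (fun _ : ι => (Finset.range (m + 1)).image fun n : ℕ => (n : ℤ))
      (fun i => ?_) fun x hx => ?_
    · rw [Finset.card_image_of_injective _ Nat.cast_injective, Finset.card_range]
      refine Nat.lt_succ_of_le ((MvPolynomial.degreeOf_le_totalDegree _ _).trans ?_)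
      refine (MvPolynomial.totalDegree_sub _ _).trans (max_le (hdeg _ _) ?_)
      exact (MvPolynomial.totalDegree_finsetSum _ _).trans (Finset.sup_le fun b _ => hdeg _ _)
    · have hx' : ∀ i, ∃ n : Fin (m + 1), ((n : ℕ) : ℤ) = x i := by
        intro i
        obtain ⟨n, hn, hn'⟩ := Finset.mem_image.1 (hx i)
        exact ⟨⟨n, Finset.mem_range.1 hn⟩, hn'⟩
      choose s hs using hx'
      have hx2 : x = fun i => ((s i : ℕ) : ℤ) := funext fun i => (hs i).symm
      have h1 := hrel w s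
      rw [map_sub, map_mul, map_sum, MvPolynomial.eval_C, sub_eq_zero, hx2]
      refine h1.trans ?_
      refine Finset.sum_congr rfl fun b _ => ?_
      rw [map_mul, MvPolynomial.eval_C]
  · intro c hc
    refine Fintype.linearIndependent_iff.1 hLI c ?_
    funext s
    have h1 := congrArg (MvPolynomial.eval fun i => (((s i : ℕ) : ℤ) : ℚ)) hc
    rw [map_zero, map_sum] at h1
    rw [Finset.sum_apply, Pi.zero_apply, ← h1]
    refine Finset.sum_congr rfl fun b _ => ?_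
    rw [Pi.smul_apply, smul_eq_mul, map_mul, MvPolynomial.eval_C]
    congr 1
    rw [MvPolynomial.eval_map]
    have h2 := MvPolynomial.eval₂_comp_left (Int.castRingHom ℚ) (RingHom.id ℤ) (fun i => ((s i : ℕ) : ℤ)) (∏ i, u (b.1 i))
    rw [RingHom.comp_id] at h2
    exact h2

end Pool.Agent.R351.GD.H
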