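import Mathlib

/-!
# The Cayley chart of the isometry group of an alternating form
-/

set_option autoImplicit false

open Matrix

namespace Pool.Agent.R351.GD.H

variable {n : ℕ}

/-- the indices of the symmetric matrices -/
abbrev Sx (n : ℕ) : Type := {p : Fin n × Fin n // p.1 ≤ p.2}

section
variable {R : Type} [CommRing R]

/-- the symmetric matrix with the given entries -/
def sy (s : Sx n → R) : Matrix (Fin n) (Fin n) R :=
  Matrix.of fun i j => if h : i ≤ j then s ⟨(i, j), h⟩ else s ⟨(j, i), (le_of_not_ge h)⟩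

theorem sy_t (s : Sx n → R) : (sy s)ᵀ = sy s := by
  ext i j
  unfold sy
  rw [transpose_apply, of_apply, of_apply]
  rcases lt_trichotomy i j with h | rfl | h
  · rw [dif_neg (not_le.2 h), dif_pos h.le]
  · rfl
  · rw [dif_pos h.le, dif_neg (not_le.2 h)]

theorem sy_of {S : Matrix (Fin n) (Fin n) R} (hS : Sᵀ = S) : sy (fun p : Sx n => S p.1.1 p.1.2) = S := by
  ext i j
  unfold sy
  rw [of_apply]
  split_ifs with h
  · rfl
  · exact congrFun (congrFun hS i) j

/-- the numerators -/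
def cN (K : Matrix (Fin n) (Fin n) R) (s : Sx n → R) : Matrix (Fin n) (Fin n) R :=
  (1 - K * sy s).adjugate * (1 + K * sy s)

/-- the denominator -/
def cD (K : Matrix (Fin n) (Fin n) R) (s : Sx n → R) : R := (1 - K * sy s).det

theorem sy_map {R' : Type} [CommRing R'] (f : R →+* R') (s : Sx n → R) :
    sy (fun p => f (s p)) = f.mapMatrix (sy s) := by
  ext i j
  unfold sy
  rw [of_apply, RingHom.mapMatrix_apply, map_apply, of_apply]
  split_ifs <;> rfl

theorem cN_map {R' : Type} [CommRing R'] (f : R →+* R') (K : Matrix (Fin n) (Fin n) R) (s : Sx n → R) :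
    cN (f.mapMatrix K) (fun p => f (s p)) = f.mapMatrix (cN K s) := by
  unfold cN
  rw [sy_map, map_mul, RingHom.map_adjugate, map_sub, map_add, map_one, map_mul]

theorem cD_map {R' : Type} [CommRing R'] (f : R →+* R') (K : Matrix (Fin n) (Fin n) R) (s : Sx n → R) :
    cD (f.mapMatrix K) (fun p => f (s p)) = f (cD K s) := by
  unfold cD
  rw [sy_map, RingHom.map_det, map_sub, map_one, map_mul]

/-- **the inverse of the chart** -/
theorem cay_inv {J K Z W : Matrix (Fin n) (Fin n) R} {d e : R} (hJ : Jᵀ = -J) (hKJ : K * J = d • (1 : Matrix _ _ R))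
    (hed : e * d = 1) (hZ : Zᵀ * J * Z = J) (hW : (Z + 1) * W = 1) :
    (e • (J * ((Z - 1) * W)))ᵀ = e • (J * ((Z - 1) * W)) ∧ K * (e • (J * ((Z - 1) * W))) = (Z - 1) * W ∧
    (1 - (Z - 1) * W) * Z = 1 + (Z - 1) * W ∧ (1 - (Z - 1) * W) * (Z + 1) = 2 • (1 : Matrix _ _ R) := by
  have hW' : W * (Z + 1) = 1 := mul_eq_one_comm.1 hW
  have hWZ : W * Z = Z * W := by
    have h1 : W * Z = 1 - W := by
      have : W * Z + W = 1 := by rw [← hW', mul_add, mul_one]
      rw [← this]; abel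
    have h2 : Z * W = 1 - W := by
      have : Z * W + W = 1 := by rw [← hW, add_mul, one_mul]
      rw [← this]; abel
    rw [h1, h2]
  have hA1 : (1 - (Z - 1) * W) * (Z + 1) = 2 • (1 : Matrix _ _ R) := by
    rw [sub_mul, one_mul, mul_assoc, hW', mul_one, two_smul]
    abel
  refine ⟨?_, ?_, ?_, hA1⟩
  · have h1 : (Z - 1)ᵀ * J * (Z + 1) = -((Z + 1)ᵀ * J * (Z - 1)) := by
      rw [transpose_sub, transpose_add, transpose_one]
      simp only [sub_mul, add_mul, mul_add, mul_sub, one_mul, mul_one]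
      rw [hZ]
      abel
    have hWt : Wᵀ * (Z + 1)ᵀ = 1 := by rw [← transpose_mul, hW, transpose_one]
    have h2 : ((Z - 1) * W)ᵀ * J = -(J * ((Z - 1) * W)) := by
      have e1 : ((Z - 1) * W)ᵀ * J = Wᵀ * ((Z - 1)ᵀ * J * (Z + 1)) * W := by
        rw [transpose_mul]
        simp only [mul_assoc]
        rw [hW, mul_one]
      rw [e1, h1, mul_neg, neg_mul]
      congr 1
      have e2 : Wᵀ * ((Z + 1)ᵀ * J * (Z - 1)) * W = (Wᵀ * (Z + 1)ᵀ) * (J * ((Z - 1) * W)) := by
        simp only [mul_assoc]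
      rw [e2, hWt, one_mul]
    rw [transpose_smul, transpose_mul, hJ, mul_neg, h2, neg_neg]
  · rw [mul_smul_comm, ← mul_assoc, hKJ, smul_mul_assoc, one_mul, smul_smul, hed, one_smul]
  · have e1 : (1 - (Z - 1) * W) * Z = Z - (Z - 1) * (Z * W) := by rw [sub_mul, one_mul, mul_assoc, hWZ]
    have e2 : Z * W = 1 - W := by
      have : Z * W + W = 1 := by rw [← hW, add_mul, one_mul]
      rw [← this]; abel
    rw [e1, e2]
    simp only [sub_mul, mul_sub, mul_one, one_mul]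
    abel

/-- the chart at the inverse image -/
theorem cay_at {J K Z W : Matrix (Fin n) (Fin n) R} {d e : R} (hJ : Jᵀ = -J) (hKJ : K * J = d • (1 : Matrix _ _ R))
    (hed : e * d = 1) (hZ : Zᵀ * J * Z = J) (hW : (Z + 1) * W = 1) {s : Sx n → R}
    (hs : ∀ p : Sx n, s p = (e • (J * ((Z - 1) * W))) p.1.1 p.1.2) :
    cN K s = cD K s • Z ∧ cD K s * (Z + 1).det = 2 ^ n := by
  obtain ⟨h1, h2, h3, h4⟩ := cay_inv hJ hKJ hed hZ hW
  have hs' : sy s = e • (J * ((Z - 1) * W)) := by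
    rw [← sy_of h1]
    congr 1
    funext p
    exact hs p
  unfold cN cD
  rw [hs', h2]
  constructor
  · rw [← h3, ← mul_assoc, adjugate_mul, smul_mul_assoc, one_mul]
  · rw [← det_mul, h4]
    have h5 : (2 • (1 : Matrix (Fin n) (Fin n) R)) = (2 : R) • (1 : Matrix (Fin n) (Fin n) R) := by
      rw [two_smul, two_smul]
    rw [h5, det_smul, det_one, mul_one, Fintype.card_fin]

end

/-- **the chart** -/
theorem cay_mem {F : Type} [Field F] {J K : Matrix (Fin n) (Fin n) F} {d : F} (hJ : Jᵀ = -J)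
    (hJK : J * K = d • (1 : Matrix _ _ F)) {s : Sx n → F} (hD : cD K s ≠ 0) :
    ((cD K s)⁻¹ • cN K s)ᵀ * J * ((cD K s)⁻¹ • cN K s) = J := by
  have hg : (cD K s)⁻¹ • cN K s = (1 - K * sy s)⁻¹ * (1 + K * sy s) := by
    unfold cN cD
    rw [Matrix.inv_def, Ring.inverse_eq_inv', smul_mul_assoc]
  rw [hg]
  set A := K * sy s with hA
  have hu : IsUnit (1 - A).det := isUnit_iff_ne_zero.2 hD
  have hJA : J * A = d • sy s := by rw [hA, ← mul_assoc, hJK, smul_mul_assoc, one_mul]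
  have hAJ : Aᵀ * J = -(J * A) := by
    have h1 : (J * A)ᵀ = J * A := by rw [hJA, transpose_smul, sy_t]
    rw [transpose_mul, hJ, mul_neg] at h1
    rw [← h1, neg_neg]
  have hJP : J * (1 - A) = (1 + A)ᵀ * J := by
    rw [mul_sub, mul_one, transpose_add, transpose_one, add_mul, one_mul, hAJ]
    abel
  have hJQ : J * (1 + A) = (1 - A)ᵀ * J := by
    rw [mul_add, mul_one, transpose_sub, transpose_one, sub_mul, one_mul, hAJ]
    abel
  have hPQ : (1 - A) * (1 + A) = (1 + A) * (1 - A) := by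
    simp only [sub_mul, add_mul, mul_add, mul_sub, one_mul, mul_one]
    abel
  have hc : (1 - A)⁻¹ * (1 + A) = (1 + A) * (1 - A)⁻¹ := by
    have e1 : (1 - A)⁻¹ * ((1 + A) * (1 - A)) * (1 - A)⁻¹ = (1 - A)⁻¹ * (1 + A) := by
      rw [mul_assoc, mul_assoc, mul_nonsing_inv _ hu, mul_one]
    have e2 : (1 - A)⁻¹ * ((1 - A) * (1 + A)) * (1 - A)⁻¹ = (1 + A) * (1 - A)⁻¹ := by
      rw [← mul_assoc, nonsing_inv_mul _ hu, one_mul]
    rw [← e1, ← e2, hPQ]
  have hi : (1 - A) * (1 - A)⁻¹ = 1 := mul_nonsing_inv _ hu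
  calc ((1 - A)⁻¹ * (1 + A))ᵀ * J * ((1 - A)⁻¹ * (1 + A))
      = ((1 - A)⁻¹)ᵀ * ((1 + A)ᵀ * J) * ((1 - A)⁻¹ * (1 + A)) := by
        rw [hc, transpose_mul]
        simp only [mul_assoc]
    _ = ((1 - A)⁻¹)ᵀ * (J * ((1 - A) * (1 - A)⁻¹) * (1 + A)) := by
        rw [← hJP]
        simp only [mul_assoc]
    _ = ((1 - A)⁻¹)ᵀ * ((1 - A)ᵀ * J) := by rw [hi, mul_one, hJQ]
    _ = J := by rw [← mul_assoc, ← transpose_mul, hi, transpose_one, one_mul]

end Pool.Agent.R351.GD.H
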