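import Pool.Agent.R351.GD.H.OneF
import Pool.Agent.R351.GD.H.CntI

/-!
# Roots of integral polynomials with small leading coefficient
-/

set_option autoImplicit false

open Pool.Agent.Y916.Al (Ht)

namespace Pool.Agent.R351.GD.H

/-- coefficients in terms of the roots -/
theorem coeff_root {p : Polynomial ℤ} (hp0 : p ≠ 0) {B : ℝ} (hB : 1 ≤ B)
    (h : ∀ z : ℂ, Polynomial.aeval z p = 0 → ‖z‖ ≤ B) (j : ℕ) :
    |(p.coeff j : ℝ)| ≤ |(p.leadingCoeff : ℝ)| * (B ^ p.natDegree * 2 ^ p.natDegree) := by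
  set P : Polynomial ℂ := p.map (Int.castRingHom ℂ) with hP
  have hinj : Function.Injective (Int.castRingHom ℂ) := Int.cast_injective
  have hP0 : P ≠ 0 := (Polynomial.map_ne_zero_iff hinj).2 hp0
  have ha0 : P.leadingCoeff ≠ 0 := Polynomial.leadingCoeff_ne_zero.2 hP0
  have hlc : P.leadingCoeff = (p.leadingCoeff : ℂ) := by
    rw [hP, Polynomial.leadingCoeff_map_of_injective hinj]
    rfl
  have hnd : P.natDegree = p.natDegree := Polynomial.natDegree_map_eq_of_injective hinj p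
  set q : Polynomial ℂ := P * Polynomial.C P.leadingCoeff⁻¹ with hq
  have hqm : q.Monic := Polynomial.monic_mul_leadingCoeff_inv hP0
  have hqd : q.natDegree = p.natDegree := by
    rw [hq, Polynomial.natDegree_mul_C (inv_ne_zero ha0), hnd]
  have hroot : ∀ z ∈ (q.map (RingHom.id ℂ)).roots, ‖z‖ ≤ B := by
    intro z hz
    rw [Polynomial.map_id] at hz
    have h1 := (Polynomial.mem_roots'.1 hz).2
    rw [Polynomial.IsRoot.def, hq, Polynomial.eval_mul, Polynomial.eval_C] at h1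
    have h2 := (mul_eq_zero.1 h1).resolve_right (inv_ne_zero ha0)
    refine h z ?_
    rw [hP, Polynomial.eval_map] at h2
    exact h2
  have h5 := Polynomial.coeff_le_of_roots_le (f := RingHom.id ℂ) (B := B) j hqm (IsAlgClosed.splits _) hroot
  rw [Polynomial.map_id, hqd] at h5
  have h6 : (p.coeff j : ℂ) = (p.leadingCoeff : ℂ) * q.coeff j := by
    have h7 : P.coeff j = (p.coeff j : ℂ) := by
      rw [hP, Polynomial.coeff_map]
      rfl
    rw [hq, Polynomial.coeff_mul_C, h7, ← hlc]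
    field_simp
  have h8 : |(p.coeff j : ℝ)| = |(p.leadingCoeff : ℝ)| * ‖q.coeff j‖ := by
    have h9 := congrArg (fun z : ℂ => ‖z‖) h6
    simp only [norm_mul, Complex.norm_intCast] at h9
    exact h9
  rw [h8]
  refine mul_le_mul_of_nonneg_left ?_ (abs_nonneg _)
  refine h5.trans (mul_le_mul (pow_le_pow_right₀ hB (Nat.sub_le _ _)) ?_ (Nat.cast_nonneg _) (by positivity))
  exact_mod_cast Nat.choose_le_two_pow _ _

/-- the largest root has small height -/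
theorem ht_max {D : ℕ} {p : Polynomial ℤ} (hp0 : p ≠ 0) (hpd : p.natDegree ≤ D) (hlc : |p.leadingCoeff| ≤ 2 ^ D)
    {ξ : ℂ} (hξ : Polynomial.aeval ξ p = 0) (hmax : ∀ z : ℂ, Polynomial.aeval z p = 0 → ‖z‖ ≤ ‖ξ‖) (h2 : 2 ≤ ‖ξ‖) :
    Ht (3 * D) (3 * D) ξ := by
  refine ⟨p, hp0, hpd.trans (by omega), fun j => ?_, hξ⟩
  have h1 : (1 : ℝ) ≤ ‖ξ‖ := by linarith
  have h3 : |(p.leadingCoeff : ℝ)| ≤ 2 ^ D := by exact_mod_cast hlc
  calc |(p.coeff j : ℝ)| ≤ |(p.leadingCoeff : ℝ)| * (‖ξ‖ ^ p.natDegree * 2 ^ p.natDegree) := coeff_root hp0 h1 hmax j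
    _ ≤ ‖ξ‖ ^ D * (‖ξ‖ ^ D * ‖ξ‖ ^ D) := by
      refine mul_le_mul (h3.trans (pow_le_pow_left₀ (by norm_num) h2 _)) (mul_le_mul (pow_le_pow_right₀ h1 hpd) ?_ (by positivity)
        (by positivity)) (by positivity) (by positivity)
      exact (pow_le_pow_left₀ (by norm_num) h2 _).trans (pow_le_pow_right₀ h1 hpd)
    _ = ‖ξ‖ ^ (3 * D) := by rw [← pow_add, ← pow_add]; congr 1; ring

/-- roots of polynomials with small roots and leading coefficient -/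
theorem mem_RB {D h : ℕ} {p : Polynomial ℤ} (hp0 : p ≠ 0) (hpd : p.natDegree ≤ D) (hlc : |p.leadingCoeff| ≤ 2 ^ D)
    (hr : ∀ z : ℂ, Polynomial.aeval z p = 0 → ‖z‖ ≤ 2 ^ h) {ξ : ℂ} (hξ : Polynomial.aeval ξ p = 0) :
    ξ ∈ RB D (2 ^ (D + (h * D + D))) := by
  refine ⟨p, hp0, hpd, fun j => ?_, hξ⟩
  have h1 : (1 : ℝ) ≤ 2 ^ h := one_le_pow₀ (by norm_num)
  have h3 : |(p.leadingCoeff : ℝ)| ≤ 2 ^ D := by exact_mod_cast hlc
  have h4 : |(p.coeff j : ℝ)| ≤ 2 ^ (D + (h * D + D)) := by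
    calc |(p.coeff j : ℝ)| ≤ |(p.leadingCoeff : ℝ)| * ((2 ^ h) ^ p.natDegree * 2 ^ p.natDegree) := coeff_root hp0 h1 hr j
      _ ≤ 2 ^ D * ((2 ^ h) ^ D * 2 ^ D) := by
        refine mul_le_mul h3 (mul_le_mul (pow_le_pow_right₀ h1 hpd) (pow_le_pow_right₀ (by norm_num) hpd) (by positivity)
          (by positivity)) (by positivity) (by positivity)
      _ = 2 ^ (D + (h * D + D)) := by rw [← pow_mul, ← pow_add, ← pow_add]
  have h9 : ((|p.coeff j| : ℤ) : ℝ) ≤ (((2 ^ (D + (h * D + D)) : ℕ) : ℤ) : ℝ) := by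
    push_cast
    exact h4
  exact_mod_cast h9

/-- points of small height -/
theorem mem_RB' {D h : ℕ} {ξ : ℂ} (hht : Ht D D ξ) (hξ : ‖ξ‖ ≤ 2 ^ h) : ξ ∈ RB D (2 ^ (D + (h * D + D))) := by
  obtain ⟨p, hp0, hpd, hpc, hp⟩ := hht
  refine ⟨p, hp0, hpd, fun j => ?_, hp⟩
  have h4 : |(p.coeff j : ℝ)| ≤ 2 ^ (D + (h * D + D)) := by
    calc |(p.coeff j : ℝ)| ≤ ‖ξ‖ ^ D := hpc j
      _ ≤ (2 ^ h) ^ D := pow_le_pow_left₀ (norm_nonneg _) hξ _
      _ = 2 ^ (h * D) := by rw [← pow_mul]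
      _ ≤ 2 ^ (D + (h * D + D)) := pow_le_pow_right₀ (by norm_num) (by omega)
  have h9 : ((|p.coeff j| : ℤ) : ℝ) ≤ (((2 ^ (D + (h * D + D)) : ℕ) : ℤ) : ℝ) := by
    push_cast
    exact h4
  exact_mod_cast h9

/-- the number of these points -/
theorem card_RB (D h : ℕ) (S : Set ℂ) (hS : S ⊆ RB D (2 ^ (D + (h * D + D)))) :
    S.Finite ∧ S.ncard ≤ 2 ^ ((D + (h * D + D) + 2) * (D + 1) + D) := by
  obtain ⟨h1, h2⟩ := rb_cnt D (2 ^ (D + (h * D + D)))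
  refine ⟨h1.subset hS, ((Set.ncard_le_ncard hS h1).trans h2).trans ?_⟩
  rw [pow_add 2 ((D + (h * D + D) + 2) * (D + 1)) D, pow_mul 2 (D + (h * D + D) + 2) (D + 1)]
  refine Nat.mul_le_mul (Nat.pow_le_pow_left ?_ _) (Nat.lt_two_pow_self).le
  have h4 : 1 ≤ 2 ^ (D + (h * D + D)) := Nat.one_le_two_pow
  have h5 : 2 ^ (D + (h * D + D) + 2) = 2 ^ (D + (h * D + D)) * 4 := by rw [pow_add]; norm_num
  omega

end Pool.Agent.R351.GD.H
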