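import Pool.Agent.R351.GD.J.GenI

/-!
# From windows to tuples: arbitrary bounds for the number of exceptions in a window
-/

set_option autoImplicit false

open Module

namespace Pool.Agent.R351.GD

open Pool.Agent.Y916.Om

open Classical in
/-- **From windows to tuples** -/
theorem gen_tuplesM {Ω : Type} [Field Ω] [CharZero Ω] {σ : Type} [Fintype σ] (Θ : Type) (x : Θ → ℕ → σ → Ω)
    (n₀ k q : ℕ)
    (hwin : ∀ Q : ℕ, ∃ (M : ℕ) (E : ℕ → ℕ), PB E ∧ ∀ (θ : Θ) (δ : ℕ) (w : Fin Q → Ω) (H n : ℕ), (H + 2) ^ E δ ≤ n →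
      ∀ S : Finset ℕ, (∀ s ∈ S, n₀ ≤ s ∧ n < s ∧ s ≤ n + H ∧ RelK δ w (x θ s)) → S.card ≤ M) :
    ∃ C : ℕ, ∀ (θ : Fin k → Θ) (δ : ℕ) (w : Fin q → Ω) (T : ℕ), 1 ≤ T →
      (((Fintype.piFinset fun _ : Fin k => (Finset.Icc 1 T).filter fun n => n₀ ≤ n).filter fun t =>
        RelK δ w (fun p : Fin k × σ => x (θ p.1) (t p.1) p.2)).card : ℝ) ≤
      C * (T : ℝ) ^ ((k : ℝ) - 1 / ((δ : ℝ) + 2) ^ C) := by
  set Q := q + k * Fintype.card σ with hQ
  obtain ⟨M, E₀, hE₀p, hE₀⟩ := hwin Q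
  set E : ℕ → ℕ := fun δ => E₀ ((k + 2) * δ) + 1 with hEdef
  have hEp : PB E := (hE₀p.comp ((PB.const (k + 2)).mul PB.id)).add (PB.const 1)
  obtain ⟨c, hc⟩ := hEp
  refine ⟨8 * (M + 1) * k + (c + 1), fun θ δ w T hT => ?_⟩
  set C := 8 * (M + 1) * k + (c + 1) with hC
  have hT1 : (1 : ℝ) ≤ T := by exact_mod_cast hT
  have hT0 : (0 : ℝ) < T := by linarith
  have hE1 : 1 ≤ E δ := Nat.le_add_left _ _
  set Z : ℝ := 8 * ((M : ℝ) + 1) * (T : ℝ) ^ (1 - 1 / (2 * E δ : ℝ)) with hZ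
  have hZ0 : 0 ≤ Z := by positivity
  set A : Finset ℕ := (Finset.Icc 1 T).filter fun n => n₀ ≤ n with hA
  have hAT : A.card ≤ T := by
    have h1 : A.card ≤ (Finset.Icc 1 T).card := Finset.card_filter_le _ _
    rwa [Nat.card_Icc, Nat.add_sub_cancel] at h1
  have h1 := tup_badI x δ T ⌊Z⌋₊ Q ((k + 1) * δ) A hAT (fun θ w' => by
      apply Nat.le_floor
      refine count_win M (E δ) T hE1 hT _ (fun n hn => ?_) fun H n hn S hS hSb => ?_
      · exact Finset.mem_Icc.1 (Finset.mem_filter.1 (Finset.mem_filter.1 hn).1).1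
      · refine hE₀ θ ((k + 2) * δ) w' H n ((Nat.pow_le_pow_right (by omega) (Nat.le_succ _)).trans hn) S fun s hs => ?_
        obtain ⟨h2, h3⟩ := Finset.mem_filter.1 (hS hs)
        refine ⟨(Finset.mem_filter.1 h2).2, (hSb s hs).1, (hSb s hs).2, badW_relK h3 ?_ (le_of_eq (by ring))⟩
        exact Nat.le_mul_of_pos_left δ (by omega)) k θ δ (Fin q) w
    (by rw [Fintype.card_fin]) (le_of_eq (by ring))
  have h2 : (((Fintype.piFinset fun _ : Fin k => A).filter fun t =>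
        RelK δ w (fun p : Fin k × σ => x (θ p.1) (t p.1) p.2)).card : ℝ) ≤ k * ⌊Z⌋₊ * (T : ℝ) ^ (k - 1) := by
    have h3 : ((Fintype.piFinset fun _ : Fin k => A).filter fun t =>
        RelK δ w (fun p : Fin k × σ => x (θ p.1) (t p.1) p.2)).card ≤ k * ⌊Z⌋₊ * T ^ (k - 1) := by
      refine (Finset.card_le_card fun t ht => ?_).trans h1
      obtain ⟨ht1, ht2⟩ := Finset.mem_filter.1 ht
      exact Finset.mem_filter.2 ⟨ht1, relK_badW ht2⟩
    exact_mod_cast h3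
  refine h2.trans ?_
  rcases Nat.eq_zero_or_pos k with hk | hk
  · subst hk
    simp only [Nat.cast_zero, zero_mul]
    positivity
  have h3 : (⌊Z⌋₊ : ℝ) ≤ Z := Nat.floor_le hZ0
  have hEp : (2 * E δ : ℝ) ≤ ((δ : ℝ) + 2) ^ C := by
    have h4 : 2 * E δ ≤ (δ + 2) ^ (c + 1) := by
      rw [pow_succ, mul_comm 2]
      exact Nat.mul_le_mul (hc δ) (by omega)
    have h5 : (δ + 2) ^ (c + 1) ≤ (δ + 2) ^ C := Nat.pow_le_pow_right (by omega) (by omega)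
    exact_mod_cast h4.trans h5
  have hE0 : (0 : ℝ) < 2 * E δ := by
    have : (1 : ℝ) ≤ E δ := by exact_mod_cast hE1
    linarith
  have h6 : 1 / ((δ : ℝ) + 2) ^ C ≤ 1 / (2 * E δ : ℝ) := one_div_le_one_div_of_le hE0 hEp
  calc (k : ℝ) * ⌊Z⌋₊ * (T : ℝ) ^ (k - 1) ≤ k * Z * (T : ℝ) ^ (k - 1) := by
        gcongr
    _ = 8 * ((M : ℝ) + 1) * k * ((T : ℝ) ^ (1 - 1 / (2 * E δ : ℝ)) * (T : ℝ) ^ (k - 1)) := by
        rw [hZ]; ring
    _ = 8 * ((M : ℝ) + 1) * k * (T : ℝ) ^ ((k : ℝ) - 1 / (2 * E δ : ℝ)) := by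
        rw [← Real.rpow_natCast, ← Real.rpow_add hT0]
        congr 2
        rw [Nat.cast_sub hk]
        push_cast
        ring
    _ ≤ C * (T : ℝ) ^ ((k : ℝ) - 1 / ((δ : ℝ) + 2) ^ C) := by
        refine mul_le_mul ?_ (Real.rpow_le_rpow_of_exponent_le hT1 (by linarith)) (by positivity)
          (Nat.cast_nonneg _)
        rw [hC]
        push_cast
        have : (0 : ℝ) ≤ c := Nat.cast_nonneg _
        linarith


end Pool.Agent.R351.GD
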