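import Pool.Agent.R351.GD.H.WinL
import Pool.Agent.Y119.HA.Win2

/-!
# Windows of algebraic points of growing degree for the Hodge loci of the hypergeometric variations
-/

set_option autoImplicit false
set_option maxHeartbeats 400000

open Matrix PowerSeries Pool.Agent.Y119.HY Pool.Agent.Y119.HZ Pool.Agent.Y118.CM Pool.Agent.Y113.MT
open Pool.Agent.Y916.Al (Ht)
open Pool.Agent.Y119.HA (Conc_x Flx Ccx index_x2 Conc_x_smul)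

namespace Pool.Agent.R351.GD.H

section
variable {m : ℕ} {β : Fin m → ℚ}

/-- **The degree of the relations which have to be excluded is bounded.** -/
theorem core_k (hm : 2 ≤ m) (hβ : ∀ j, ∀ a : ℤ, β j ≠ a) {ι : Type} [Fintype ι] [DecidableEq ι]
    (𝒞 : (ι → ℂ) → ℂ → ℂ → Matrix (Fin (2 * m)) (Fin (2 * m)) ℂ → Matrix (Fin (2 * m)) (Fin (2 * m)) ℚ → Prop)
    (hK : ∀ (a : ℕ → ι → ℂ) (q κ : ℕ → ℂ) (C : ℕ → Matrix (Fin (2 * m)) (Fin (2 * m)) ℂ)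
      (A : ℕ → Matrix (Fin (2 * m)) (Fin (2 * m)) ℚ), (∀ k, 𝒞 (a k) (q k) (κ k) (C k) (A k)) → (∀ k, κ k ≠ 0) →
      (∀ k, C k * cq (A k) * (C k)ᵀ = κ k • SS ℂ (2 * m)) →
      ∀ D : Derivation ℤ UF UF, (∀ z ∈ UK, D z = 0) → (∀ i, D (rh fun k => a k i) = 0) → (gm C).map D = 0) :
    ∃ k : ℕ, ∀ (η : ℂ), 1 < ‖η‖ → ∀ w : ι → ℂ,
      (∀ P : MvPolynomial (ι ⊕ Fin (2 * m) × Fin (2 * m)) ℚ, P.totalDegree ≤ k →
        MvPolynomial.aeval (Sum.elim w fun z : Fin (2 * m) × Fin (2 * m) =>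
          Hf (Hc (2 * m) (QB β)) (1 / η) z.1 z.2) P = 0 →
        ∀ h : Matrix (Fin (2 * m)) (Fin (2 * m)) ℂ, hᵀ * cq (Jm (2 * m) (QB β)) * h = cq (Jm (2 * m) (QB β)) →
        MvPolynomial.aeval (Sum.elim w fun z : Fin (2 * m) × Fin (2 * m) => h z.1 z.2) P = 0) →
      ∀ (l : ℂ) (C : Matrix (Fin (2 * m)) (Fin (2 * m)) ℂ)
        (M A : Matrix (Fin (2 * m)) (Fin (2 * m)) ℚ) (q κ : ℂ), 𝒞 w q κ C A → C.det ≠ 0 → q ≠ 0 →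
        C * cq M = q • (NN ℂ (2 * m) * C) → κ ≠ 0 → C * cq A * Cᵀ = κ • SS ℂ (2 * m) → Conc_x β η l C A := by
  have hβ' : ∀ j, ∀ l : ℕ, (l : ℚ) + β j ≠ 0 ∧ (l : ℚ) + -β j ≠ 0 := by
    intro j l
    constructor
    · intro h
      apply hβ j (-(l : ℤ))
      push_cast
      linear_combination h
    · intro h
      apply hβ j (l : ℤ)
      push_cast
      linear_combination -h
  have hQ : QD (2 * m) (QB β) := QD_QB (by omega) hβ'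
  by_contra hcon
  push Not at hcon
  have h1 : ∀ k : ℕ, ∃ (η l : ℂ) (w : ι → ℂ) (C : Matrix (Fin (2 * m)) (Fin (2 * m)) ℂ)
      (M A X : Matrix (Fin (2 * m)) (Fin (2 * m)) ℚ) (q κ : ℂ)
      (x : Fin (2 * m * (2 * m)) → Matrix (Fin (2 * m)) (Fin (2 * m)) ℚ), q ≠ 0 ∧ X * A + A * Xᵀ = 0 ∧
      X ∉ Submodule.span ℚ (Set.range x) ∧ 𝒞 w q κ C A ∧ κ ≠ 0 ∧ C * cq A * Cᵀ = κ • SS ℂ (2 * m) ∧
      (∀ P : MvPolynomial (ι ⊕ Fin (2 * m) × Fin (2 * m)) ℚ, P.totalDegree ≤ k →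
        MvPolynomial.aeval (Sum.elim w fun z : Fin (2 * m) × Fin (2 * m) =>
          Hf (Hc (2 * m) (QB β)) (1 / η) z.1 z.2) P = 0 →
        ∀ h : Matrix (Fin (2 * m)) (Fin (2 * m)) ℂ, hᵀ * cq (Jm (2 * m) (QB β)) * h = cq (Jm (2 * m) (QB β)) →
        MvPolynomial.aeval (Sum.elim w fun z : Fin (2 * m) × Fin (2 * m) => h z.1 z.2) P = 0) ∧
      ∃ (B Λ Φ : Matrix (Fin (2 * m)) (Fin (2 * m)) ℂ) (κ' c : ℂ),
      ID (Jm (2 * m) (QB β)) (DN β) q k (Hf (Hc (2 * m) (QB β)) (1 / η)) (Ccx β l C) B Λ Φ M A x κ' c := by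
    intro k
    obtain ⟨η, ht2, w, hgen2, l, C, M, A, q, κ, hCC, hC, hq, hM, hκ, hA, hnot⟩ := hcon k
    unfold Conc_x at hnot
    push Not at hnot
    obtain ⟨Fil, Hh, hFil, hHh, V, hV, hΦ, X, hX, hXV⟩ := hnot
    obtain ⟨x, hx⟩ := exists_family V
    refine ⟨η, l, w, C, M, A, X, q, κ, x, hq, hX, by rwa [hx], hCC, hκ, hA, hgen2,
      index_x2 (by omega) hQ ht2 l ?_ hC hM hκ hA hFil hHh ?_ ?_⟩
    · intro P hP h0 h hh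
      have h2 := hgen2 (MvPolynomial.rename Sum.inr P) ((MvPolynomial.totalDegree_rename_le _ _).trans hP) (by
        rw [MvPolynomial.aeval_rename]
        exact h0) h hh
      rw [MvPolynomial.aeval_rename] at h2
      exact h2
    · intro a b
      rw [hx]
      have hxa : ∀ a, x a ∈ V := fun a => by
        rw [← hx]
        exact Submodule.subset_span ⟨a, rfl⟩
      exact hV _ (hxa a) _ (hxa b)
    · intro Φ hΦ'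
      refine (Submodule.span_le.2 ?_) (hΦ Φ hΦ')
      rintro _ ⟨Y, hY, rfl⟩
      refine cq_span ?_
      rw [hx]
      exact hY
  choose η l w C M A X q κ x hq hX hXx hCC hκ hA hgen B Λ Φ κ' c hID using h1
  have hJr : (NN ℂ (2 * m))ᵀ * cq (Jm (2 * m) (QB β)) = -(cq (Jm (2 * m) (QB β)) * NN ℂ (2 * m)) := by
    have h2 : (cm (Am (2 * m))).transpose * cm (Jm (2 * m) (QB β)) + cm (Jm (2 * m) (QB β)) * cm (Am (2 * m)) = 0 :=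
      Pool.Agent.Y119.HY.Jc_rel
    rw [← NN_eq] at h2
    exact eq_neg_of_add_eq_zero_left h2
  have hD0 : cq (DN β)⁻¹ * NN ℂ (2 * m) = NN ℂ (2 * m) * cq (DN β)⁻¹ := by
    rw [NN_eq]
    exact (DN_comm hQ : Commute (cm (DN β)⁻¹) (cm (Am (2 * m))))
  obtain ⟨k, hk⟩ := ultra2 Pool.Agent.Y412.MT.lie1 Pool.Agent.Y961.MT.lie2 Pool.Agent.Y195.MT.lie3 Pool.Agent.Y155.MT.fin hm
    (a := w) hq (Jm_det hQ) (Jm_skew hQ) hJr hD0 (s := fun k => -(l k)) (C := C)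
    (hK w q κ C A hCC hκ hA) hID (by
      intro k
      show cm (DN β)⁻¹ * E (cm (Am (2 * m))) (-(l k)) * C k = _
      rw [cm_cq]
      congr 2
      unfold E EF
      rw [NN_eq]) hgen hX
  exact hXx k hk

/-- **Windows of algebraic points of growing degree for a class of base changes.** -/
theorem win_core_g (hm : 2 ≤ m) (hβ : ∀ j, ∀ a : ℤ, β j ≠ a) : ∃ G0 : ℕ, 1 ≤ G0 ∧ ∀ G : ℕ, G0 ≤ G →
    ∀ (ι : Type) [Fintype ι] [DecidableEq ι]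
      (𝒞 : (ι → ℂ) → ℂ → ℂ → Matrix (Fin (2 * m)) (Fin (2 * m)) ℂ → Matrix (Fin (2 * m)) (Fin (2 * m)) ℚ → Prop),
    (∀ (a : ℕ → ι → ℂ) (q κ : ℕ → ℂ) (C : ℕ → Matrix (Fin (2 * m)) (Fin (2 * m)) ℂ)
      (A : ℕ → Matrix (Fin (2 * m)) (Fin (2 * m)) ℚ), (∀ k, 𝒞 (a k) (q k) (κ k) (C k) (A k)) → (∀ k, κ k ≠ 0) →
      (∀ k, C k * cq (A k) * (C k)ᵀ = κ k • SS ℂ (2 * m)) →
      ∀ D : Derivation ℤ UF UF, (∀ z ∈ UK, D z = 0) → (∀ i, D (rh fun k => a k i) = 0) → (gm C).map D = 0) →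
    ∃ ef : ℕ → ℕ, PB ef ∧ ∀ (g H : ℕ) (ξ : ℂ), ((H : ℝ) + 2) ^ ef g ≤ ‖ξ‖ → Ht g g ξ →
      (∀ u ≤ H, 2 ≤ ‖ξ - ((G * u : ℕ) : ℂ)‖) ∧
      ∀ w : ι → ℂ, ∃ S : Finset ℕ, S.card ≤ Fintype.card ι ∧
      ∀ u : ℕ, 1 ≤ u → u ≤ H → u ∉ S → ∀ (l : ℂ) (C : Matrix (Fin (2 * m)) (Fin (2 * m)) ℂ)
        (M A : Matrix (Fin (2 * m)) (Fin (2 * m)) ℚ) (q κ : ℂ), 𝒞 w q κ C A → C.det ≠ 0 → q ≠ 0 →
        C * cq M = q • (NN ℂ (2 * m) * C) → κ ≠ 0 → C * cq A * Cᵀ = κ • SS ℂ (2 * m) →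
        Conc_x β (ξ - ((G * u : ℕ) : ℂ)) l C A := by
  have hβ' : ∀ j, ∀ l : ℕ, (l : ℚ) + β j ≠ 0 ∧ (l : ℚ) + -β j ≠ 0 := by
    intro j l
    constructor
    · intro h
      apply hβ j (-(l : ℤ))
      push_cast
      linear_combination h
    · intro h
      apply hβ j (l : ℤ)
      push_cast
      linear_combination -h
  have hQ : QD (2 * m) (QB β) := QD_QB (by omega) hβ'
  obtain ⟨G0, hG01, hG0⟩ := one_win_g hQ (fun i j => sdc_hps hβ' hQ i j)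
  refine ⟨G0, hG01, fun G hG ι _ _ 𝒞 hK => ?_⟩
  obtain ⟨k, hk⟩ := core_k hm hβ 𝒞 hK
  obtain ⟨ef, hefp, hef⟩ := hG0 G hG (Fintype.card ι)
  refine ⟨fun g => ef (g + (k + 1)), hefp.comp (PB.id.add (PB.const (k + 1))), fun g H ξ hξ hht => ?_⟩
  have hH2 : (1 : ℝ) ≤ (H : ℝ) + 2 := by
    have : (0 : ℝ) ≤ H := Nat.cast_nonneg H
    linarith
  have hξ1 : (1 : ℝ) ≤ ‖ξ‖ := le_trans (one_le_pow₀ hH2) hξ
  obtain ⟨h1, h2⟩ := hef (g + (k + 1)) H ξ hξ (ht_mono (Nat.le_add_right _ _) (Nat.le_add_right _ _) hξ1 hht)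
  refine ⟨h1, fun w => ?_⟩
  obtain ⟨S, hS, h3⟩ := h2 ι rfl w
  refine ⟨S, hS, fun u hu1 hu2 huS => hk _ (by linarith [h1 u hu2]) w ?_⟩
  intro R hR h0 h hh
  have h4 := h3 u hu1 hu2 huS ⊥ inferInstance (by rw [IntermediateField.finrank_bot]; omega)
    (MvPolynomial.map (algebraMap ℚ (⊥ : IntermediateField ℚ ℂ)) R)
    (((Finset.sup_mono (MvPolynomial.support_map_subset _ _)).trans hR).trans (by omega)) (by
      rw [MvPolynomial.aeval_map_algebraMap]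
      exact h0) h hh
  rwa [MvPolynomial.aeval_map_algebraMap] at h4

/-- **the uniform windows theorem for algebraic points of growing degree** -/
theorem win_unif_g (nf : S_NF) (td : S_TD) (hm : 2 ≤ m) (hβ : ∀ j, ∀ a : ℤ, β j ≠ a) : ∃ G0 : ℕ, 1 ≤ G0 ∧ ∀ G : ℕ,
    G0 ≤ G → ∃ ef : ℕ → ℕ, PB ef ∧ ∀ (g H : ℕ) (ξ : ℂ), ((H : ℝ) + 2) ^ ef g ≤ ‖ξ‖ → Ht g g ξ →
      (∀ u ≤ H, 2 ≤ ‖ξ - ((G * u : ℕ) : ℂ)‖) ∧
      ∀ (C : Matrix (Fin (2 * m)) (Fin (2 * m)) ℂ) (M : Matrix (Fin (2 * m)) (Fin (2 * m)) ℚ) (q : ℂ), C.det ≠ 0 → q ≠ 0 →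
      C * cq M = q • (NN ℂ (2 * m) * C) → ∃ S : Finset ℕ, S.card ≤ m + 1 ∧
      ∀ u : ℕ, 1 ≤ u → u ≤ H → u ∉ S → ∀ (l : ℂ) (A : Matrix (Fin (2 * m)) (Fin (2 * m)) ℚ) (κ : ℂ),
        κ ≠ 0 → C * cq A * Cᵀ = κ • SS ℂ (2 * m) → Conc_x β (ξ - ((G * u : ℕ) : ℂ)) l C A := by
  obtain ⟨G0, hG01, hG0⟩ := win_core_g hm hβ
  refine ⟨G0, hG01, fun G hG => ?_⟩
  obtain ⟨ef, hefp, hef⟩ := hG0 G hG (Fin 0 ⊕ Fin (m + 1)) (fun a q _ C _ => Nrm m a q C)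
    (fun a q κ C A h hκ hA D hD hDa => nrm_kill td h hκ hA D hD hDa)
  refine ⟨ef, hefp, fun g H ξ hξ hht => ?_⟩
  obtain ⟨h1, h2⟩ := hef g H ξ hξ hht
  refine ⟨h1, fun C M q hC hq hM => ?_⟩
  obtain ⟨a, w, ha, hN⟩ := nrm_exists nf (by omega) hC hq hM
  obtain ⟨S, hS, hS2⟩ := h2 (Sum.elim Fin.elim0 w)
  refine ⟨S, ?_, fun u hu1 hu2 huS l A κ hκ hA => ?_⟩
  · rw [Fintype.card_sum, Fintype.card_fin, Fintype.card_fin, zero_add] at hS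
    exact hS
  · refine Conc_x_smul ha (hS2 u hu1 hu2 huS l (a • C) M A q (a * a * κ) hN ?_ hq ?_ (mul_ne_zero (mul_ne_zero ha ha) hκ) ?_)
    · rw [Matrix.det_smul]
      exact mul_ne_zero (pow_ne_zero _ ha) hC
    · rw [Matrix.smul_mul, hM, Matrix.mul_smul, smul_comm]
    · rw [Matrix.transpose_smul, Matrix.smul_mul, Matrix.smul_mul, Matrix.mul_smul, hA, smul_smul, smul_smul]

end

end Pool.Agent.R351.GD.H
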