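import Pool.Agent.R351.GD.H.FlagG
import Pool.Agent.Y119.HA.Mt

/-!
# Mumford–Tate Lie algebras at algebraic points of growing degree
-/

set_option autoImplicit false
set_option maxHeartbeats 400000

open Matrix PowerSeries Pool.Agent.Y113 Pool.Agent.Y120.GF Pool.Agent.Y120.GH
open Pool.Agent.Y119.HY Pool.Agent.Y119.HZ Pool.Agent.Y118.CM Pool.Agent.Y113.MT
open Pool.Agent.Y916.Al (Ht)
open Pool.Agent.Y119.HA

namespace Pool.Agent.R351.GD.H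

/-- relations of fixed degree over number fields of growing degree -/
theorem one_fibre_e {n : ℕ} {Q : Polynomial ℚ} (hQ : QD n Q) (hH : ∀ i j, SDc (Hp n Q i j)) (d : ℕ) :
    ∃ C : ℕ, ∀ (D : ℕ) (ξ : ℂ), (2 : ℝ) ^ ((D + 2) ^ C) ≤ ‖ξ‖ → Ht D D ξ →
    ∀ K : IntermediateField ℚ ℂ, FiniteDimensional ℚ K → Module.finrank ℚ K ≤ D + 1 →
    ∀ P : MvPolynomial (Fin n × Fin n) K, P.totalDegree ≤ d →
    MvPolynomial.aeval (fun x => Hf (Hc n Q) (1 / ξ) x.1 x.2) P = 0 →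
    ∀ g : Matrix (Fin n) (Fin n) ℂ, g.transpose * cm (Jm n Q) * g = cm (Jm n Q) →
    MvPolynomial.aeval (fun x => g x.1 x.2) P = 0 := by
  obtain ⟨C₀, hC₀⟩ := one_fibre_exp hQ hH
  obtain ⟨C, hC⟩ : PB fun D => (D + (d + 1) + 2) ^ C₀ := ((PB.id.add (PB.const (d + 1))).add (PB.const 2)).pow C₀
  refine ⟨C, fun D ξ hξ hHt K hK hKD P hPd hP0 g hg => ?_⟩
  have h1 : (1 : ℝ) ≤ ‖ξ‖ := by linarith [two_le hξ]
  refine hC₀ (D + (d + 1)) ξ ?_ (ht_mono (Nat.le_add_right _ _) (Nat.le_add_right _ _) h1 hHt) K hK (hKD.trans (by omega)) P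
    (hPd.trans (by omega)) hP0 g hg
  exact (pow_le_pow_right₀ (by norm_num) (hC D)).trans hξ

/-- **The Hodge structures at the algebraic points near `0` are Hodge generic.** -/
theorem main_mtg {m : ℕ} {β : Fin m → ℚ} (hm : 4 ≤ m) (hβ : ∀ j, ∀ a : ℤ, β j ≠ a) : ∃ t0 : ℕ, ∀ (D : ℕ) (ξ l : ℂ),
    (2 : ℝ) ^ ((D + 2) ^ t0) ≤ ‖ξ‖ → Ht D D ξ →
    ∀ (C : Matrix (Fin (2 * m)) (Fin (2 * m)) ℂ) (M A : Matrix (Fin (2 * m)) (Fin (2 * m)) ℚ) (q κ : ℂ), C.det ≠ 0 → q ≠ 0 →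
    C * cq M = q • (NN ℂ (2 * m) * C) → κ ≠ 0 → C * cq A * Cᵀ = κ • SS ℂ (2 * m) →
    ∀ Fil H : ℕ → Submodule ℂ (Fin (2 * m) → ℂ), (∀ p, m ≤ p → Fil p = Flx β ξ l C p) → Polarised Fil A H →
    ∀ V : Submodule ℚ (Matrix (Fin (2 * m)) (Fin (2 * m)) ℚ), (∀ X ∈ V, ∀ Y ∈ V, X * Y - Y * X ∈ V) →
    (∀ Φ : Matrix (Fin (2 * m)) (Fin (2 * m)) ℂ, (∀ p < 2 * m, ∀ v ∈ H p, v ᵥ* Φ = (p : ℂ) • v) →
      Φ ∈ Submodule.span ℂ (cq '' (V : Set (Matrix (Fin (2 * m)) (Fin (2 * m)) ℚ)))) →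
    ∀ X : Matrix (Fin (2 * m)) (Fin (2 * m)) ℚ, X * A + A * Xᵀ = 0 → X ∈ V := by
  have hβ' : ∀ j, ∀ l : ℕ, (l : ℚ) + β j ≠ 0 ∧ (l : ℚ) + -β j ≠ 0 := by
    intro j l
    constructor
    · intro h
      apply hβ j (-(l : ℤ))
      push_cast
      linear_combination h
    · intro h
      apply hβ j (l : ℤ)
      push_cast
      linear_combination -h
  have hQ : QD (2 * m) (QB β) := QD_QB (by omega) hβ'
  by_contra hcon
  push Not at hcon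
  choose T hT using fun k => one_fibre_e hQ (fun i j => sdc_hps hβ' hQ i j) k
  have h1 : ∀ k : ℕ, ∃ (C : Matrix (Fin (2 * m)) (Fin (2 * m)) ℂ) (M A X : Matrix (Fin (2 * m)) (Fin (2 * m)) ℚ) (q : ℂ)
      (x : Fin (2 * m * (2 * m)) → Matrix (Fin (2 * m)) (Fin (2 * m)) ℚ), q ≠ 0 ∧ X * A + A * Xᵀ = 0 ∧
      X ∉ Submodule.span ℚ (Set.range x) ∧ ∃ (g G B Λ Φ : Matrix (Fin (2 * m)) (Fin (2 * m)) ℂ) (κ' c : ℂ),
      ID (Jm (2 * m) (QB β)) (DN β) q k g G B Λ Φ M A x κ' c := by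
    intro k
    obtain ⟨D, ξ, l, hξ, hht, C, M, A, q, κ, hC, hq, hM, hκ, hA, Fil, H, hFil, hH, V, hV, hΦ, X, hX, hXV⟩ := hcon (T k)
    obtain ⟨x, hx⟩ := exists_family V
    have ht2 : (2 : ℝ) ≤ ‖ξ‖ := two_le hξ
    refine ⟨C, M, A, X, q, x, hq, hX, by rwa [hx], index_x (by omega) hQ (by linarith) l (fun K hK hKD => hT k D ξ hξ hht K hK (hKD.trans (Nat.le_add_left _ _))) hC hM hκ hA hFil hH ?_ ?_⟩
    · intro a b
      rw [hx]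
      have hxa : ∀ a, x a ∈ V := fun a => by
        rw [← hx]
        exact Submodule.subset_span ⟨a, rfl⟩
      exact hV _ (hxa a) _ (hxa b)
    · intro Φ hΦ'
      refine (Submodule.span_le.2 ?_) (hΦ Φ hΦ')
      rintro _ ⟨Y, hY, rfl⟩
      refine cq_span ?_
      rw [hx]
      exact hY
  choose C M A X q x hq hX hXx g G B Λ Φ κ' c hID using h1
  have hJr : (NN ℂ (2 * m))ᵀ * cq (Jm (2 * m) (QB β)) = -(cq (Jm (2 * m) (QB β)) * NN ℂ (2 * m)) := by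
    have h2 : (cm (Am (2 * m))).transpose * cm (Jm (2 * m) (QB β)) + cm (Jm (2 * m) (QB β)) * cm (Am (2 * m)) = 0 :=
      Pool.Agent.Y119.HY.Jc_rel
    rw [← NN_eq] at h2
    exact eq_neg_of_add_eq_zero_left h2
  obtain ⟨k, hk⟩ := ultra Pool.Agent.Y412.MT.lie1 Pool.Agent.Y961.MT.lie2 Pool.Agent.Y195.MT.lie3 Pool.Agent.Y155.MT.fin
    Pool.Agent.Y155.MT.eb Pool.Agent.Y872.MT.gen hm hq (Jm_det hQ) (Jm_skew hQ) hJr hID hX
  exact hXx k hk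

end Pool.Agent.R351.GD.H
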