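import Pool.Agent.Y119.HA.Base
import Pool.Agent.R351.GD.H.Cay
import Pool.Agent.R351.GD.H.Bas

/-!
# Hypergeometric functions: the relations between the products of `δ` entries of the period matrix
-/

set_option autoImplicit false

open Matrix PowerSeries Pool.Agent.Y113 Pool.Agent.Y120.GF Pool.Agent.Y120.GH Pool.Agent.Y119.HZ
open Pool.Agent.Y119.HY (QD Jm cm)

namespace Pool.Agent.R351.GD.H

variable {n : ℕ} {Q : Polynomial ℚ}

/-- clearing denominators -/
theorem clr (M : Matrix (Fin n) (Fin n) ℚ) : ∃ (D : ℕ) (K : Matrix (Fin n) (Fin n) ℤ), D ≠ 0 ∧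
    (Int.castRingHom ℚ).mapMatrix K = (D : ℚ) • M := by
  classical
  set D : ℕ := ∏ p : Fin n × Fin n, (M p.1 p.2).den with hD
  have hD0 : D ≠ 0 := Finset.prod_ne_zero_iff.2 fun p _ => (M p.1 p.2).den_nz
  have h1 : ∀ i j, ∃ b : ℤ, (b : ℚ) = D * M i j := by
    intro i j
    obtain ⟨c, hc⟩ : (M i j).den ∣ D :=
      Finset.dvd_prod_of_mem (fun p : Fin n × Fin n => (M p.1 p.2).den) (Finset.mem_univ (i, j))
    refine ⟨c * (M i j).num, ?_⟩
    have h2 := Rat.mul_den_eq_num (M i j)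
    rw [hc]
    push_cast
    rw [← h2]
    ring
  choose b hb using h1
  refine ⟨D, Matrix.of b, hD0, ?_⟩
  ext i j
  rw [RingHom.mapMatrix_apply, map_apply, of_apply, Matrix.smul_apply, smul_eq_mul, ← hb]
  rfl

/-- the integral inverse of the form -/
structure IK (n : ℕ) (Q : Polynomial ℚ) (d : ℕ) (K : Matrix (Fin n) (Fin n) ℤ) : Prop where
  ne : d ≠ 0
  eq : (Int.castRingHom ℚ).mapMatrix K = (d : ℚ) • (Jm n Q)⁻¹

theorem exists_IK (n : ℕ) (Q : Polynomial ℚ) : ∃ (d : ℕ) (K : Matrix (Fin n) (Fin n) ℤ), IK n Q d K := by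
  obtain ⟨d, K, h1, h2⟩ := clr (Jm n Q)⁻¹
  exact ⟨d, K, h1, h2⟩

/-- integral matrices in a ring -/
def zm {R : Type} [CommRing R] (K : Matrix (Fin n) (Fin n) ℤ) : Matrix (Fin n) (Fin n) R :=
  (Int.castRingHom R).mapMatrix K

theorem zm_map {R R' : Type} [CommRing R] [CommRing R'] (f : R →+* R') (K : Matrix (Fin n) (Fin n) ℤ) :
    f.mapMatrix (zm K) = zm K := by
  ext i j
  unfold zm
  rw [RingHom.mapMatrix_apply, map_apply, RingHom.mapMatrix_apply, map_apply, RingHom.mapMatrix_apply, map_apply]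
  simp

/-- the form over a ring over the rationals -/
theorem IK.jk {d : ℕ} {K : Matrix (Fin n) (Fin n) ℤ} (h : IK n Q d K) (hQ : QD n Q) {R : Type} [CommRing R]
    (f : ℚ →+* R) : f.mapMatrix (Jm n Q) * zm K = (d : R) • (1 : Matrix _ _ R) ∧
      zm K * f.mapMatrix (Jm n Q) = (d : R) • (1 : Matrix _ _ R) ∧
      (f.mapMatrix (Jm n Q))ᵀ = -f.mapMatrix (Jm n Q) := by
  have hu : IsUnit (Jm n Q).det := isUnit_iff_ne_zero.2 (Pool.Agent.Y119.HY.Jm_det hQ)
  have h0 : zm K = f.mapMatrix ((d : ℚ) • (Jm n Q)⁻¹) := by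
    rw [← h.eq]
    exact (zm_map f K).symm
  have hd : ∀ M : Matrix (Fin n) (Fin n) ℚ, f.mapMatrix ((d : ℚ) • M) = (d : R) • f.mapMatrix M := by
    intro M
    ext i j
    rw [RingHom.mapMatrix_apply, map_apply, Matrix.smul_apply, Matrix.smul_apply, smul_eq_mul, map_mul, map_natCast,
      RingHom.mapMatrix_apply, map_apply, smul_eq_mul]
  refine ⟨?_, ?_, ?_⟩
  · rw [h0, hd, mul_smul_comm, ← map_mul, mul_nonsing_inv _ hu, map_one]
  · rw [h0, hd, smul_mul_assoc, ← map_mul, nonsing_inv_mul _ hu, map_one]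
  · have h1 := Pool.Agent.Y119.HY.Jm_skew hQ
    have h2 : (f.mapMatrix (Jm n Q))ᵀ = f.mapMatrix (Jm n Q)ᵀ := rfl
    rw [h2, h1]
    ext i j
    simp

/-- the generic numerators and denominator -/
noncomputable def uu (K : Matrix (Fin n) (Fin n) ℤ) (o : Option (Fin (n * n))) : MvPolynomial (Sx n) ℤ :=
  o.elim (cD (zm K) MvPolynomial.X) fun j => cN (zm K) MvPolynomial.X (ix n j).1 (ix n j).2

theorem uu_at {R : Type} [CommRing R] (K : Matrix (Fin n) (Fin n) ℤ) (f : MvPolynomial (Sx n) ℤ →+* R) :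
    f (uu K none) = cD (zm K) (fun p => f (MvPolynomial.X p)) ∧
      ∀ j, f (uu K (some j)) = cN (zm K) (fun p => f (MvPolynomial.X p)) (ix n j).1 (ix n j).2 := by
  constructor
  · show f (cD (zm K) MvPolynomial.X) = _
    rw [← cD_map, zm_map]
  · intro j
    show f (cN (zm K) MvPolynomial.X (ix n j).1 (ix n j).2) = _
    have h1 := cN_map f (zm K : Matrix (Fin n) (Fin n) (MvPolynomial (Sx n) ℤ)) MvPolynomial.X
    rw [zm_map] at h1
    rw [h1]
    rfl

/-- the products at a point of the group -/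
theorem FF_at {R : Type} [CommRing R] (K : Matrix (Fin n) (Fin n) ℤ) (f : MvPolynomial (Sx n) ℤ →+* R)
    {Z : Matrix (Fin n) (Fin n) R} (hZ : cN (zm K) (fun p => f (MvPolynomial.X p)) =
      cD (zm K) (fun p => f (MvPolynomial.X p)) • Z) {δ : ℕ} (w : Fin δ → Option (Fin (n * n))) :
    f (∏ i, uu K (w i)) = cD (zm K) (fun p => f (MvPolynomial.X p)) ^ δ *
      yw (fun j => Z (ix n j).1 (ix n j).2) w := by
  obtain ⟨h1, h2⟩ := uu_at K f
  rw [map_prod, yw]
  have h3 : ∀ i, f (uu K (w i)) = cD (zm K) (fun p => f (MvPolynomial.X p)) *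
      (w i).elim 1 (fun j => Z (ix n j).1 (ix n j).2) := by
    intro i
    rcases w i with _ | j
    · rw [h1, Option.elim_none, mul_one]
    · rw [h2, hZ, Option.elim_some, Matrix.smul_apply, smul_eq_mul]
  rw [Finset.prod_congr rfl fun i _ => h3 i, Finset.prod_mul_distrib, Finset.prod_const, Finset.card_univ,
    Fintype.card_fin]

section
variable {d : ℕ} {K : Matrix (Fin n) (Fin n) ℤ} {δ : ℕ} {B : Finset (Fin δ → Option (Fin (n * n)))} {a : ℤ}
  {M : (Fin δ → Option (Fin (n * n))) → B → ℤ}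

/-- **the relations hold for the power series** -/
theorem rel_ps (hQ : QD n Q) (hK : IK n Q d K)
    (hrel : ∀ w, MvPolynomial.C a * ∏ i, uu K (w i) = ∑ b, MvPolynomial.C (M w b) * ∏ i, uu K (b.1 i))
    (w : Fin δ → Option (Fin (n * n))) :
    (a : ℚ⟦X⟧) * yw (hf n Q) w = ∑ b, (M w b : ℚ⟦X⟧) * yw (hf n Q) b.1 := by
  classical
  obtain ⟨-, hKJ, hJ⟩ := hK.jk hQ (C : ℚ →+* ℚ⟦X⟧)
  have hZ := form_Hp hQ
  -- the inverse of `Z + 1`
  have hc0 : constantCoeff (Hp n Q + 1).det = (2 : ℚ) ^ n := by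
    rw [RingHom.map_det]
    have h1 : (constantCoeff (R := ℚ)).mapMatrix (Hp n Q + 1) = (2 : ℚ) • (1 : Matrix _ _ ℚ) := by
      ext i j
      rw [RingHom.mapMatrix_apply, map_apply, Matrix.add_apply, map_add, Matrix.smul_apply, one_apply, one_apply]
      have h2 : constantCoeff (Hp n Q i j) = Pool.Agent.Y119.HY.Hq n Q 0 i j := by
        rw [← coeff_zero_eq_constantCoeff_apply]
        exact congrFun (congrFun (cf_Hp (Q := Q) 0) i) j
      rw [h2, Pool.Agent.Y119.HY.Hq_zero, Matrix.one_apply]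
      split_ifs <;> simp <;> norm_num
    rw [h1, det_smul, det_one, mul_one, Fintype.card_fin]
  have hu : IsUnit (Hp n Q + 1).det := by
    rw [PowerSeries.isUnit_iff_constantCoeff, hc0]
    exact isUnit_iff_ne_zero.2 (by positivity)
  have hW : (Hp n Q + 1) * (Hp n Q + 1)⁻¹ = 1 := mul_nonsing_inv _ hu
  have hed : (C (1 / (d : ℚ)) : ℚ⟦X⟧) * (d : ℚ⟦X⟧) = 1 := by
    have h1 : ((d : ℚ⟦X⟧)) = C (d : ℚ) := by rw [map_natCast]
    have h2 : (d : ℚ) ≠ 0 := by exact_mod_cast hK.ne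
    rw [h1, ← map_mul, one_div, inv_mul_cancel₀ h2, map_one]
  set S : Matrix (Fin n) (Fin n) ℚ⟦X⟧ :=
    (C (1 / (d : ℚ)) : ℚ⟦X⟧) • (km (Jm n Q) * ((Hp n Q - 1) * (Hp n Q + 1)⁻¹)) with hS
  set f : MvPolynomial (Sx n) ℤ →+* ℚ⟦X⟧ := MvPolynomial.eval₂Hom (Int.castRingHom _) (fun p => S p.1.1 p.1.2) with hf0
  have hfX : (fun p => f (MvPolynomial.X p)) = fun p : Sx n => S p.1.1 p.1.2 := by
    funext p
    rw [hf0, MvPolynomial.eval₂Hom_X']
  obtain ⟨h1, h2⟩ := cay_at (s := fun p => f (MvPolynomial.X p)) hJ hKJ hed hZ hW (fun p => by rw [congrFun hfX p]; rfl)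
  set D₀ := cD (zm K) (fun p => f (MvPolynomial.X p)) with hD₀
  have hD0 : D₀ ≠ 0 := by
    intro h0
    rw [h0, zero_mul] at h2
    have h3 : (2 : ℚ⟦X⟧) ≠ 0 := by
      intro h4
      have h5 := congrArg (constantCoeff (R := ℚ)) h4
      rw [map_ofNat, map_zero] at h5
      norm_num at h5
    exact pow_ne_zero n h3 h2.symm
  have h3 := congrArg f (hrel w)
  rw [map_mul, map_sum, FF_at K f h1] at h3
  simp only [map_mul] at h3
  have h4 : ∀ z : ℤ, f (MvPolynomial.C z) = (z : ℚ⟦X⟧) := fun z => by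
    rw [hf0, MvPolynomial.eval₂Hom_C, eq_intCast]
  rw [h4] at h3
  refine mul_left_cancel₀ (pow_ne_zero δ hD0) ?_
  calc D₀ ^ δ * ((a : ℚ⟦X⟧) * yw (hf n Q) w) = (a : ℚ⟦X⟧) * (D₀ ^ δ * yw (hf n Q) w) := by ring
    _ = ∑ b, f (MvPolynomial.C (M w b)) * f (∏ i, uu K (b.1 i)) := h3
    _ = _ := by
        rw [Finset.mul_sum]
        refine Finset.sum_congr rfl fun b _ => ?_
        rw [h4, FF_at K f h1]
        show _ * (D₀ ^ δ * yw (hf n Q) b.1) = _
        ring

theorem aeval_ywR (c : B → Polynomial ℚ) {A : Type} [CommRing A] (f : MvPolynomial (Fin (n * n)) (Polynomial ℚ) →+* A) :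
    f (∑ b : B, MvPolynomial.C (c b) * yw (fun j => MvPolynomial.X j) b.1) =
      ∑ b : B, f (MvPolynomial.C (c b)) * yw (fun j => f (MvPolynomial.X j)) b.1 := by
  rw [map_sum]
  refine Finset.sum_congr rfl fun b _ => ?_
  rw [map_mul]
  congr 1
  exact yw_map f.toMonoidHom (fun j => (MvPolynomial.X j : MvPolynomial (Fin (n * n)) (Polynomial ℚ))) b.1

/-- relations between the products of power series hold on the group -/
theorem rel_grp (hQ : QD n Q) (c : B → Polynomial ℚ) (h : ∑ b : B, (c b : ℚ⟦X⟧) * yw (hf n Q) b.1 = 0) {z : ℂ}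
    (hz : ‖z‖ < 1) {g : Matrix (Fin n) (Fin n) ℂ} (hg : g.transpose * cm (Jm n Q) * g = cm (Jm n Q)) :
    ∑ b : B, Polynomial.aeval z (c b) * yw (fun j => g (ix n j).1 (ix n j).2) b.1 = 0 := by
  have h1 := Pool.Agent.Y119.HA.mem_Vc hQ hz hg (∑ b : B, MvPolynomial.C (c b) * yw (fun j => MvPolynomial.X j) b.1) (by
    have h2 := aeval_ywR c (MvPolynomial.aeval (R := Polynomial ℚ) (hf n Q)).toRingHom
    refine h2.trans ?_
    rw [← h]
    refine Finset.sum_congr rfl fun b _ => ?_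
    congr 1
    · show MvPolynomial.aeval (hf n Q) (MvPolynomial.C (c b)) = _
      rw [MvPolynomial.aeval_C, PowerSeries.algebraMap_apply']
      simp
    · congr 1
      funext j
      show MvPolynomial.aeval (hf n Q) (MvPolynomial.X j) = _
      rw [MvPolynomial.aeval_X])
  have h3 := aeval_ywR c (MvPolynomial.eval₂Hom (Polynomial.aeval z : Polynomial ℚ →ₐ[ℚ] ℂ).toRingHom
    (fun j => g (ix n j).1 (ix n j).2))
  have h4 : (MvPolynomial.eval₂Hom (Polynomial.aeval z : Polynomial ℚ →ₐ[ℚ] ℂ).toRingHom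
    (fun j => g (ix n j).1 (ix n j).2)) (∑ b : B, MvPolynomial.C (c b) * yw (fun j => MvPolynomial.X j) b.1) = 0 := h1
  rw [h4] at h3
  rw [h3]
  refine Finset.sum_congr rfl fun b _ => ?_
  simp only [MvPolynomial.eval₂Hom_C, MvPolynomial.eval₂Hom_X']
  rfl

/-- **the relations hold on the group** -/
theorem rel_sp (hQ : QD n Q) (hK : IK n Q d K)
    (hrel : ∀ w, MvPolynomial.C a * ∏ i, uu K (w i) = ∑ b, MvPolynomial.C (M w b) * ∏ i, uu K (b.1 i))
    {g : Matrix (Fin n) (Fin n) ℂ} (hg : g.transpose * cm (Jm n Q) * g = cm (Jm n Q))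
    (w : Fin δ → Option (Fin (n * n))) :
    (a : ℂ) * yw (fun j => g (ix n j).1 (ix n j).2) w = ∑ b, (M w b : ℂ) * yw (fun j => g (ix n j).1 (ix n j).2) b.1 := by
  classical
  have h1 := rel_ps hQ hK hrel w
  -- a relation for the finite set with `w`
  set B' : Finset (Fin δ → Option (Fin (n * n))) := insert w B with hB'
  set c : (Fin δ → Option (Fin (n * n))) → ℤ := fun v =>
    (if v = w then a else 0) - (if h : v ∈ B then M w ⟨v, h⟩ else 0) with hc
  have key : ∀ {A : Type} [CommRing A] (x : (Fin δ → Option (Fin (n * n))) → A),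
      ∑ b : B', (c b.1 : A) * x b.1 = (a : A) * x w - ∑ b : B, (M w b : A) * x b.1 := by
    intro A _ x
    rw [Finset.sum_coe_sort B' (fun v => (c v : A) * x v)]
    simp only [hc, Int.cast_sub, sub_mul, Finset.sum_sub_distrib]
    congr 1
    · rw [Finset.sum_eq_single w]
      · rw [if_pos rfl]
      · intro v _ hv
        rw [if_neg hv, Int.cast_zero, zero_mul]
      · intro h
        exact absurd (Finset.mem_insert_self w B) h
    · have h2 : ∑ v ∈ B', (((if h : v ∈ B then M w ⟨v, h⟩ else 0 : ℤ)) : A) * x v =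
          ∑ v ∈ B, (((if h : v ∈ B then M w ⟨v, h⟩ else 0 : ℤ)) : A) * x v := by
        refine (Finset.sum_subset (Finset.subset_insert w B) fun v _ hv => ?_).symm
        rw [dif_neg hv, Int.cast_zero, zero_mul]
      rw [h2, ← Finset.sum_coe_sort B]
      refine Finset.sum_congr rfl fun b _ => ?_
      rw [dif_pos b.2]
  have h3 := rel_grp (B := B') hQ (fun b => Polynomial.C ((c b.1 : ℤ) : ℚ)) (by
    have h4 := key (A := ℚ⟦X⟧) (fun v => yw (hf n Q) v)
    rw [h1, sub_self] at h4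
    rw [← h4]
    refine Finset.sum_congr rfl fun b _ => ?_
    congr 1
    rw [Polynomial.coe_C, map_intCast]) (z := 0) (by simp) hg
  have h5 := key (A := ℂ) (fun v => yw (fun j => g (ix n j).1 (ix n j).2) v)
  simp only [Polynomial.aeval_C] at h3
  rw [← sub_eq_zero, ← h5, ← h3]
  refine Finset.sum_congr rfl fun b _ => ?_
  congr 1

/-- **linear independence of the products in the basis** -/
theorem li_ps (hQ : QD n Q) (hK : IK n Q d K)
    (hli : ∀ c : B → ℚ, ∑ b, MvPolynomial.C (c b) * MvPolynomial.map (Int.castRingHom ℚ) (∏ i, uu K (b.1 i)) = 0 →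
      ∀ b, c b = 0) : LinearIndependent (Polynomial ℚ) (fun b : B => yw (hf n Q) b.1) := by
  classical
  rw [Fintype.linearIndependent_iff]
  intro c hc
  have hc' : ∑ b : B, (c b : ℚ⟦X⟧) * yw (hf n Q) b.1 = 0 := by
    rw [← hc]
    refine Finset.sum_congr rfl fun b _ => ?_
    rw [psmul]
  obtain ⟨hJK, -, hJ⟩ := hK.jk hQ (RingHom.id ℚ)
  have hJid : (RingHom.id ℚ).mapMatrix (Jm n Q) = Jm n Q := by
    ext i j
    simp
  rw [hJid] at hJK hJ
  have key : ∀ m : ℕ, ∀ b, (c b).eval (1 / ((m : ℚ) + 2)) = 0 := by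
    intro m
    refine hli (fun b => (c b).eval (1 / ((m : ℚ) + 2))) ?_
    set P := ∑ b : B, MvPolynomial.C ((c b).eval (1 / ((m : ℚ) + 2))) *
      MvPolynomial.map (Int.castRingHom ℚ) (∏ i, uu K (b.1 i)) with hP
    have hprod : P * MvPolynomial.map (Int.castRingHom ℚ) (uu K none) = 0 := by
      refine MvPolynomial.funext fun s => ?_
      rw [map_mul, map_zero]
      set f : MvPolynomial (Sx n) ℤ →+* ℚ := (MvPolynomial.eval s).comp (MvPolynomial.map (Int.castRingHom ℚ)) with hf0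
      have hfX : (fun p => f (MvPolynomial.X p)) = s := by
        funext p
        rw [hf0, RingHom.comp_apply, MvPolynomial.map_X, MvPolynomial.eval_X]
      have hD := (uu_at K f).1
      rw [hfX] at hD
      show _ * f (uu K none) = 0
      rw [hD]
      by_cases hD0 : cD (zm K) s = 0
      · rw [hD0, mul_zero]
      set g : Matrix (Fin n) (Fin n) ℚ := (cD (zm K) s)⁻¹ • cN (zm K) s with hg
      have hgm : g.transpose * Jm n Q * g = Jm n Q := cay_mem hJ hJK hD0
      have hNg : cN (zm K) (fun p => f (MvPolynomial.X p)) = cD (zm K) (fun p => f (MvPolynomial.X p)) • g := by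
        rw [hfX, hg, smul_smul, mul_inv_cancel₀ hD0, one_smul]
      have hgc : (cm g).transpose * cm (Jm n Q) * cm g = cm (Jm n Q) := by
        rw [← Pool.Agent.Y119.HY.cm_transpose, ← Pool.Agent.Y119.HY.cm_mul, ← Pool.Agent.Y119.HY.cm_mul, hgm]
      have hz : ‖((1 / ((m : ℚ) + 2) : ℚ) : ℂ)‖ < 1 := by
        rw [Complex.norm_ratCast]
        have h1 : (0 : ℚ) ≤ 1 / ((m : ℚ) + 2) := by positivity
        have h2 : 1 / ((m : ℚ) + 2) < 1 := by
          rw [div_lt_one (by positivity)]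
          have : (0 : ℚ) ≤ m := by positivity
          linarith
        have h3 : |((1 / ((m : ℚ) + 2) : ℚ) : ℝ)| = ((1 / ((m : ℚ) + 2) : ℚ) : ℝ) := abs_of_nonneg (by exact_mod_cast h1)
        rw [h3]
        exact_mod_cast h2
      have h1 := rel_grp hQ c hc' hz hgc
      have h2 : ∑ b : B, (c b).eval (1 / ((m : ℚ) + 2)) * yw (fun j => g (ix n j).1 (ix n j).2) b.1 = 0 := by
        have h3 : ((∑ b : B, (c b).eval (1 / ((m : ℚ) + 2)) * yw (fun j => g (ix n j).1 (ix n j).2) b.1 : ℚ) : ℂ) = 0 := by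
          rw [← h1]
          rw [Rat.cast_sum]
          refine Finset.sum_congr rfl fun b _ => ?_
          rw [Rat.cast_mul]
          congr 1
          · have := Polynomial.aeval_algebraMap_apply (A := ℚ) ℂ (1 / ((m : ℚ) + 2)) (c b)
            rw [eq_ratCast, eq_ratCast] at this
            rw [this, Polynomial.coe_aeval_eq_eval]
          · exact yw_map (algebraMap ℚ ℂ).toMonoidHom (fun j => g (ix n j).1 (ix n j).2) b.1
        exact_mod_cast h3
      have h4 : MvPolynomial.eval s P = cD (zm K) s ^ δ *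
          ∑ b : B, (c b).eval (1 / ((m : ℚ) + 2)) * yw (fun j => g (ix n j).1 (ix n j).2) b.1 := by
        rw [hP, map_sum, Finset.mul_sum]
        refine Finset.sum_congr rfl fun b _ => ?_
        rw [map_mul, MvPolynomial.eval_C]
        have h5 := FF_at K f hNg b.1
        rw [hfX] at h5
        have h6 : MvPolynomial.eval s (MvPolynomial.map (Int.castRingHom ℚ) (∏ i, uu K (b.1 i))) = f (∏ i, uu K (b.1 i)) := rfl
        rw [h6, h5]
        ring
      rw [h4, h2, mul_zero, zero_mul]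
    refine (mul_eq_zero.1 hprod).resolve_right fun h0 => ?_
    have h1 := congrArg (MvPolynomial.eval (fun _ : Sx n => (0 : ℚ))) h0
    rw [map_zero] at h1
    have hD := (uu_at K ((MvPolynomial.eval (fun _ : Sx n => (0 : ℚ))).comp (MvPolynomial.map (Int.castRingHom ℚ)))).1
    have h2 : (MvPolynomial.eval (fun _ : Sx n => (0 : ℚ))).comp (MvPolynomial.map (Int.castRingHom ℚ)) (uu K none) = 0 := h1
    rw [h2] at hD
    have h3 : (fun p => ((MvPolynomial.eval (fun _ : Sx n => (0 : ℚ))).comp (MvPolynomial.map (Int.castRingHom ℚ)))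
        (MvPolynomial.X p)) = fun _ : Sx n => (0 : ℚ) := by
      funext p
      rw [RingHom.comp_apply, MvPolynomial.map_X, MvPolynomial.eval_X]
    rw [h3] at hD
    have h4 : (sy fun _ : Sx n => (0 : ℚ)) = 0 := by
      ext i j
      unfold sy
      rw [of_apply]
      split_ifs <;> rfl
    unfold cD at hD
    rw [h4, mul_zero, sub_zero, det_one] at hD
    exact zero_ne_one hD
  intro b
  refine Polynomial.eq_zero_of_infinite_isRoot _ ?_
  refine Set.infinite_of_injective_forall_mem (f := fun m : ℕ => 1 / ((m : ℚ) + 2)) ?_ fun m => key m b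
  intro m m' hmm
  have h1 : (1 : ℚ) / ((m : ℚ) + 2) = 1 / ((m' : ℚ) + 2) := hmm
  have h2 : (0 : ℚ) < (m : ℚ) + 2 := by positivity
  have h3 : (0 : ℚ) < (m' : ℚ) + 2 := by positivity
  rw [div_eq_div_iff h2.ne' h3.ne'] at h1
  have h4 : (m : ℚ) = m' := by linarith
  exact_mod_cast h4

end

end Pool.Agent.R351.GD.H
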