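import Pool.Agent.R351.GD.H.Rel
import Pool.Agent.R351.GD.S.Mul
import Pool.Agent.R351.GD.L.Mon

/-!
# Hypergeometric functions: the G-systems of the products of `δ` entries, with constants polynomial in `δ` in the exponent
-/

set_option autoImplicit false

open PowerSeries Pool.Agent.Y113 Pool.Agent.Y120.GF Pool.Agent.Y120.GH Pool.Agent.Y119.HZ
open Pool.Agent.Y119.HY (QD Jm cm)

namespace Pool.Agent.R351.GD.H

section

variable {ι κ : Type} [Fintype ι] [Fintype κ] {q : ℕ} {C : ℝ} {T : Polynomial ℤ} {y : ι → ℚ⟦X⟧} {w : κ → ℚ⟦X⟧}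

/-- a subfamily with the same span over `ℚ` -/
theorem quotA (hy : GSys q C T y) (fM : κ → ι) (a : ℤ) (ha : a ≠ 0) (M : ι → κ → ℤ) (hf : ∀ j, w j = y (fM j))
    (he : ∀ i, (a : ℚ⟦X⟧) * y i = ∑ j, (M i j : ℚ⟦X⟧) * w j) (A B N : ℝ) (hA : |((a : ℤ) : ℝ)| ≤ A)
    (hB : ∀ i j, |((M i j : ℤ) : ℝ)| ≤ B) (hB1 : 1 ≤ B)
    (hN1 : 1 ≤ N) (hN : (Fintype.card ι : ℝ) ≤ N) :
    GSys q (A * (N * B * C)) T w := by
  classical
  have hC := hy.one_le
  have hC0 : 0 < C := zero_lt_one.trans_le hC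
  have hA1 : 1 ≤ A := by
    refine le_trans ?_ hA
    have : (1 : ℤ) ≤ |a| := Int.one_le_abs ha
    exact_mod_cast this
  have hNB1 : 1 ≤ N * B := one_le_mul_of_one_le_of_one_le hN1 hB1
  have hCC0 : C ≤ N * B * C := le_mul_of_one_le_left hC0.le hNB1
  have hCC : C ≤ A * (N * B * C) := hCC0.trans (le_mul_of_one_le_left (by positivity) hA1)
  have hC2 : ∀ m : ℕ, C ^ (m + 1) ≤ (A * (N * B * C)) ^ (m + 1) := fun m =>
    pow_le_pow_left₀ hC0.le hCC _
  refine ⟨hC.trans hCC, hy.degT, fun l => (hy.sizeT l).trans hCC, ?_, ?_, ?_⟩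
  · intro j m
    rw [hf j]
    exact (hy.size _ m).trans (hC2 m)
  · intro m
    obtain ⟨d, hd0, hd, hd'⟩ := hy.den m
    refine ⟨d, hd0, hd.trans (hC2 m), fun j l hl => ?_⟩
    rw [hf j]
    exact hd' _ l hl
  · intro k
    obtain ⟨g, hg0, hg, hg'⟩ := hy.der k
    have hna : 0 < a.natAbs := Int.natAbs_pos.2 ha
    have hcast : ((a.natAbs : ℕ) : ℝ) = |((a : ℤ) : ℝ)| := by
      rw [← Int.cast_abs, ← Int.natCast_natAbs]
      rfl
    refine ⟨a.natAbs * g, Nat.mul_pos hna hg0, ?_, fun s hs => ?_⟩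
    · push_cast
      rw [mul_pow]
      have h1 : |((a : ℤ) : ℝ)| ≤ A ^ (k + 1) := hA.trans (le_self_pow₀ hA1 (by omega))
      have h2 : ((g : ℕ) : ℝ) ≤ (N * B * C) ^ (k + 1) := hg.trans (pow_le_pow_left₀ hC0.le hCC0 _)
      rw [hcast]
      exact mul_le_mul h1 h2 (by positivity) (by positivity)
    obtain ⟨G, h1, h2, h3⟩ := hg' s hs
    have hsg : ((a.natAbs : ℕ) : ℤ) = a.sign * a := (Int.sign_mul_self_eq_natAbs a).symm
    have hBd : ∀ j j', Bd (q * s) ((Finset.univ : Finset ι).card * (B * C ^ (k + 1)))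
        (∑ i, (Polynomial.C (a.sign * M i j')) * G (fM j) i) := by
      intro j j'
      refine Bd.sum _ fun i _ => ⟨(Polynomial.natDegree_C_mul_le _ _).trans (h1 _ i), fun l => ?_⟩
      rw [Polynomial.coeff_C_mul]
      push_cast
      rw [abs_mul, abs_mul]
      have h4 : |((a.sign : ℤ) : ℝ)| ≤ 1 := by
        rcases Int.sign_trichotomy a with h | h | h <;> rw [h] <;> simp
      refine mul_le_mul ?_ (h2 _ i l) (abs_nonneg _) (by linarith)
      calc |((a.sign : ℤ) : ℝ)| * |((M i j' : ℤ) : ℝ)| ≤ 1 * B := mul_le_mul h4 (hB i j') (abs_nonneg _) (by norm_num)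
        _ = B := one_mul B
    refine ⟨fun j j' => ∑ i, (Polynomial.C (a.sign * M i j')) * G (fM j) i,
      fun j j' => (hBd j j').1, fun j j' l => ((hBd j j').2 l).trans ?_, fun j => ?_⟩
    · have e1 : ((Finset.univ : Finset ι).card : ℝ) ≤ N := by
        rw [Finset.card_univ]
        exact hN
      calc ((Finset.univ : Finset ι).card : ℝ) * (B * C ^ (k + 1)) ≤ N * (B * C ^ (k + 1)) :=
            mul_le_mul_of_nonneg_right e1 (by positivity)
        _ = (N * B) * C ^ (k + 1) := by ring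
        _ ≤ (N * B) ^ (k + 1) * C ^ (k + 1) :=
            mul_le_mul_of_nonneg_right (le_self_pow₀ hNB1 (by omega)) (by positivity)
        _ = (N * B * C) ^ (k + 1) := by rw [← mul_pow]
        _ ≤ _ := pow_le_pow_left₀ (by positivity) (le_mul_of_one_le_left (by positivity) hA1) _
    · rw [hf j]
      have h5 := h3 (fM j)
      have h6 : ((a.natAbs * g : ℕ) : ℚ⟦X⟧) = ((a.sign : ℤ) : ℚ⟦X⟧) * ((a : ℤ) : ℚ⟦X⟧) * (g : ℚ⟦X⟧) := by
        push_cast
        have h7 : ((a.natAbs : ℕ) : ℚ⟦X⟧) = (((a.natAbs : ℕ) : ℤ) : ℚ⟦X⟧) := (Int.cast_natCast _).symm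
        rw [h7, hsg]
        push_cast
        rfl
      rw [h6, mul_assoc, h5, Finset.mul_sum]
      simp only [ps_sum, Finset.sum_mul]
      rw [Finset.sum_comm]
      refine Finset.sum_congr rfl fun i _ => ?_
      have e4 : ∀ (x : ℚ⟦X⟧), ((a.sign : ℤ) : ℚ⟦X⟧) * ((a : ℤ) : ℚ⟦X⟧) * (x * y i) =
          ((a.sign : ℤ) : ℚ⟦X⟧) * x * (((a : ℤ) : ℚ⟦X⟧) * y i) := fun x => by ring
      rw [e4, he i, Finset.mul_sum]
      refine Finset.sum_congr rfl fun j' _ => ?_
      rw [ps_mul]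
      have e3 : ps (Polynomial.C (a.sign * M i j')) = ((a.sign : ℤ) : ℚ⟦X⟧) * (M i j' : ℚ⟦X⟧) := by
        unfold ps
        rw [Polynomial.map_C, Polynomial.coe_C]
        simp
      rw [e3]
      ring

end

/-- **linear independence for separated shifts, with a separation which does not depend on `δ`** -/
theorem li_fam {r : ℕ} {h : Fin r → ℚ⟦X⟧} {T : Polynomial ℤ} {A : Fin r → Fin r → Polynomial ℤ} (hT : T ≠ 0)
    (hode : ∀ i, ps T * d⁄dX ℚ (h i) = ∑ j, ps (A i j) * h j) {q : ℕ} {C : ℝ} (hG : GSys q C T h)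
    (hqu : QU0 T A) :
    ∃ R : ℕ, ∀ (δ : ℕ) (B : Finset (Fin δ → Option (Fin r))),
      LinearIndependent (Polynomial ℚ) (fun b : B => yw h b.1) →
      ∀ (K : ℕ) (k : ℕ) (g : Fin k → ℕ), SepR R g → LinearIndependent (Polynomial ℚ)
        (fun b : Fin k → B × Fin K => ∏ l, Fg K (fun β : B => yw h β.1) (g l) (b l)) := by
  classical
  obtain ⟨e, he, M₀, K, Φ, hΦc, hΦe, hΦd⟩ := hqu
  have hC1 := hG.one_le
  -- the radii
  set τ : ℝ := |K| + C + 1 with hτd
  have hτ1 : 1 ≤ τ := by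
    have := abs_nonneg K
    linarith
  have hτ0 : 0 < τ := by linarith
  have hτe : τ ≤ τ ^ e := le_self_pow₀ hτ1 he
  set τ' : ℝ := τ + 1 with hτ'd
  have hρρ : τ ^ e < τ' ^ e := pow_lt_pow_left₀ (by linarith) hτ0.le he
  obtain ⟨R, hR⟩ := exists_nat_gt (τ ^ e + τ' ^ e)
  refine ⟨R, fun δ B hLI K₁ k g hg => ?_⟩
  obtain ⟨C', hG'⟩ := gsys_tens (gsys_opt hG) δ
  have hyw : (fun b : Fin δ → Option (Fin r) => ∏ j, (fun o : Option (Fin r) => o.elim 1 h) (b j)) = fun b => yw h b := rfl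
  rw [hyw] at hG'
  have hmem1 : ∀ i, cx (h i) ∈ Cw (τ ^ e) := fun i =>
    Cw_mono (by
      have := abs_nonneg K
      linarith) (cx_mem (by linarith) (hG.size i))
  have hmem : ∀ b : Fin δ → Option (Fin r), cx (yw h b : ℚ⟦X⟧) ∈ Cw (τ ^ e) := by
    intro b
    unfold yw
    rw [map_prod]
    refine Subring.prod_mem _ fun j _ => ?_
    rcases b j with _ | i
    · show cx 1 ∈ _
      rw [map_one]
      exact Subring.one_mem _
    · exact hmem1 i
  set Tc : Polynomial ℂ := T.map (Int.castRingHom ℂ) with hTc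
  set Ac : Fin r → Fin r → Polynomial ℂ := fun i j => (A i j).map (Int.castRingHom ℂ) with hAc
  have hTc0 : Tc ≠ 0 := (Polynomial.map_ne_zero_iff (Int.castRingHom ℂ).injective_int).2 hT
  have hQU : QU he τ Tc (AT (δ := δ) (Pool.Agent.Y120.GH.A1 Ac)) := by
    refine qu_tens he δ (qu_one he ⟨M₀, Φ, fun i j k => mem_Cw_of_bound ?_ (hΦc i j k), hΦe, hΦd⟩)
    linarith
  -- the differential equation of the products
  have hodeC : ∀ i, (Tc : PowerSeries ℂ) * PowerSeries.derivative ℂ (cx (h i)) = ∑ j, (Ac i j : PowerSeries ℂ) * cx (h j) := by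
    intro i
    have h1 := congrArg cx (hode i)
    rw [map_mul, map_sum, cx_der, cx_ps] at h1
    rw [h1]
    refine Finset.sum_congr rfl fun j _ => ?_
    rw [map_mul, cx_ps]
  have hodeT : ∀ b : Fin δ → Option (Fin r), (Tc : PowerSeries ℂ) * PowerSeries.derivative ℂ (cx (yw h b)) =
      ∑ b', ((AT (δ := δ) (Pool.Agent.Y120.GH.A1 Ac) b b' : Polynomial ℂ) : PowerSeries ℂ) * cx (yw h b') := by
    intro b
    have h1 := tens_der (δ := δ) (fun f : PowerSeries ℂ => PowerSeries.derivative ℂ f) (Derivation.map_one_eq_zero _)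
      (fun f g => by
        rw [Derivation.leibniz]
        rfl) (Tc : PowerSeries ℂ) 0
      (fun i l : Option (Fin r) => ((Pool.Agent.Y120.GH.A1 Ac i l : Polynomial ℂ) : PowerSeries ℂ))
      (fun _ o => cx (o.elim 1 h)) (fun j o => by
        rw [zero_mul, zero_add, Fintype.sum_option]
        rcases o with _ | i
        · show _ * PowerSeries.derivative ℂ (cx 1) = ((0 : Polynomial ℂ) : PowerSeries ℂ) * _ +
            ∑ j, ((0 : Polynomial ℂ) : PowerSeries ℂ) * _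
          rw [map_one, Derivation.map_one_eq_zero]
          simp
        · show _ = ((0 : Polynomial ℂ) : PowerSeries ℂ) * _ + ∑ j, (Ac i j : PowerSeries ℂ) * cx (h j)
          rw [← hodeC i]
          simp) b
    have h2 : ∀ b : Fin δ → Option (Fin r), cx (yw h b) = ∏ j, cx ((b j).elim 1 h) := fun b => map_prod _ _ _
    rw [h2 b]
    refine h1.trans ?_
    rw [mul_zero, zero_mul, zero_add]
    refine Finset.sum_congr rfl fun b' _ => ?_
    rw [h2 b']
    congr 1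
    let f : Polynomial ℂ →+ PowerSeries ℂ := (Polynomial.coeToPowerSeries.ringHom (R := ℂ)).toAddMonoidHom
    exact (AT_map f (Pool.Agent.Y120.GH.A1 Ac) b b').symm
  have hdisc : Disc (τ ^ e) (τ' ^ e) fun b : (B : Set (Fin δ → Option (Fin r))) => cx (yw h b.1) :=
    disc_of_qu he hτ0 (by linarith) (fun b => cx (yw h b)) hmem Tc hTc0 _ hodeT hQU
      (B : Set (Fin δ → Option (Fin r))) (by
      intro G hG
      refine li_cx (κ := (B : Set (Fin δ → Option (Fin r)))) ?_ G hG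
      exact hLI)
  obtain ⟨E, hE⟩ := gsys_shift hG'
  refine li_shift (ρ := τ ^ e) (ρ' := τ' ^ e) (C := C') (y := fun β : B => yw h β.1) (by positivity) hρρ
    (by have := hG'.one_le; linarith) (fun β => hmem _) hdisc (fun β => hG'.size β.1)
    (fun g => ⟨((g : ℝ) + 2) ^ E, by positivity, fun β => (hE g).size β.1⟩) hR K₁ k g (fun l => by exact_mod_cast hg.1 l)
    fun l l' hl => ?_
  rcases hg.2 l l' hl with h1 | h1
  · have h2 : (g l : ℝ) + R ≤ g l' := by exact_mod_cast h1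
    rw [abs_sub_comm]
    exact le_trans (by linarith) (le_abs_self _)
  · have h2 : (g l' : ℝ) + R ≤ g l := by exact_mod_cast h1
    exact le_trans (by linarith) (le_abs_self _)

theorem sf_hom (g : ℕ) (f : ℚ⟦X⟧) : sf g f = substAlgHom (R := ℚ) (Pool.Agent.Y120.GF.sh_sub g) f := by
  rw [sf, coe_substAlgHom]

theorem sf_prod {σ : Type} (s : Finset σ) (g : ℕ) (f : σ → ℚ⟦X⟧) : sf g (∏ i ∈ s, f i) = ∏ i ∈ s, sf g (f i) := by
  simp only [sf_hom, map_prod]

theorem sf_int (g : ℕ) (a : ℤ) (f : ℚ⟦X⟧) : sf g ((a : ℚ⟦X⟧) * f) = (a : ℚ⟦X⟧) * sf g f := by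
  simp only [sf_hom, map_mul, map_intCast]

theorem sf_one (g : ℕ) : sf g 1 = 1 := by
  simp only [sf_hom, map_one]

/-- the products at the shift `g`, with the powers of the logarithm -/
noncomputable def Ys {r δ : ℕ} (h : Fin r → ℚ⟦X⟧) (B : Finset (Fin δ → Option (Fin r))) (g : ℕ)
    (b : B × Fin (δ + 1)) : ℚ⟦X⟧ := sf g (yw h b.1.1) * lg g ^ (b.2 : ℕ)

theorem count_lt {δ : ℕ} (j : Fin (δ + 1)) : ∑ i : Fin δ, ((if (i : ℕ) < j then (1 : Fin 2) else 0 : Fin 2) : ℕ) = j := by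
  have h1 : ∀ i : Fin δ, ((if (i : ℕ) < j then (1 : Fin 2) else 0 : Fin 2) : ℕ) = if (i : ℕ) < j then 1 else 0 := by
    intro i
    split_ifs <;> rfl
  simp only [h1]
  rw [Fin.sum_univ_eq_sum_range (fun i => if i < (j : ℕ) then 1 else 0) δ, ← Finset.sum_filter, Finset.sum_const, smul_eq_mul,
    mul_one]
  have h2 : (Finset.range δ).filter (fun i => i < (j : ℕ)) = Finset.range j := by
    ext i
    rw [Finset.mem_filter, Finset.mem_range, Finset.mem_range]
    have := j.2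
    omega
  rw [h2, Finset.card_range]

/-- **the G-systems of the products in a basis** -/
theorem sys {r : ℕ} {h : Fin r → ℚ⟦X⟧} {T : Polynomial ℤ} {q : ℕ} {C : ℝ} (hG : GSys q C T h) :
    ∃ q₀ E₀ : ℕ, ∀ (δ : ℕ) (B : Finset (Fin δ → Option (Fin r))) (a : ℤ)
      (M : (Fin δ → Option (Fin r)) → B → ℤ) (e : ℕ), a ≠ 0 → |a| ≤ 2 ^ e → (∀ w b, |M w b| ≤ 2 ^ e) →
      (∀ w, (a : ℚ⟦X⟧) * yw h w = ∑ b, (M w b : ℚ⟦X⟧) * yw h b.1) →
      ∀ g : ℕ, GSys q₀ (((g : ℝ) + 2) ^ (2 * e + E₀ * (δ + 1))) (Pool.Agent.Y120.GH.Tg q T g) (Ys h B g) := by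
  classical
  obtain ⟨q₀, E, hsys⟩ := gsys_Fg (gsys_opt hG) 1
  refine ⟨q₀, (r + 1) + (q₀ + 1 + E) + E, fun δ B a M e ha0 ha hM hrel g => ?_⟩
  have hw := words_base hsys δ g
  set F : (Fin δ → Option (Fin r) × Fin 2) → ℚ⟦X⟧ := fun f => ∏ i, Fg 2 (fun o : Option (Fin r) => o.elim 1 h) g (f i) with hF
  have hFe : ∀ f, F f = sf g (yw h fun i => (f i).1) * lg g ^ (∑ i, ((f i).2 : ℕ)) := by
    intro f
    have h1 : ∀ i, Fg 2 (fun o : Option (Fin r) => o.elim 1 h) g (f i) = sf g ((f i).1.elim 1 h) * lg g ^ ((f i).2 : ℕ) := by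
      intro i
      unfold Fg yQ
      have h2 : (((f i).2 : ℕ).factorial : ℚ) = 1 := by
        have h3 := (f i).2.2
        have h4 : ((f i).2 : ℕ) = 0 ∨ ((f i).2 : ℕ) = 1 := by omega
        rcases h4 with h4 | h4 <;> rw [h4] <;> simp
      rw [h2, div_one, map_one, one_mul]
    rw [hF]
    simp only [h1]
    rw [Finset.prod_mul_distrib, Finset.prod_pow_eq_pow_sum, ← sf_prod]
    rfl
  have hcnt : ∀ f : Fin δ → Option (Fin r) × Fin 2, ∑ i, ((f i).2 : ℕ) < δ + 1 := by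
    intro f
    refine Nat.lt_succ_of_le ((Finset.sum_le_card_nsmul _ _ 1 fun i _ => ?_).trans (by simp))
    have := (f i).2.2
    omega
  set fM : B × Fin (δ + 1) → (Fin δ → Option (Fin r) × Fin 2) := fun b i => (b.1.1 i, if (i : ℕ) < b.2 then 1 else 0)
  set M' : (Fin δ → Option (Fin r) × Fin 2) → B × Fin (δ + 1) → ℤ := fun f b =>
    if b.2 = ⟨∑ i, ((f i).2 : ℕ), hcnt f⟩ then M (fun i => (f i).1) b.1 else 0 with hM'
  have h2e : (1 : ℝ) ≤ 2 ^ e := one_le_pow₀ (by norm_num)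
  have h1 := quotA (w := Ys h B g) hw fM a ha0 M' (fun b => ?_) (fun f => ?_) (2 ^ e) (2 ^ e) (2 ^ ((r + 1) * δ)) ?_ (fun f b => ?_)
    h2e (one_le_pow₀ (by norm_num)) ?_
  · refine h1.mono le_rfl ?_
    have h2 := two_le_base g
    calc (2 : ℝ) ^ e * (2 ^ ((r + 1) * δ) * 2 ^ e * ((g : ℝ) + 2) ^ ((q₀ + 1 + E) * δ + E))
        ≤ ((g : ℝ) + 2) ^ e * (((g : ℝ) + 2) ^ ((r + 1) * δ) * ((g : ℝ) + 2) ^ e *
          ((g : ℝ) + 2) ^ ((q₀ + 1 + E) * δ + E)) := by gcongr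
      _ = ((g : ℝ) + 2) ^ (e + ((r + 1) * δ + e + ((q₀ + 1 + E) * δ + E))) := by
        rw [← pow_add, ← pow_add, ← pow_add]
      _ ≤ _ := by
        refine pow_le_pow_right₀ (by linarith) ?_
        nlinarith [Nat.zero_le (r + 1), Nat.zero_le (q₀ + 1 + E), Nat.zero_le (E * δ)]
  · show Ys h B g b = F (fM b)
    rw [hFe]
    unfold Ys
    congr 2
    exact (count_lt b.2).symm
  · show (a : ℚ⟦X⟧) * F f = ∑ b, (M' f b : ℚ⟦X⟧) * Ys h B g b
    rw [hFe, ← mul_assoc, ← sf_int, hrel, Fintype.sum_prod_type, sf_sum, Finset.sum_mul]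
    refine Finset.sum_congr rfl fun b _ => ?_
    rw [Finset.sum_eq_single (⟨∑ i, ((f i).2 : ℕ), hcnt f⟩ : Fin (δ + 1))]
    · rw [hM']
      simp only [if_true]
      rw [sf_int]
      unfold Ys
      ring
    · intro j _ hj
      rw [hM']
      simp only [if_neg hj]
      rw [Int.cast_zero, zero_mul]
    · intro h
      exact absurd (Finset.mem_univ _) h
  · exact_mod_cast ha
  · rw [hM']
    simp only
    split_ifs
    · exact_mod_cast hM _ _
    · simp
  · rw [Fintype.card_fun, Fintype.card_prod, Fintype.card_option, Fintype.card_fin, Fintype.card_fin, Fintype.card_fin]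
    have h3 : (r + 1) * 2 ≤ 2 ^ (r + 1) := by
      rw [pow_succ]
      exact Nat.mul_le_mul_right _ (Nat.lt_two_pow_self)
    have h4 : ((r + 1) * 2) ^ δ ≤ 2 ^ ((r + 1) * δ) := by
      rw [pow_mul]
      exact Nat.pow_le_pow_left h3 _
    exact_mod_cast h4

end Pool.Agent.R351.GD.H
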