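import Pool.Agent.R351.GD.H.Win
import Pool.Agent.R351.GD.H.GenM

/-!
# Hypergeometric families: tuples, with exponents polynomial in the degree
-/

set_option autoImplicit false

open Module Pool.Agent.Y113 Pool.Agent.Y120.GF Pool.Agent.Y120.GH Pool.Agent.Y119.HZ
open Pool.Agent.Y119.HY (QD Jm Am cm Hf Hc E)

namespace Pool.Agent.R351.GD.H

variable {n : ℕ}

/-- the Cayley coordinates exist at all large `m` -/
theorem det_large {Q : Polynomial ℚ} (hQ : QD n Q) (hH : ∀ i j, SDc (Hp n Q i j)) {d : ℕ} {K : Matrix (Fin n) (Fin n) ℤ}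
    (hK : IK n Q d K) : ∃ n₀ : ℕ, 2 ≤ n₀ ∧ ∀ m, n₀ ≤ m → (zi n Q m + 1).det ≠ 0 := by
  obtain ⟨R, hR⟩ := hvalS hQ hH hK
  obtain ⟨E, -, hE⟩ := hR R le_rfl 1
  refine ⟨3 ^ E 0 + 2, Nat.le_add_left _ _, fun m hm => ?_⟩
  have h0 : (1 + 2) ^ E 0 ≤ m + R := by
    show 3 ^ E 0 ≤ m + R
    omega
  have h1 := (hE 0 1 (m + R) h0 (fun _ => 1) (fun a b _ => Subsingleton.elim a b) fun _ => ⟨le_rfl, le_rfl⟩).1 0
  rwa [mul_one, zm1_eq (by omega), Nat.add_sub_cancel] at h1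

theorem sbE {υ κ : Type} {F : IntermediateField ℚ ℂ} (w : υ → ℂ) (y : κ → ℂ) (P : MvPolynomial (υ ⊕ κ) F) :
    MvPolynomial.eval y (MvPolynomial.aeval (Sum.elim (fun j => MvPolynomial.C (w j)) MvPolynomial.X) P :
      MvPolynomial κ ℂ) = MvPolynomial.aeval (Sum.elim w y) P := by
  have h3 : ((MvPolynomial.aeval y : MvPolynomial κ ℂ →ₐ[ℂ] ℂ).restrictScalars F).comp
      (MvPolynomial.aeval (Sum.elim (fun j => MvPolynomial.C (w j)) MvPolynomial.X) :
        MvPolynomial (υ ⊕ κ) F →ₐ[F] MvPolynomial κ ℂ) = MvPolynomial.aeval (Sum.elim w y) := by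
    refine MvPolynomial.algHom_ext fun i => ?_
    rw [AlgHom.comp_apply, MvPolynomial.aeval_X, MvPolynomial.aeval_X, AlgHom.restrictScalars_apply]
    rcases i with j | j
    · rw [Sum.elim_inl, Sum.elim_inl, MvPolynomial.aeval_C]
      rfl
    · rw [Sum.elim_inr, Sum.elim_inr, MvPolynomial.aeval_X]
  rw [← h3, AlgHom.comp_apply, AlgHom.restrictScalars_apply]
  rfl

/-- windows for the Cayley coordinates, in terms of relations -/
theorem vI_window {Q : Polynomial ℚ} (hQ : QD n Q) (hH : ∀ i j, SDc (Hp n Q i j)) {d : ℕ} {K : Matrix (Fin n) (Fin n) ℤ}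
    (hK : IK n Q d K) (N : ℕ) : ∃ (M : ℕ) (E : ℕ → ℕ), PB E ∧ ∀ (δ : ℕ) (w : Fin N → ℂ) (H m : ℕ), (H + 2) ^ E δ ≤ m →
    ∀ S : Finset ℕ, (∀ s ∈ S, m < s ∧ s ≤ m + H ∧ RelK δ w (vI n Q d s)) → S.card ≤ M := by
  classical
  obtain ⟨G, hG1, hW⟩ := winS hQ hH hK
  obtain ⟨E, hEp, hE⟩ := hW G le_rfl 1 (N + 1)
  refine ⟨G * (N + 1), fun δ => 2 * E δ, (PB.const 2).mul hEp, fun δ w H m hm S hS => ?_⟩
  have hm : (H + 2) ^ (2 * E δ) ≤ m := hm
  have hH3 : (H + 1 + 2) ^ E δ ≤ m := by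
    refine le_trans ?_ hm
    rw [pow_mul]
    refine Nat.pow_le_pow_left ?_ _
    nlinarith
  have hρ : ∀ ρ : ℕ, 1 ≤ ρ → ρ ≤ G → (S.filter fun s => G ∣ m + H + ρ - s).card ≤ N + 1 := by
    intro ρ hρ1 hρG
    set t := m + H + ρ with ht
    obtain ⟨S', hS', h⟩ := hE δ (H + 1) t (hH3.trans (by omega)) (Option (Fin N))
      (by rw [Fintype.card_option, Fintype.card_fin]) (fun o => o.elim ((Real.log t : ℝ) : ℂ) w) ⟨none, rfl⟩
    refine le_trans ?_ hS'
    refine Finset.card_le_card_of_injOn (fun s => (t - s) / G) (fun s hs => ?_) (fun s hs s' hs' h2 => ?_)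
    · obtain ⟨hs1, hs2⟩ := Finset.mem_filter.1 (Finset.mem_coe.1 hs)
      obtain ⟨h1, h2, F, hF, hFd, P, hP, hP0, hne⟩ := hS s hs1
      by_contra hsS
      have hmul : G * ((t - s) / G) = t - s := Nat.mul_div_cancel' hs2
      have hts : t - G * ((t - s) / G) = s := by
        rw [hmul]
        omega
      have hpos : 0 < t - s := by omega
      have hu1 : 1 ≤ (t - s) / G := Nat.div_pos (Nat.le_of_dvd hpos hs2) hG1
      have hu2 : (t - s) / G ≤ H + 1 := by
        refine Nat.div_le_of_le_mul ?_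
        have h3 : t - s ≤ H + G := by omega
        have h4 : H ≤ G * H := Nat.le_mul_of_pos_left _ hG1
        rw [Nat.mul_succ]
        omega
      obtain ⟨-, h3⟩ := h (fun _ => (t - s) / G) (fun a b _ => Subsingleton.elim a b) fun _ => ⟨hu1, hu2, hsS⟩
      have h4 := h3 F hF hFd (MvPolynomial.rename (Sum.map some fun o => ((0 : Fin 1), o)) P)
        ((MvPolynomial.totalDegree_rename_le _ _).trans hP) (by
          rw [MvPolynomial.aeval_rename, ← hP0]
          congr 2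
          funext v
          rcases v with v | v
          · rfl
          · show vI n Q d (t - G * ((t - s) / G)) v = vI n Q d s v
            rw [hts])
      apply hne
      refine MvPolynomial.funext fun y => ?_
      rw [map_zero, sbE]
      have h5 := of_gen h4 fun p => y p.2
      rw [MvPolynomial.aeval_rename] at h5
      rw [← h5]
      congr 2
      funext v
      rcases v with v | v <;> rfl
    · obtain ⟨hs1, hs2⟩ := Finset.mem_filter.1 (Finset.mem_coe.1 hs)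
      obtain ⟨hs3, hs4⟩ := Finset.mem_filter.1 (Finset.mem_coe.1 hs')
      have h1 := hS s hs1
      have h3 := hS s' hs3
      have h4 : G * ((t - s) / G) = t - s := Nat.mul_div_cancel' hs2
      have h5 : G * ((t - s') / G) = t - s' := Nat.mul_div_cancel' hs4
      have h6 : (t - s) / G = (t - s') / G := h2
      rw [h6, h5] at h4
      omega
  have hsub : S ⊆ (Finset.Icc 1 G).biUnion fun ρ => S.filter fun s => G ∣ m + H + ρ - s := by
    intro s hs
    have h1 := hS s hs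
    refine Finset.mem_biUnion.2 ⟨G - (m + H - s) % G, ?_, Finset.mem_filter.2 ⟨hs, ?_⟩⟩
    · have h2 := Nat.mod_lt (m + H - s) hG1
      rw [Finset.mem_Icc]
      omega
    · have h2 := Nat.mod_lt (m + H - s) hG1
      have h3 := Nat.div_add_mod (m + H - s) G
      refine ⟨(m + H - s) / G + 1, ?_⟩
      rw [Nat.mul_succ]
      omega
  refine (Finset.card_le_card hsub).trans (Finset.card_biUnion_le.trans ?_)
  refine (Finset.sum_le_card_nsmul _ _ (N + 1) fun ρ h => ?_).trans ?_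
  · obtain ⟨h1, h2⟩ := Finset.mem_Icc.1 h
    exact hρ ρ h1 h2
  · rw [Nat.card_Icc, Nat.add_sub_cancel, smul_eq_mul]

open Classical in
/-- tuples, for the Cayley coordinates -/
theorem vI_tuples {Θ : Type} [Fintype Θ] (Q : Θ → Polynomial ℚ) (d : Θ → ℕ) (K : Θ → Matrix (Fin n) (Fin n) ℤ)
    (hQ : ∀ θ, QD n (Q θ)) (hH : ∀ θ i j, SDc (Hp n (Q θ) i j)) (hK : ∀ θ, IK n (Q θ) (d θ) (K θ)) (k q : ℕ) :
    ∃ C : ℕ, ∀ (θ : Fin k → Θ) (δ : ℕ) (w : Fin q → ℂ) (T : ℕ), 1 ≤ T →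
      (((Fintype.piFinset fun _ : Fin k => (Finset.Icc 1 T).filter fun n => 0 ≤ n).filter fun t =>
        RelK δ w (fun p : Fin k × Option (Sx n) => vI n (Q (θ p.1)) (d (θ p.1)) (t p.1) p.2)).card : ℝ) ≤
      C * (T : ℝ) ^ ((k : ℝ) - 1 / ((δ : ℝ) + 2) ^ C) :=
  gen_tuplesM Θ (fun θ m => vI n (Q θ) (d θ) m) 0 k q (by
    intro N
    choose M E hEp hE using fun θ => vI_window (hQ θ) (hH θ) (hK θ) N
    refine ⟨∑ θ, M θ, fun δ => ∑ θ, E θ δ, PB.sum _ fun θ _ => hEp θ, fun θ δ w H m hm S hS => ?_⟩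
    have h1 : E θ δ ≤ ∑ θ, E θ δ :=
      Finset.single_le_sum (f := fun θ => E θ δ) (fun _ _ => Nat.zero_le _) (Finset.mem_univ θ)
    have h2 : M θ ≤ ∑ θ, M θ := Finset.single_le_sum (f := M) (fun _ _ => Nat.zero_le _) (Finset.mem_univ θ)
    exact (hE θ δ w H m ((Nat.pow_le_pow_right (by omega) h1).trans hm) S fun s hs => (hS s hs).2).trans h2)

/-- the contrapositive of `genH_of` -/
theorem relK_of {k : ℕ} {Q : Fin k → Polynomial ℚ} (hQ : ∀ l, QD n (Q l)) {d : Fin k → ℕ}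
    {K : Fin k → Matrix (Fin n) (Fin n) ℤ} (hK : ∀ l, IK n (Q l) (d l) (K l)) :
    ∃ c : ℕ, ∀ (δ : ℕ) (υ : Type) (w : υ → ℂ) (Oi : Fin k → Fin n → Fin n → υ) (m : Fin k → ℕ), (∀ l, 2 ≤ m l) →
      (∀ l, (zi n (Q l) (m l) + 1).det ≠ 0) → ¬ GenH δ Q w Oi m →
      RelK (δ * c) w (fun p : Fin k × Option (Sx n) => vI n (Q p.1) (d p.1) (m p.1) p.2) := by
  obtain ⟨c, hc⟩ := genH_of hQ hK
  refine ⟨c, fun δ υ w Oi m hm hdet hbad => ?_⟩
  by_contra hrel
  apply hbad
  refine hc δ υ w Oi m hm hdet fun F hF hFd P hP hP0 => ?_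
  by_contra hne
  exact hrel ⟨F, hF, hFd, P, hP, hP0, hne⟩

/-- the relations are relations with indices in `Fin q` -/
theorem relK_fin {υ κ : Type} [Fintype υ] {q δ : ℕ} (hυ : Fintype.card υ = q) {w : υ → ℂ} {y : κ → ℂ} (h : RelK δ w y) :
    RelK δ (w ∘ (Fintype.equivFinOfCardEq hυ).symm) y := by
  obtain ⟨F, hF, hFd, P, hP, hP0, hne⟩ := h
  set e := Fintype.equivFinOfCardEq hυ with he
  refine ⟨F, hF, hFd, MvPolynomial.rename (Sum.map e id) P, (MvPolynomial.totalDegree_rename_le _ _).trans hP, ?_, ?_⟩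
  · rw [MvPolynomial.aeval_rename, ← hP0]
    congr 2
    funext v
    rcases v with v | v
    · show w (e.symm (e v)) = w v
      rw [Equiv.symm_apply_apply]
    · rfl
  · intro h6
    apply hne
    refine MvPolynomial.funext fun z => ?_
    rw [map_zero, sbE]
    have h7 := of_gen h6 z
    rw [MvPolynomial.aeval_rename] at h7
    rw [← h7]
    congr 2
    funext v
    rcases v with v | v
    · show w v = w (e.symm (e v))
      rw [Equiv.symm_apply_apply]
    · rfl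

/-- few tuples have a small entry -/
theorem small_card (k n₀ T : ℕ) (S : Finset (Fin k → ℕ))
    (hS : ∀ t ∈ S, (∀ i, 1 ≤ t i ∧ t i ≤ T) ∧ ∃ i, t i < n₀) : S.card ≤ k * (n₀ * T ^ (k - 1)) := by
  classical
  have h1 : S ⊆ Finset.univ.biUnion fun i : Fin k => Fintype.piFinset fun j : Fin k =>
      if j = i then Finset.range n₀ else Finset.Icc 1 T := by
    intro t ht
    obtain ⟨h2, i, hi⟩ := hS t ht
    refine Finset.mem_biUnion.2 ⟨i, Finset.mem_univ _, Fintype.mem_piFinset.2 fun j => ?_⟩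
    by_cases hj : j = i
    · rw [if_pos hj, hj]
      exact Finset.mem_range.2 hi
    · rw [if_neg hj]
      exact Finset.mem_Icc.2 (h2 j)
  refine (Finset.card_le_card h1).trans (Finset.card_biUnion_le.trans ?_)
  refine (Finset.sum_le_card_nsmul _ _ (n₀ * T ^ (k - 1)) fun i _ => ?_).trans ?_
  · rw [Fintype.card_piFinset, ← Finset.mul_prod_erase _ _ (Finset.mem_univ i), if_pos rfl, Finset.card_range]
    refine Nat.mul_le_mul_left _ (le_of_eq ?_)
    calc ∏ x ∈ Finset.univ.erase i, (if x = i then Finset.range n₀ else Finset.Icc 1 T).card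
        = ∏ _x ∈ Finset.univ.erase i, T := by
          refine Finset.prod_congr rfl fun x hx => ?_
          rw [if_neg (Finset.ne_of_mem_erase hx), Nat.card_Icc, Nat.add_sub_cancel]
      _ = T ^ (k - 1) := by
          rw [Finset.prod_const, Finset.card_erase_of_mem (Finset.mem_univ i), Finset.card_univ, Fintype.card_fin]
  · rw [Finset.card_univ, Fintype.card_fin, smul_eq_mul]

open Classical in
/-- **tuples, for the period matrices** -/
theorem tupH {k : ℕ} {Q : Fin k → Polynomial ℚ} (hQ : ∀ l, QD n (Q l)) (hH : ∀ l i j, SDc (Hp n (Q l) i j)) (q : ℕ) :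
    ∃ C : ℕ, ∀ (δ : ℕ) (υ : Type) [Fintype υ], Fintype.card υ = q → ∀ (w : υ → ℂ) (Oi : Fin k → Fin n → Fin n → υ) (T : ℕ),
      1 ≤ T → (((Fintype.piFinset fun _ : Fin k => Finset.Icc 1 T).filter fun t => ¬ GenH δ Q w Oi t).card : ℝ) ≤
      C * (T : ℝ) ^ ((k : ℝ) - 1 / ((δ : ℝ) + 2) ^ C) := by
  choose d K hK using fun l => exists_IK n (Q l)
  choose n₀ hn₀2 hn₀ using fun l => det_large (hQ l) (hH l) (hK l)
  obtain ⟨c, hc⟩ := relK_of hQ hK
  obtain ⟨C₁, hC₁⟩ := vI_tuples Q d K hQ hH hK k q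
  obtain ⟨b, hb⟩ : PB fun δ => (δ * c + 2) ^ C₁ := ((PB.id.mul (PB.const c)).add (PB.const 2)).pow C₁
  set N₀ : ℕ := 2 + ∑ l, n₀ l with hN₀
  refine ⟨C₁ + k * N₀ + b, fun δ υ _ hυ w Oi T hT => ?_⟩
  set C := C₁ + k * N₀ + b with hC
  have hT1 : (1 : ℝ) ≤ T := by exact_mod_cast hT
  have hδ0 : (0 : ℝ) ≤ δ := Nat.cast_nonneg δ
  set w' : Fin q → ℂ := w ∘ (Fintype.equivFinOfCardEq hυ).symm with hw'
  set B := (Fintype.piFinset fun _ : Fin k => Finset.Icc 1 T).filter fun t => ¬ GenH δ Q w Oi t with hB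
  set L := (Fintype.piFinset fun _ : Fin k => (Finset.Icc 1 T).filter fun n => 0 ≤ n).filter fun t =>
    RelK (δ * c) w' (fun p : Fin k × Option (Sx n) => vI n (Q p.1) (d p.1) (t p.1) p.2) with hL
  have hsub : B ⊆ B.filter (fun t => ∃ i, t i < N₀) ∪ L := by
    intro t ht
    obtain ⟨ht1, ht2⟩ := Finset.mem_filter.1 ht
    by_cases hs : ∃ i, t i < N₀
    · exact Finset.mem_union_left _ (Finset.mem_filter.2 ⟨ht, hs⟩)
    · push Not at hs
      rw [Fintype.mem_piFinset] at ht1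
      refine Finset.mem_union_right _ (Finset.mem_filter.2 ⟨Fintype.mem_piFinset.2 fun i =>
        Finset.mem_filter.2 ⟨ht1 i, Nat.zero_le _⟩, relK_fin hυ (hc δ υ w Oi t (fun l => ?_) (fun l => ?_) ht2)⟩)
      · have := hs l
        omega
      · have h1 : n₀ l ≤ ∑ l, n₀ l := Finset.single_le_sum (f := n₀) (fun _ _ => Nat.zero_le _) (Finset.mem_univ l)
        exact hn₀ l _ (by have := hs l; omega)
  have hLc : (L.card : ℝ) ≤ C₁ * (T : ℝ) ^ ((k : ℝ) - 1 / ((δ : ℝ) + 2) ^ C) := by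
    refine (hC₁ id (δ * c) w' T hT).trans ?_
    refine mul_le_mul_of_nonneg_left (Real.rpow_le_rpow_of_exponent_le hT1 ?_) (Nat.cast_nonneg _)
    have h1 : (((δ * c : ℕ) : ℝ) + 2) ^ C₁ ≤ ((δ : ℝ) + 2) ^ C := by
      have h2 : (δ * c + 2) ^ C₁ ≤ (δ + 2) ^ C := (hb δ).trans (Nat.pow_le_pow_right (by omega) (by omega))
      exact_mod_cast h2
    have h3 := one_div_le_one_div_of_le (by positivity) h1
    linarith
  have hSc : ((B.filter fun t => ∃ i, t i < N₀).card : ℝ) ≤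
      (k * N₀ : ℕ) * (T : ℝ) ^ ((k : ℝ) - 1 / ((δ : ℝ) + 2) ^ C) := by
    have h1 := small_card k N₀ T (B.filter fun t => ∃ i, t i < N₀) fun t ht => by
      obtain ⟨h2, h3⟩ := Finset.mem_filter.1 ht
      have h4 := Fintype.mem_piFinset.1 (Finset.mem_filter.1 h2).1
      exact ⟨fun i => Finset.mem_Icc.1 (h4 i), h3⟩
    rcases Nat.eq_zero_or_pos k with hk | hk
    · subst hk
      have h2 : (B.filter fun t => ∃ i, t i < N₀).card = 0 := by omega
      rw [h2]
      simp only [Nat.cast_zero]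
      positivity
    · have h2 : ((B.filter fun t => ∃ i, t i < N₀).card : ℝ) ≤ (k * N₀ : ℕ) * (T : ℝ) ^ (k - 1) := by
        have h3 : (B.filter fun t => ∃ i, t i < N₀).card ≤ k * N₀ * T ^ (k - 1) := by
          rw [mul_assoc]
          exact h1
        exact_mod_cast h3
      refine h2.trans (mul_le_mul_of_nonneg_left ?_ (Nat.cast_nonneg _))
      rw [← Real.rpow_natCast]
      refine Real.rpow_le_rpow_of_exponent_le hT1 ?_
      rw [Nat.cast_sub hk]
      have h4 : (1 : ℝ) ≤ ((δ : ℝ) + 2) ^ C := one_le_pow₀ (by linarith)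
      have h5 : 1 / ((δ : ℝ) + 2) ^ C ≤ 1 := by
        rw [div_le_one (by linarith)]
        exact h4
      push_cast
      linarith
  have h1 : (B.card : ℝ) ≤ ((B.filter fun t => ∃ i, t i < N₀).card : ℝ) + L.card := by
    exact_mod_cast (Finset.card_le_card hsub).trans (Finset.card_union_le _ _)
  have h9 : (0 : ℝ) ≤ b * (T : ℝ) ^ ((k : ℝ) - 1 / ((δ : ℝ) + 2) ^ C) := by positivity
  have h10 : (C : ℝ) = C₁ + ((k * N₀ : ℕ) : ℝ) + b := by
    rw [hC]
    push_cast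
    ring
  refine h1.trans ((add_le_add hSc hLc).trans ?_)
  have h11 : ((C : ℕ) : ℝ) * (T : ℝ) ^ ((k : ℝ) - 1 / ((δ : ℝ) + 2) ^ C) =
      (C₁ + ((k * N₀ : ℕ) : ℝ) + b) * (T : ℝ) ^ ((k : ℝ) - 1 / ((δ : ℝ) + 2) ^ C) := by rw [h10]
  rw [h11]
  nlinarith [h9]

end Pool.Agent.R351.GD.H
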