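import Pool.Agent.R351.GD.H.Sys
import Pool.Agent.R351.GD.L.Inp

/-!
# Hypergeometric functions: the relations between the values, with exponents polynomial in the degree
-/

set_option autoImplicit false

open PowerSeries Pool.Agent.Y113 Pool.Agent.Y120.GF Pool.Agent.Y120.GH Pool.Agent.Y119.HZ
open Pool.Agent.Y119.HY (QD Jm cm Hf Hc)

namespace Pool.Agent.R351.GD.H

/-- words for monomials -/
theorem word_c (n Δ : ℕ) : ∀ e : Fin n → ℕ, ∑ i, e i ≤ Δ → ∃ f : Fin Δ → Option (Fin n),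
    ∀ z : Fin n → ℂ, yw z f = ∏ i, z i ^ e i := by
  unfold yw
  induction Δ with
  | zero =>
    intro e he
    have h1 : ∀ i, e i = 0 := fun i => by
      have := Finset.single_le_sum (f := e) (fun _ _ => Nat.zero_le _) (Finset.mem_univ i)
      omega
    exact ⟨fun i => none, fun z => by simp [h1]⟩
  | succ Δ ih =>
    intro e he
    by_cases h0 : ∀ i, e i = 0
    · exact ⟨fun i => none, fun z => by simp [h0]⟩
    · push Not at h0
      obtain ⟨i₀, hi₀⟩ := h0
      have e1 : e = Function.update e i₀ (e i₀ - 1) + Pi.single i₀ 1 := by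
        funext i
        by_cases hi : i = i₀
        · subst hi; simp; omega
        · simp [hi]
      have e2 : ∑ i, e i = (∑ i, Function.update e i₀ (e i₀ - 1) i) + 1 := by
        conv_lhs => rw [e1]
        simp [Finset.sum_add_distrib]
      obtain ⟨f, hf⟩ := ih (Function.update e i₀ (e i₀ - 1)) (by omega)
      refine ⟨Fin.cons (some i₀) f, fun z => ?_⟩
      rw [Fin.prod_univ_succ]
      simp only [Fin.cons_zero, Fin.cons_succ]
      rw [hf z]
      have e3 : ∏ i, z i ^ e i = (∏ i, z i ^ (Function.update e i₀ (e i₀ - 1)) i) *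
          ∏ i, z i ^ (Pi.single i₀ 1 : Fin n → ℕ) i := by
        rw [← Finset.prod_mul_distrib]
        refine Finset.prod_congr rfl fun i _ => ?_
        rw [← pow_add]
        congr 1
        exact congrFun e1 i
      have e4 : ∏ i, z i ^ (Pi.single i₀ 1 : Fin n → ℕ) i = z i₀ := by
        rw [Finset.prod_eq_single i₀]
        · simp
        · intro j _ hj; simp [hj]
        · simp
      rw [e3, e4, mul_comm]
      rfl

/-- the point with the coordinates `x`, `z` -/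
def px {N : ℕ} {σ : Type} (x : Fin N → ℂ) (z : Fin N → σ → ℂ) (p : Fin N × Option σ) : ℂ :=
  p.2.elim (x p.1) (z p.1)

/-- **expansion of a polynomial in a basis** -/
theorem expand_px {N r Δ : ℕ} {B : Finset (Fin Δ → Option (Fin r))} (κ : (Fin Δ → Option (Fin r)) → B → ℚ)
    (P : MvPolynomial (Fin N × Option (Fin r)) ℚ) (hP : P.totalDegree ≤ Δ) :
    ∃ Γ : (Fin N → B × Fin (Δ + 1)) → ℚ, ∀ (x : Fin N → ℂ) (z : Fin N → Fin r → ℂ),
      (∀ l w, yw (z l) w = ∑ b, ((κ w b : ℚ) : ℂ) * yw (z l) b.1) →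
      MvPolynomial.aeval (px x z) P = ∑ c, ((Γ c : ℚ) : ℂ) * ∏ l, (yw (z l) (c l).1.1 * x l ^ ((c l).2 : ℕ)) := by
  classical
  have hdeg : ∀ m ∈ P.support, ∑ p, m p ≤ Δ := by
    intro m hm'
    have h1 := (MvPolynomial.le_totalDegree hm').trans hP
    rwa [Finsupp.sum_fintype _ _ (fun _ => rfl)] at h1
  have hdl : ∀ m ∈ P.support, ∀ l : Fin N, m (l, none) + ∑ i : Fin r, m (l, some i) ≤ Δ := by
    intro m hm' l
    refine le_trans ?_ (hdeg m hm')
    rw [Fintype.sum_prod_type]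
    have h1 := Finset.single_le_sum (f := fun l => ∑ i : Option (Fin r), m (l, i)) (fun _ _ => Nat.zero_le _) (Finset.mem_univ l)
    refine le_trans (le_of_eq ?_) h1
    rw [Fintype.sum_option]
  have hw : ∀ (m : P.support) (l : Fin N), ∃ f : Fin Δ → Option (Fin r), ∀ z : Fin r → ℂ,
      yw z f = ∏ i, z i ^ (m : (Fin N × Option (Fin r)) →₀ ℕ) (l, some i) := fun m l =>
    word_c r Δ _ ((Nat.le_add_left _ _).trans (hdl m m.2 l))
  choose f hf using hw
  have hj : ∀ (m : P.support) (l : Fin N), (m : (Fin N × Option (Fin r)) →₀ ℕ) (l, none) < Δ + 1 := fun m l =>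
    Nat.lt_succ_of_le ((Nat.le_add_right _ _).trans (hdl m m.2 l))
  set co : P.support → Fin N → B × Fin (Δ + 1) → ℚ := fun m l c =>
    if c.2 = ⟨_, hj m l⟩ then κ (f m l) c.1 else 0 with hco
  refine ⟨fun c => ∑ m : P.support, P.coeff m * ∏ l, co m l (c l), fun x z hz => ?_⟩
  have h1 : ∀ (m : P.support) (l : Fin N), (∏ o : Option (Fin r), px x z (l, o) ^ (m : (Fin N × Option (Fin r)) →₀ ℕ) (l, o)) =
      ∑ c : B × Fin (Δ + 1), ((co m l c : ℚ) : ℂ) * (yw (z l) c.1.1 * x l ^ (c.2 : ℕ)) := by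
    intro m l
    rw [Fintype.prod_option]
    have h2 : ∏ i : Fin r, px x z (l, some i) ^ (m : (Fin N × Option (Fin r)) →₀ ℕ) (l, some i) = yw (z l) (f m l) := (hf m l (z l)).symm
    rw [h2, hz l, Fintype.sum_prod_type, Finset.mul_sum]
    refine Finset.sum_congr rfl fun b _ => ?_
    rw [Finset.sum_eq_single (⟨_, hj m l⟩ : Fin (Δ + 1))]
    · rw [hco]
      simp only [if_true]
      show x l ^ _ * _ = _
      ring
    · intro j _ hj'
      rw [hco]
      simp only [if_neg hj']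
      rw [Rat.cast_zero, zero_mul]
    · intro h
      exact absurd (Finset.mem_univ _) h
  rw [MvPolynomial.aeval_def, MvPolynomial.eval₂_eq', ← Finset.sum_coe_sort P.support]
  have h3 : ∀ m : P.support, (algebraMap ℚ ℂ) (P.coeff m) * ∏ p, px x z p ^ (m : (Fin N × Option (Fin r)) →₀ ℕ) p =
      ∑ c : Fin N → B × Fin (Δ + 1), ((P.coeff m * ∏ l, co m l (c l) : ℚ) : ℂ) *
        ∏ l, (yw (z l) (c l).1.1 * x l ^ ((c l).2 : ℕ)) := by
    intro m
    rw [Fintype.prod_prod_type, Finset.prod_congr rfl fun l _ => h1 m l, Finset.prod_univ_sum, Fintype.piFinset_univ,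
      Finset.mul_sum]
    refine Finset.sum_congr rfl fun c _ => ?_
    rw [Finset.prod_mul_distrib, eq_ratCast]
    push_cast
    ring
  rw [Finset.sum_congr rfl fun m _ => h3 m, Finset.sum_comm]
  refine Finset.sum_congr rfl fun c _ => ?_
  rw [← Finset.sum_mul, Rat.cast_sum]

variable {n : ℕ} {Q : Polynomial ℚ}

/-- **the data for the hypergeometric family** -/
theorem pack (hQ : QD n Q) (hH : ∀ i j, SDc (Hp n Q i j)) : ∃ (q₀ R c : ℕ) (Eb : ℕ → ℕ) (Tg : ℕ → Polynomial ℤ) (d : ℕ)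
    (K : Matrix (Fin n) (Fin n) ℤ), IK n Q d K ∧ PB Eb ∧
    (∀ g t : ℕ, g + c < t → Polynomial.aeval (1 / (t : ℝ)) (Tg g) ≠ 0) ∧
    ∀ δ : ℕ, ∃ (B : Finset (Fin δ → Option (Fin (n * n)))) (a : ℤ) (M : (Fin δ → Option (Fin (n * n))) → B → ℤ), a ≠ 0 ∧
      (fun _ => none) ∈ B ∧ B.card ≤ Eb δ ∧
      (∀ w, MvPolynomial.C a * ∏ i, uu K (w i) = ∑ b, MvPolynomial.C (M w b) * ∏ i, uu K (b.1 i)) ∧
      (∀ g : ℕ, GSys q₀ (((g : ℝ) + 2) ^ Eb δ) (Tg g) (Ys (hf n Q) B g)) ∧
      ∀ (k : ℕ) (g : Fin k → ℕ), SepR R g → LinearIndependent (Polynomial ℚ)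
        (fun b : Fin k → B × Fin (δ + 1) => ∏ l, Ys (hf n Q) B (g l) (b l)) := by
  classical
  obtain ⟨d, K, hK⟩ := exists_IK n Q
  obtain ⟨D', b', hD', hb'⟩ := exists_b n Q
  obtain ⟨q, Cg, hG0⟩ := gsys_Hp hQ hH hb'
  have hG : GSys q Cg (Polynomial.X * T1 D') (hf n Q) := hG0.reindex (ix n)
  have hT : Polynomial.X * T1 D' ≠ 0 := by
    refine mul_ne_zero Polynomial.X_ne_zero (mul_ne_zero (Polynomial.C_ne_zero.2 (by exact_mod_cast hD')) ?_)
    intro h0
    have := congrArg (Polynomial.eval 0) h0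
    simp at this
  have hode : ∀ i : Fin (n * n), ps (Polynomial.X * T1 D') * d⁄dX ℚ (hf n Q i) =
      ∑ j, ps (A2 n D' b' (ix n i) (ix n j)) * hf n Q j := by
    intro i
    have h1 := ode_A2 hQ hb' (ix n i)
    have h2 : ∑ j : Fin (n * n), ps (A2 n D' b' (ix n i) (ix n j)) * hf n Q j =
        ∑ q, ps (A2 n D' b' (ix n i) q) * Hp n Q q.1 q.2 :=
      Equiv.sum_comp (ix n) fun q => ps (A2 n D' b' (ix n i) q) * Hp n Q q.1 q.2
    exact h1.trans h2.symm
  obtain ⟨R, hR⟩ := li_fam (A := fun a c => A2 n D' b' (ix n a) (ix n c)) hT hode hG (qu_hf hQ hH hb')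
  obtain ⟨q₀, E₀, hS⟩ := sys hG
  obtain ⟨c, hc⟩ := Tg_ne hT hG.degT
  have huu : MvPolynomial.eval (fun _ => (0 : ℤ)) (uu K none) ≠ 0 := by
    have hD := (uu_at K (MvPolynomial.eval (fun _ : Sx n => (0 : ℤ)))).1
    rw [hD]
    have h3 : (fun p : Sx n => MvPolynomial.eval (fun _ : Sx n => (0 : ℤ)) (MvPolynomial.X p)) = fun _ : Sx n => (0 : ℤ) := by
      funext p
      rw [MvPolynomial.eval_X]
    have h4 : (sy fun _ : Sx n => (0 : ℤ)) = 0 := by
      ext i j
      unfold sy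
      rw [Matrix.of_apply]
      split_ifs <;> rfl
    rw [h3]
    unfold cD
    rw [h4, mul_zero, sub_zero, Matrix.det_one]
    exact one_ne_zero
  obtain ⟨E, hE, hbas⟩ := bas (uu K) none huu
  refine ⟨q₀, R, c, fun δ => 2 * E δ + E₀ * (δ + 1), fun g => Pool.Agent.Y120.GH.Tg q (Polynomial.X * T1 D') g, d, K, hK,
    ((PB.const 2).mul hE).add ((PB.const E₀).mul (PB.id.add (PB.const 1))), hc, fun δ => ?_⟩
  obtain ⟨B, a, M, ha0, h0B, ha, hM, hB, hrel, hli⟩ := hbas δ
  have hps := rel_ps hQ hK hrel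
  refine ⟨B, a, M, ha0, h0B, ?_, hrel, fun g => hS δ B a M (E δ) ha0 ha hM hps g, fun k g hg => ?_⟩
  · show B.card ≤ 2 * E δ + E₀ * (δ + 1)
    have h9 : 0 ≤ E₀ * (δ + 1) := Nat.zero_le _
    omega
  · have h1 := hR δ B (li_ps hQ hK hli) (δ + 1) k g hg
    rw [Fintype.linearIndependent_iff] at h1 ⊢
    intro G hG' b₀
    have h2 := h1 (fun b => G b * Polynomial.C (∏ l, (((b l).2 : ℕ).factorial : ℚ))) (by
      rw [← hG']
      refine Finset.sum_congr rfl fun b _ => ?_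
      rw [psmul, psmul, Polynomial.coe_mul, Polynomial.coe_C, mul_assoc]
      congr 1
      rw [map_prod, ← Finset.prod_mul_distrib]
      refine Finset.prod_congr rfl fun l _ => ?_
      unfold Fg Ys yQ
      have h3 : (C (((b l).2 : ℕ).factorial : ℚ) : ℚ⟦X⟧) * C (1 / (((b l).2 : ℕ).factorial : ℚ)) = 1 := by
        rw [← map_mul, mul_one_div_cancel (by exact_mod_cast Nat.factorial_ne_zero _), map_one]
      calc (C (((b l).2 : ℕ).factorial : ℚ) : ℚ⟦X⟧) * (sf (g l) (yw (hf n Q) (b l).1.1) *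
            (C (1 / (((b l).2 : ℕ).factorial : ℚ)) * lg (g l) ^ ((b l).2 : ℕ))) =
          (C (((b l).2 : ℕ).factorial : ℚ) * C (1 / (((b l).2 : ℕ).factorial : ℚ))) *
            (sf (g l) (yw (hf n Q) (b l).1.1) * lg (g l) ^ ((b l).2 : ℕ)) := by ring
        _ = _ := by rw [h3, one_mul]) b₀
    refine (mul_eq_zero.1 h2).resolve_right ?_
    rw [Polynomial.C_eq_zero, Finset.prod_eq_zero_iff]
    rintro ⟨l, -, hl⟩
    exact Nat.factorial_ne_zero _ (by exact_mod_cast hl)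

end Pool.Agent.R351.GD.H
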