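import Pool.Agent.R351.GD.H.Alg
import Pool.Agent.R351.GD.J.GenI
import Pool.Agent.R351.GD.P.AH

/-!
# Hypergeometric families: windows, with exponents polynomial in the degree
-/

set_option autoImplicit false

open Module Pool.Agent.Y113 Pool.Agent.Y120.GF Pool.Agent.Y120.GH Pool.Agent.Y119.HZ
open Pool.Agent.Y119.HY (QD Jm Am cm Hf Hc E)

namespace Pool.Agent.R351.GD.H

variable {n : ℕ}

/-- the holomorphic part at `1 / m` -/
noncomputable def zi (n : ℕ) (Q : Polynomial ℚ) (m : ℕ) : Matrix (Fin n) (Fin n) ℂ := Hf (Hc n Q) (((1 / (m : ℝ) : ℝ)) : ℂ)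

theorem zm1_eq {Q : Polynomial ℚ} {t g : ℕ} (h : g ≤ t) : zm1 n Q t g = zi n Q (t - g) := by
  unfold zm1 zi
  rw [Nat.cast_sub h]

theorem zi_form {Q : Polynomial ℚ} (hQ : QD n Q) {m : ℕ} (hm : 2 ≤ m) :
    (zi n Q m).transpose * cm (Jm n Q) * zi n Q m = cm (Jm n Q) := by
  refine Pool.Agent.Y119.HA.form_c hQ ?_
  have h1 : (2 : ℝ) ≤ m := by exact_mod_cast hm
  rw [Complex.norm_real, Real.norm_of_nonneg (by positivity), div_lt_one (by linarith)]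
  linarith

/-- specialisation of an identity -/
theorem of_gen {υ κ : Type} {F : IntermediateField ℚ ℂ} {w : υ → ℂ} {P : MvPolynomial (υ ⊕ κ) F}
    (h1 : MvPolynomial.aeval (Sum.elim (fun j => MvPolynomial.C (w j)) MvPolynomial.X) P = (0 : MvPolynomial κ ℂ))
    (y : κ → ℂ) : MvPolynomial.aeval (Sum.elim w y) P = 0 := by
  have h2 := congrArg (MvPolynomial.aeval y : MvPolynomial κ ℂ →ₐ[ℂ] ℂ) h1
  rw [map_zero] at h2
  rw [← h2]
  have h3 : ((MvPolynomial.aeval y : MvPolynomial κ ℂ →ₐ[ℂ] ℂ).restrictScalars F).comp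
      (MvPolynomial.aeval (Sum.elim (fun j => MvPolynomial.C (w j)) MvPolynomial.X) :
        MvPolynomial (υ ⊕ κ) F →ₐ[F] MvPolynomial κ ℂ) = MvPolynomial.aeval (Sum.elim w y) := by
    refine MvPolynomial.algHom_ext fun i => ?_
    rw [AlgHom.comp_apply, MvPolynomial.aeval_X, MvPolynomial.aeval_X, AlgHom.restrictScalars_apply]
    rcases i with j | j
    · rw [Sum.elim_inl, Sum.elim_inl, MvPolynomial.aeval_C]
      rfl
    · rw [Sum.elim_inr, Sum.elim_inr, MvPolynomial.aeval_X]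
  rw [← h3, AlgHom.comp_apply, AlgHom.restrictScalars_apply]

/-- the logarithm and the Cayley coordinates at `1 / m` -/
noncomputable def vI (n : ℕ) (Q : Polynomial ℚ) (d m : ℕ) (o : Option (Sx n)) : ℂ :=
  o.elim ((Real.log m : ℝ) : ℂ) (sc (cm (Jm n Q)) d (zi n Q m))

/-- **windows, for the Cayley coordinates** -/
theorem winS {Q : Polynomial ℚ} (hQ : QD n Q) (hH : ∀ i j, SDc (Hp n Q i j)) {d : ℕ} {K : Matrix (Fin n) (Fin n) ℤ}
    (hK : IK n Q d K) : ∃ G₀ : ℕ, 1 ≤ G₀ ∧ ∀ G : ℕ, G₀ ≤ G → ∀ k τ : ℕ, ∃ E : ℕ → ℕ, PB E ∧ ∀ δ H t : ℕ, (H + 2) ^ E δ ≤ t →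
      ∀ (υ : Type) [Fintype υ], Fintype.card υ = τ → ∀ w : υ → ℂ, (∃ a, w a = ((Real.log t : ℝ) : ℂ)) →
      ∃ S : Finset ℕ, S.card ≤ τ ∧ ∀ u : Fin k → ℕ, Function.Injective u → (∀ i, 1 ≤ u i ∧ u i ≤ H ∧ u i ∉ S) →
        (∀ i, G * u i + 2 ≤ t ∧ (zi n Q (t - G * u i) + 1).det ≠ 0) ∧
        ∀ F : IntermediateField ℚ ℂ, FiniteDimensional ℚ F → finrank ℚ F ≤ δ →
        ∀ P : MvPolynomial (υ ⊕ Fin k × Option (Sx n)) F, P.totalDegree ≤ δ →
        MvPolynomial.aeval (Sum.elim w fun p : Fin k × Option (Sx n) => vI n Q d (t - G * u p.1) p.2) P = 0 →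
        MvPolynomial.aeval (Sum.elim (fun j => MvPolynomial.C (w j)) MvPolynomial.X) P =
          (0 : MvPolynomial (Fin k × Option (Sx n)) ℂ) := by
  classical
  obtain ⟨R, hR⟩ := hvalS hQ hH hK
  refine ⟨R + 1, by omega, fun G hG k τ => ?_⟩
  have hR1 := hR G (by omega)
  obtain ⟨E₁, hE₁p, hE₁⟩ := hR1 1
  choose Ev hEvp hEv using hR1
  obtain ⟨E, hEp, hE⟩ := awh_exp Ev hEvp (σ := Option (Sx n)) k τ 1 1
  refine ⟨fun δ => E δ + (E₁ 0 + (G + 3)), hEp.add (PB.const _), fun δ H t ht υ _ hυ w hlog => ?_⟩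
  have hge : ∀ e ≤ E δ + (E₁ 0 + (G + 3)), (H + 2) ^ e ≤ t := fun e he => (Nat.pow_le_pow_right (by omega) he).trans ht
  obtain ⟨S, hS, h⟩ := hE δ ℂ ℕ (fun t => t) (fun t g => vS n Q d G t g)
    (fun N Δ H t ht g hg hgb P hP hP0 => (hEv N Δ H t ht g hg hgb).2 P hP hP0) H t (hge _ (by omega)) υ w Finset.univ
    (by rw [Finset.card_univ, hυ]) (Pool.Agent.Y916.Om.Dom.univ w)
  have hGH : G * H + 2 ≤ (H + 2) ^ (G + 1) := by
    have h2 : G + 1 ≤ 2 ^ G := Nat.lt_two_pow_self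
    have h3 : 2 ^ G ≤ (H + 2) ^ G := Nat.pow_le_pow_left (by omega) _
    rw [pow_succ]
    nlinarith
  have hGt : ∀ v, v ≤ H → G * v + 2 ≤ t := by
    intro v hv
    have h1 := hge (G + 1) (by omega)
    have h2 : G * v ≤ G * H := Nat.mul_le_mul_left _ hv
    omega
  refine ⟨S, hS, fun u hu huS => ⟨fun i => ⟨hGt _ (huS i).2.1, ?_⟩, fun F hF hFd P hP hP0 => ?_⟩⟩
  · have h1 := (hE₁ 0 H t (hge _ (by omega)) (fun _ => u i) (fun a b _ => Subsingleton.elim a b)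
      fun _ => ⟨(huS i).1, (huS i).2.1⟩).1 0
    rwa [zm1_eq (by have := hGt _ (huS i).2.1; omega)] at h1
  · refine h u hu huS F hF hFd (fun p => vI n Q d (t - G * u p.1) p.2) (fun p => ⟨1, one_ne_zero, ?_⟩) P hP hP0
    obtain ⟨i, _ | p⟩ := p
    · obtain ⟨a, ha⟩ := hlog
      have h1 := hGt _ (huS i).2.1
      have ht0 : (0 : ℝ) < t := by exact_mod_cast (by omega : 0 < t)
      have h2 : ((G * u i : ℕ) : ℝ) < t := by exact_mod_cast (by omega : G * u i < t)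
      have h3 : Real.log ((t - G * u i : ℕ) : ℝ) = Real.log t + Real.log (1 - (G * u i : ℕ) / t) := by
        have h4 : (0 : ℝ) < 1 - ((G * u i : ℕ) : ℝ) / t := by
          rw [sub_pos, div_lt_one ht0]
          exact h2
        rw [← Real.log_mul ht0.ne' h4.ne', Nat.cast_sub (by omega)]
        congr 1
        field_simp
      have h5 : vI n Q d (t - G * u i) none - ((1 : F) : ℂ) * vS n Q d G t (u i) none = w a := by
        show ((Real.log ((t - G * u i : ℕ) : ℝ) : ℝ) : ℂ) - ((1 : F) : ℂ) * ((Real.log (1 - (G * u i : ℕ) / t) : ℝ) : ℂ) = w a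
        rw [h3, ha]
        push_cast
        ring
      show vI n Q d (t - G * u i) none - ((1 : F) : ℂ) * vS n Q d G t (u i) none ∈ _
      rw [h5]
      exact Submodule.subset_span (Or.inr ⟨a, rfl⟩)
    · have h5 : vI n Q d (t - G * u i) (some p) - ((1 : F) : ℂ) * vS n Q d G t (u i) (some p) = 0 := by
        have h6 := hGt _ (huS i).2.1
        show sc (cm (Jm n Q)) d (zi n Q (t - G * u i)) p - ((1 : F) : ℂ) * sc (cm (Jm n Q)) d (zm1 n Q t (G * u i)) p = 0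
        rw [zm1_eq (by omega)]
        push_cast
        ring
      show vI n Q d (t - G * u i) (some p) - ((1 : F) : ℂ) * vS n Q d G t (u i) (some p) ∈ _
      rw [h5]
      exact Submodule.zero_mem _

/-- all relations of degree at most `δ` over number fields of degree at most `δ` hold on the product of the groups -/
def GenH {k : ℕ} (δ : ℕ) (Q : Fin k → Polynomial ℚ) {υ : Type} (w : υ → ℂ) (Oi : Fin k → Fin n → Fin n → υ)
    (m : Fin k → ℕ) : Prop :=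
  ∀ F : IntermediateField ℚ ℂ, FiniteDimensional ℚ F → finrank ℚ F ≤ δ →
    ∀ P : MvPolynomial (υ ⊕ Fin k × Option (Fin n × Fin n)) F, P.totalDegree ≤ δ →
    MvPolynomial.aeval (Sum.elim w (pm (fun l => ((Real.log (m l) : ℝ) : ℂ))
      fun l => Yt n (Q l) (m l) * Matrix.of fun a b => w (Oi l a b))) P = 0 →
    ∀ (x : Fin k → ℂ) (X : Fin k → Matrix (Fin n) (Fin n) ℂ),
      (∀ l, (X l).transpose * cm (Jm n (Q l)) * X l = cm (Jm n (Q l))) →
      MvPolynomial.aeval (Sum.elim w (pm x fun l => X l * Matrix.of fun a b => w (Oi l a b))) P = 0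

/-- the condition for the Cayley coordinates suffices -/
theorem genH_of {k : ℕ} {Q : Fin k → Polynomial ℚ} (hQ : ∀ l, QD n (Q l)) {d : Fin k → ℕ}
    {K : Fin k → Matrix (Fin n) (Fin n) ℤ} (hK : ∀ l, IK n (Q l) (d l) (K l)) :
    ∃ c : ℕ, ∀ (δ : ℕ) (υ : Type) (w : υ → ℂ) (Oi : Fin k → Fin n → Fin n → υ) (m : Fin k → ℕ), (∀ l, 2 ≤ m l) →
      (∀ l, (zi n (Q l) (m l) + 1).det ≠ 0) →
      (∀ F : IntermediateField ℚ ℂ, FiniteDimensional ℚ F → finrank ℚ F ≤ δ * c →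
        ∀ P : MvPolynomial (υ ⊕ Fin k × Option (Sx n)) F, P.totalDegree ≤ δ * c →
        MvPolynomial.aeval (Sum.elim w fun p : Fin k × Option (Sx n) => vI n (Q p.1) (d p.1) (m p.1) p.2) P = 0 →
        MvPolynomial.aeval (Sum.elim (fun j => MvPolynomial.C (w j)) MvPolynomial.X) P =
          (0 : MvPolynomial (Fin k × Option (Sx n)) ℂ)) → GenH δ Q w Oi m := by
  obtain ⟨c, hc⟩ := alg2 hQ hK
  refine ⟨c + 1, fun δ υ w Oi m hm hdet hfree F hF hFd P hP hP0 => ?_⟩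
  have h1 : δ ≤ δ * (c + 1) := Nat.le_mul_of_pos_right _ (Nat.succ_pos c)
  refine hc F υ w Oi δ (fun l => ((Real.log (m l) : ℝ) : ℂ)) (fun l => zi n (Q l) (m l)) (fun l => zi_form (hQ l) (hm l)) hdet
    (fun P' hP' hP'0 => of_gen (hfree F hF (hFd.trans h1) P' (hP'.trans (Nat.mul_le_mul_left _ (Nat.le_succ c))) ?_))
    P hP hP0
  rw [← hP'0]
  congr 2

/-- **windows, for the period matrices** -/
theorem winH {Q : Polynomial ℚ} (hQ : QD n Q) (hH : ∀ i j, SDc (Hp n Q i j)) :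
    ∃ G₀ : ℕ, 1 ≤ G₀ ∧ ∀ G : ℕ, G₀ ≤ G → ∀ k τ : ℕ, ∃ E : ℕ → ℕ, PB E ∧ ∀ δ H t : ℕ, (H + 2) ^ E δ ≤ t →
      ∀ (υ : Type) [Fintype υ], Fintype.card υ = τ → ∀ w : υ → ℂ, (∃ a, w a = ((Real.log t : ℝ) : ℂ)) →
      ∀ Oi : Fin n → Fin n → υ, ∃ S : Finset ℕ, S.card ≤ τ ∧ ∀ u : Fin k → ℕ, Function.Injective u →
        (∀ i, 1 ≤ u i ∧ u i ≤ H ∧ u i ∉ S) →
        (∀ i, G * u i + 2 ≤ t) ∧ GenH δ (fun _ => Q) w (fun _ => Oi) fun i => t - G * u i := by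
  obtain ⟨d, K, hK⟩ := exists_IK n Q
  obtain ⟨G₀, hG₀, hW⟩ := winS hQ hH hK
  refine ⟨G₀, hG₀, fun G hG k τ => ?_⟩
  obtain ⟨c, hc⟩ := genH_of (k := k) (Q := fun _ => Q) (d := fun _ => d) (K := fun _ => K) (fun _ => hQ) (fun _ => hK)
  obtain ⟨E, hEp, hE⟩ := hW G hG k τ
  refine ⟨fun δ => E (δ * c), hEp.comp (PB.id.mul (PB.const c)), fun δ H t ht υ _ hυ w hlog Oi => ?_⟩
  obtain ⟨S, hS, h⟩ := hE (δ * c) H t ht υ hυ w hlog
  refine ⟨S, hS, fun u hu huS => ?_⟩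
  obtain ⟨h1, h2⟩ := h u hu huS
  refine ⟨fun i => (h1 i).1, hc δ υ w (fun _ => Oi) (fun i => t - G * u i) (fun i => ?_) (fun i => (h1 i).2) h2⟩
  have := (h1 i).1
  omega

end Pool.Agent.R351.GD.H
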