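import Pool.Agent.R351.GD.H.AlN3
import Pool.Agent.R351.GD.H.Win
import Pool.Agent.R351.GD.P.AHL

/-!
# Hypergeometric families: windows at algebraic points, with exponents polynomial in the degree
-/

set_option autoImplicit false

open Module Pool.Agent.Y113 Pool.Agent.Y120.GF Pool.Agent.Y120.GH Pool.Agent.Y119.HZ
open Pool.Agent.Y119.HY (QD Jm Am cm Hf Hc E)
open Pool.Agent.Y916.Al (Ht)

namespace Pool.Agent.R351.GD.H

variable {n : ℕ}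

theorem zc_form {Q : Polynomial ℚ} (hQ : QD n Q) {ξ : ℂ} {g : ℕ} (h : 1 < ‖ξ - (g : ℂ)‖) :
    (zc n Q ξ g).transpose * cm (Jm n Q) * zc n Q ξ g = cm (Jm n Q) := by
  refine Pool.Agent.Y119.HA.form_c hQ ?_
  rw [norm_div, norm_one, div_lt_one (by linarith)]
  exact h

/-- **windows at algebraic points, for the Cayley coordinates** -/
theorem winA {Q : Polynomial ℚ} (hQ : QD n Q) (hH : ∀ i j, SDc (Hp n Q i j)) {d : ℕ} {K : Matrix (Fin n) (Fin n) ℤ}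
    (hK : IK n Q d K) : ∃ G₀ : ℕ, 1 ≤ G₀ ∧ ∀ G : ℕ, G₀ ≤ G → ∀ k τ : ℕ, ∃ E : ℕ → ℕ, PB E ∧ ∀ (δ H : ℕ) (ξ : ℂ), Ht δ δ ξ →
      ((H : ℝ) + 2) ^ E δ ≤ ‖ξ‖ → ∀ (υ : Type) [Fintype υ], Fintype.card υ = τ → ∀ w : υ → ℂ,
      ∃ S : Finset ℕ, S.card ≤ τ ∧ ∀ u : Fin k → ℕ, Function.Injective u → (∀ i, 1 ≤ u i ∧ u i ≤ H ∧ u i ∉ S) →
        (∀ i, 1 < ‖ξ - ((G * u i : ℕ) : ℂ)‖ ∧ (zc n Q ξ (G * u i) + 1).det ≠ 0) ∧
        ∀ l : Fin k → ℂ, (∀ i, l i - Complex.log (1 - ((G * u i : ℕ) : ℂ) / ξ) ∈ Submodule.span ℚ (Set.range w)) →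
        ∀ F : IntermediateField ℚ ℂ, FiniteDimensional ℚ F → finrank ℚ F ≤ δ →
        ∀ P : MvPolynomial (υ ⊕ Fin k × Option (Sx n)) F, P.totalDegree ≤ δ →
        MvPolynomial.aeval (Sum.elim w (px l fun i => sc (cm (Jm n Q)) d (zc n Q ξ (G * u i)))) P = 0 →
        MvPolynomial.aeval (Sum.elim (fun j => MvPolynomial.C (w j)) MvPolynomial.X) P =
          (0 : MvPolynomial (Fin k × Option (Sx n)) ℂ) := by
  classical
  obtain ⟨R, hR⟩ := hvalA hQ hH hK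
  refine ⟨R + 1, by omega, fun G hG k τ => ?_⟩
  have hR1 := hR G (by omega)
  obtain ⟨E₁, hE₁p, hE₁⟩ := hR1 1
  choose Ev hEvp hEv using hR1
  obtain ⟨E, hEp, hE⟩ := awh_expL Ev hEvp (σ := Option (Sx n)) k τ 1 1
  refine ⟨fun δ => E δ + (E₁ δ + (G + 3)), hEp.add (hE₁p.add (PB.const _)), fun δ H ξ hht hξ υ _ hυ w => ?_⟩
  have hH2 : (1 : ℝ) ≤ (H : ℝ) + 2 := one_le_base H
  have hξ : ((H : ℝ) + 2) ^ (E δ + (E₁ δ + (G + 3))) ≤ ‖ξ‖ := hξ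
  have hge : ∀ e ≤ E δ + (E₁ δ + (G + 3)), ((H : ℝ) + 2) ^ e ≤ ‖ξ‖ := fun e he => (base_mono hH2 he).trans hξ
  have hfl : ∀ (H' e : ℕ) (z : ℂ), (H' + 2) ^ e ≤ ⌊‖z‖⌋₊ → ((H' : ℝ) + 2) ^ e ≤ ‖z‖ := by
    intro H' e z h
    have h1 := (Nat.le_floor_iff (norm_nonneg z)).1 h
    push_cast at h1
    exact h1
  have hξ1 : (1 : ℝ) ≤ ‖ξ‖ := by
    have h1 := hge 0 (Nat.zero_le _)
    rwa [pow_zero] at h1
  obtain ⟨S, hS, h⟩ := hE δ ℂ {z : ℂ // Ht δ δ z} (fun z => ⌊‖z.1‖⌋₊) (fun z g => vA n Q d G z.1 g)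
    (fun N Δ H z ht g hg hgb P hP hP0 => by
      have h1 := hfl _ _ _ ht
      have h2 : (1 : ℝ) ≤ ‖z.1‖ := by
        refine le_trans ?_ h1
        exact one_le_pow₀ (one_le_base H)
      exact (hEv N (Δ + δ) H z.1 (ht_mono (Nat.le_add_left _ _) (Nat.le_add_left _ _) h2 z.2) h1 g hg hgb).2 P
        (hP.trans (Nat.le_add_right _ _)) hP0) H ⟨ξ, hht⟩ (by
      refine Nat.le_floor ?_
      push_cast
      exact hge _ (by omega)) υ w Finset.univ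
    (by rw [Finset.card_univ, hυ]) (Pool.Agent.Y916.Om.Dom.univ w)
  have hGH : G * H + 2 ≤ (H + 2) ^ (G + 1) := by
    have h2 : G + 1 ≤ 2 ^ G := Nat.lt_two_pow_self
    have h3 : 2 ^ G ≤ (H + 2) ^ G := Nat.pow_le_pow_left (by omega) _
    rw [pow_succ]
    nlinarith
  have hGHR : ((G * H : ℕ) : ℝ) + 2 ≤ ((H : ℝ) + 2) ^ (G + 1) := by exact_mod_cast hGH
  have hGt : ∀ v : ℕ, v ≤ H → ((G * v : ℕ) : ℝ) + 2 ≤ ‖ξ‖ := by
    intro v hv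
    have h1 := hge (G + 1) (by omega)
    have h2 : ((G * v : ℕ) : ℝ) ≤ ((G * H : ℕ) : ℝ) := by exact_mod_cast Nat.mul_le_mul_left _ hv
    linarith
  have hGt2 : ∀ v : ℕ, v ≤ H → 2 * ((G * v : ℕ) : ℝ) + 2 < ‖ξ‖ := by
    intro v hv
    have h1 := hge (G + 2) (by omega)
    have h2 : ((G * v : ℕ) : ℝ) ≤ ((G * H : ℕ) : ℝ) := by exact_mod_cast Nat.mul_le_mul_left _ hv
    have h3 : ((H : ℝ) + 2) ^ (G + 2) = ((H : ℝ) + 2) ^ (G + 1) * ((H : ℝ) + 2) := pow_succ _ _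
    have h4 : (0 : ℝ) ≤ H := Nat.cast_nonneg H
    have h5 : 2 * ((H : ℝ) + 2) ^ (G + 1) ≤ ((H : ℝ) + 2) ^ (G + 2) := by
      rw [h3]
      nlinarith [pow_pos (show (0 : ℝ) < (H : ℝ) + 2 by linarith) (G + 1)]
    linarith
  have hn1 : ∀ v : ℕ, v ≤ H → 1 < ‖ξ - ((G * v : ℕ) : ℂ)‖ := by
    intro v hv
    have h1 := norm_sub_norm_le ξ ((G * v : ℕ) : ℂ)
    rw [Complex.norm_natCast] at h1
    linarith [hGt v hv]
  refine ⟨S, hS, fun u hu huS => ⟨fun i => ⟨hn1 _ (huS i).2.1, ?_⟩, fun l hl F hF hFd P hP hP0 => ?_⟩⟩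
  · exact (hE₁ δ H ξ hht (hge _ (by omega)) (fun _ => u i) (fun a b _ => Subsingleton.elim a b)
      fun _ => ⟨(huS i).1, (huS i).2.1⟩).1 0
  · refine h u hu huS F hF hFd (px l fun i => sc (cm (Jm n Q)) d (zc n Q ξ (G * u i))) (fun p => ⟨1, one_ne_zero, ?_⟩) P hP hP0
    obtain ⟨i, _ | p⟩ := p
    · show l i - ((1 : F) : ℂ) * Complex.log (1 - ((G * u i : ℕ) : ℂ) / ξ) ∈ _
      have h6 : ((1 : F) : ℂ) = 1 := rfl
      rw [h6, one_mul]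
      refine (Submodule.span_le (p := (Submodule.span F _).restrictScalars ℚ)).2 ?_ (hl i)
      rintro _ ⟨a, rfl⟩
      exact Submodule.subset_span (Or.inr ⟨a, rfl⟩)
    · have h5 : px l (fun i => sc (cm (Jm n Q)) d (zc n Q ξ (G * u i))) (i, some p) -
          ((1 : F) : ℂ) * vA n Q d G ξ (u i) (some p) = 0 := by
        show sc (cm (Jm n Q)) d (zc n Q ξ (G * u i)) p - ((1 : F) : ℂ) * sc (cm (Jm n Q)) d (zc n Q ξ (G * u i)) p = 0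
        have h6 : ((1 : F) : ℂ) = 1 := rfl
        rw [h6, one_mul, sub_self]
      show px l (fun i => sc (cm (Jm n Q)) d (zc n Q ξ (G * u i))) (i, some p) - ((1 : F) : ℂ) * vA n Q d G ξ (u i) (some p) ∈ _
      rw [h5]
      exact Submodule.zero_mem _

/-- **windows at algebraic points, for the period matrices** -/
theorem winAH {Q : Polynomial ℚ} (hQ : QD n Q) (hH : ∀ i j, SDc (Hp n Q i j)) :
    ∃ G₀ : ℕ, 1 ≤ G₀ ∧ ∀ G : ℕ, G₀ ≤ G → ∀ k τ : ℕ, ∃ ef : ℕ → ℕ, PB ef ∧ ∀ (δ H : ℕ) (ξ : ℂ), Ht δ δ ξ →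
      ((H : ℝ) + 2) ^ ef δ ≤ ‖ξ‖ → ∀ (υ : Type) [Fintype υ], Fintype.card υ = τ → ∀ w : υ → ℂ,
      ∀ Oi : Fin n → Fin n → υ, ∃ S : Finset ℕ, S.card ≤ τ ∧ ∀ u : Fin k → ℕ, Function.Injective u →
        (∀ i, 1 ≤ u i ∧ u i ≤ H ∧ u i ∉ S) → (∀ i, 1 < ‖ξ - ((G * u i : ℕ) : ℂ)‖) ∧
        ∀ l : Fin k → ℂ, (∀ i, l i - Complex.log (1 - ((G * u i : ℕ) : ℂ) / ξ) ∈ Submodule.span ℚ (Set.range w)) →
        ∀ F : IntermediateField ℚ ℂ, FiniteDimensional ℚ F → finrank ℚ F ≤ δ →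
        ∀ P : MvPolynomial (υ ⊕ Fin k × Option (Fin n × Fin n)) F, P.totalDegree ≤ δ →
        MvPolynomial.aeval (Sum.elim w (pm l fun i => zc n Q ξ (G * u i) * E (cm (Am n)) (-l i) *
          Matrix.of fun a b => w (Oi a b))) P = 0 →
        ∀ (x : Fin k → ℂ) (X : Fin k → Matrix (Fin n) (Fin n) ℂ),
          (∀ l, (X l).transpose * cm (Jm n Q) * X l = cm (Jm n Q)) →
          MvPolynomial.aeval (Sum.elim w (pm x fun l => X l * Matrix.of fun a b => w (Oi a b))) P = 0 := by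
  obtain ⟨d, K, hK⟩ := exists_IK n Q
  obtain ⟨G₀, hG₀, hW⟩ := winA hQ hH hK
  refine ⟨G₀, hG₀, fun G hG k τ => ?_⟩
  obtain ⟨c, hc⟩ := alg2 (k := k) (Q := fun _ => Q) (d := fun _ => d) (K := fun _ => K) (fun _ => hQ) (fun _ => hK)
  obtain ⟨E', hEp, hE⟩ := hW G hG k τ
  refine ⟨fun δ => E' (δ * (c + 1)), hEp.comp (PB.id.mul (PB.const (c + 1))), fun δ H ξ hht hξ υ _ hυ w Oi => ?_⟩
  have hξ1 : (1 : ℝ) ≤ ‖ξ‖ := le_trans (one_le_pow₀ (one_le_base H)) hξ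
  have h1 : δ ≤ δ * (c + 1) := Nat.le_mul_of_pos_right _ (Nat.succ_pos c)
  obtain ⟨S, hS, h⟩ := hE (δ * (c + 1)) H ξ (ht_mono h1 h1 hξ1 hht) hξ υ hυ w
  refine ⟨S, hS, fun u hu huS => ?_⟩
  obtain ⟨h2, h3⟩ := h u hu huS
  refine ⟨fun i => (h2 i).1, fun l hl F hF hFd P hP hP0 x X hX => ?_⟩
  refine hc F υ w (fun _ => Oi) δ l (fun i => zc n Q ξ (G * u i)) (fun i => zc_form hQ (h2 i).1) (fun i => (h2 i).2)
    (fun P' hP' hP'0 => of_gen (h3 l hl F hF (hFd.trans h1) P' (hP'.trans (Nat.mul_le_mul_left _ (Nat.le_succ c))) hP'0))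
    P hP hP0 x X hX

end Pool.Agent.R351.GD.H
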