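import Pool.Agent.R351.GD.H.WinL1

/-!
# Hypergeometric families: windows at algebraic points, one point, without the logarithms
-/

set_option autoImplicit false

open Module Pool.Agent.Y113 Pool.Agent.Y120.GF Pool.Agent.Y120.GH Pool.Agent.Y119.HZ
open Pool.Agent.Y119.HY (QD Jm Am cm Hf Hc)
open Pool.Agent.Y916.Al (Ht)

namespace Pool.Agent.R351.GD.H

variable {n : ℕ}

/-- **One point of a window of algebraic points: relations with constants.** -/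
theorem one_win_g {Q : Polynomial ℚ} (hQ : QD n Q) (hH : ∀ i j, SDc (Hp n Q i j)) : ∃ G0 : ℕ, 1 ≤ G0 ∧ ∀ G : ℕ, G0 ≤ G →
    ∀ τ : ℕ, ∃ ef : ℕ → ℕ, PB ef ∧ ∀ (δ H : ℕ) (ξ : ℂ), ((H : ℝ) + 2) ^ ef δ ≤ ‖ξ‖ → Ht δ δ ξ →
    (∀ u ≤ H, 2 ≤ ‖ξ - ((G * u : ℕ) : ℂ)‖) ∧
    ∀ (υ : Type) [Fintype υ], Fintype.card υ = τ → ∀ w : υ → ℂ, ∃ S : Finset ℕ, S.card ≤ τ ∧
    ∀ u : ℕ, 1 ≤ u → u ≤ H → u ∉ S →
    ∀ F : IntermediateField ℚ ℂ, FiniteDimensional ℚ F → finrank ℚ F ≤ δ →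
    ∀ P : MvPolynomial (υ ⊕ Fin n × Fin n) F, P.totalDegree ≤ δ →
    MvPolynomial.aeval (Sum.elim w fun x : Fin n × Fin n => Hf (Hc n Q) (1 / (ξ - ((G * u : ℕ) : ℂ))) x.1 x.2) P = 0 →
    ∀ g : Matrix (Fin n) (Fin n) ℂ, g.transpose * cm (Jm n Q) * g = cm (Jm n Q) →
    MvPolynomial.aeval (Sum.elim w fun x : Fin n × Fin n => g x.1 x.2) P = 0 := by
  classical
  obtain ⟨d, K, hK⟩ := exists_IK n Q
  obtain ⟨R, hR⟩ := hvalA hQ hH hK
  obtain ⟨c, hc⟩ := algL hQ hK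
  refine ⟨R + 1, by omega, fun G hG τ => ?_⟩
  have hR1 := hR G (by omega)
  obtain ⟨E₁, hE₁p, hE₁⟩ := hR1 1
  choose Ev hEvp hEv using hR1
  obtain ⟨E, hEp, hE⟩ := awh_expL Ev hEvp (σ := Sx n) 1 τ 1 1
  refine ⟨fun δ => E (δ * (c + 1)) + (E₁ δ + (G + 3)),
    (hEp.comp (PB.id.mul (PB.const (c + 1)))).add (hE₁p.add (PB.const _)), fun δ H ξ hξ hht => ?_⟩
  have hH2 : (1 : ℝ) ≤ (H : ℝ) + 2 := one_le_base H
  have hξ : ((H : ℝ) + 2) ^ (E (δ * (c + 1)) + (E₁ δ + (G + 3))) ≤ ‖ξ‖ := hξ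
  have hge : ∀ e ≤ E (δ * (c + 1)) + (E₁ δ + (G + 3)), ((H : ℝ) + 2) ^ e ≤ ‖ξ‖ := fun e he => (base_mono hH2 he).trans hξ
  have hfl : ∀ (H' e : ℕ) (z : ℂ), (H' + 2) ^ e ≤ ⌊‖z‖⌋₊ → ((H' : ℝ) + 2) ^ e ≤ ‖z‖ := by
    intro H' e z h
    have h1 := (Nat.le_floor_iff (norm_nonneg z)).1 h
    push_cast at h1
    exact h1
  have hξ1 : (1 : ℝ) ≤ ‖ξ‖ := by
    have h1 := hge 0 (Nat.zero_le _)
    rwa [pow_zero] at h1
  have hδc : δ ≤ δ * (c + 1) := Nat.le_mul_of_pos_right _ (Nat.succ_pos c)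
  have hGH : G * H + 2 ≤ (H + 2) ^ (G + 1) := by
    have h2 : G + 1 ≤ 2 ^ G := Nat.lt_two_pow_self
    have h3 : 2 ^ G ≤ (H + 2) ^ G := Nat.pow_le_pow_left (by omega) _
    rw [pow_succ]
    nlinarith
  have hGHR : ((G * H : ℕ) : ℝ) + 2 ≤ ((H : ℝ) + 2) ^ (G + 1) := by exact_mod_cast hGH
  have hn2 : ∀ v : ℕ, v ≤ H → 2 ≤ ‖ξ - ((G * v : ℕ) : ℂ)‖ := by
    intro v hv
    have h1 := norm_sub_norm_le ξ ((G * v : ℕ) : ℂ)
    rw [Complex.norm_natCast] at h1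
    have h3 := hge (G + 1) (by omega)
    have h2 : ((G * v : ℕ) : ℝ) ≤ ((G * H : ℕ) : ℝ) := by exact_mod_cast Nat.mul_le_mul_left _ hv
    linarith
  refine ⟨hn2, fun υ _ hυ w => ?_⟩
  obtain ⟨S, hS, h⟩ := hE (δ * (c + 1)) ℂ {z : ℂ // Ht (δ * (c + 1)) (δ * (c + 1)) z} (fun z => ⌊‖z.1‖⌋₊)
    (fun z g p => vA n Q d G z.1 g (some p))
    (fun N Δ H z ht g hg hgb P hP hP0 => by
      have h1 := hfl _ _ _ ht
      have h2 : (1 : ℝ) ≤ ‖z.1‖ := by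
        refine le_trans ?_ h1
        exact one_le_pow₀ (one_le_base H)
      have h3 := (hEv N (Δ + δ * (c + 1)) H z.1 (ht_mono (Nat.le_add_left _ _) (Nat.le_add_left _ _) h2 z.2) h1 g hg hgb).2
        (MvPolynomial.rename (Prod.map id some) P)
        (((MvPolynomial.totalDegree_rename_le _ _).trans hP).trans (Nat.le_add_right _ _)) (by
          rw [MvPolynomial.aeval_rename]
          exact hP0)
      exact MvPolynomial.rename_injective _ (Function.injective_id.prodMap (Option.some_injective _)) (by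
        rw [h3, map_zero])) H ⟨ξ, ht_mono hδc hδc hξ1 hht⟩ (by
      refine Nat.le_floor ?_
      push_cast
      exact hge _ (by omega)) υ w Finset.univ
    (by rw [Finset.card_univ, hυ]) (Pool.Agent.Y916.Om.Dom.univ w)
  refine ⟨S, hS, fun u hu1 hu2 huS F hF hFd P hP hP0 g hg => ?_⟩
  have hdet : (zc n Q ξ (G * u) + 1).det ≠ 0 := (hE₁ δ H ξ hht (hge _ (by omega)) (fun _ => u)
    (fun a b _ => Subsingleton.elim a b) fun _ => ⟨hu1, hu2⟩).1 0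
  have hn1 : 1 < ‖ξ - ((G * u : ℕ) : ℂ)‖ := by linarith [hn2 u hu2]
  have key : ∀ P' : MvPolynomial (υ ⊕ Sx n) F, P'.totalDegree ≤ δ * c →
      MvPolynomial.aeval (Sum.elim w (sc (cm (Jm n Q)) d (zc n Q ξ (G * u)))) P' = 0 →
      ∀ y, MvPolynomial.aeval (Sum.elim w y) P' = 0 := by
    intro P' hP' hP'0 y
    have hx : ∀ p : Fin 1 × Sx n, ∃ a : F, a ≠ 0 ∧ sc (cm (Jm n Q)) d (zc n Q ξ (G * u)) p.2 -
        a * vA n Q d G ξ u (some p.2) ∈ Submodule.span F (insert 1 (Set.range w)) := by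
      intro p
      refine ⟨1, one_ne_zero, ?_⟩
      have h5 : sc (cm (Jm n Q)) d (zc n Q ξ (G * u)) p.2 - ((1 : F) : ℂ) * vA n Q d G ξ u (some p.2) = 0 := by
        show sc (cm (Jm n Q)) d (zc n Q ξ (G * u)) p.2 - ((1 : F) : ℂ) * sc (cm (Jm n Q)) d (zc n Q ξ (G * u)) p.2 = 0
        have h6 : ((1 : F) : ℂ) = 1 := rfl
        rw [h6, one_mul, sub_self]
      rw [h5]
      exact Submodule.zero_mem _
    have hd : (MvPolynomial.rename (Sum.map id fun p => ((0 : Fin 1), p)) P').totalDegree ≤ δ * (c + 1) :=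
      ((MvPolynomial.totalDegree_rename_le _ _).trans hP').trans (Nat.mul_le_mul_left _ (Nat.le_succ c))
    have h0 : MvPolynomial.aeval (Sum.elim w fun p : Fin 1 × Sx n => sc (cm (Jm n Q)) d (zc n Q ξ (G * u)) p.2)
        (MvPolynomial.rename (Sum.map id fun p => ((0 : Fin 1), p)) P') = 0 := by
      rw [MvPolynomial.aeval_rename, ← hP'0]
      refine congrArg (fun z => MvPolynomial.aeval z P') (funext fun s => ?_)
      rcases s with s | s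
      · rfl
      · rfl
    have h2 := h (fun _ => u) (fun a b _ => Subsingleton.elim a b) (fun _ => ⟨hu1, hu2, huS⟩) F hF (hFd.trans hδc)
      (fun p => sc (cm (Jm n Q)) d (zc n Q ξ (G * u)) p.2) hx _ hd h0
    have h3 := of_gen h2 (fun p => y p.2)
    rw [MvPolynomial.aeval_rename] at h3
    rw [← h3]
    refine congrArg (fun z => MvPolynomial.aeval z P') (funext fun s => ?_)
    rcases s with s | s
    · rfl
    · rfl
  exact hc F υ w δ (zc n Q ξ (G * u)) (zc_form hQ hn1) hdet key P hP hP0 g hg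

end Pool.Agent.R351.GD.H
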