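import Pool.Agent.R351.GD.H.WinA

/-!
# Hypergeometric families: from the Cayley coordinates to the matrices, without the logarithms
-/

set_option autoImplicit false

open Module Pool.Agent.Y113 Pool.Agent.Y120.GF Pool.Agent.Y120.GH Pool.Agent.Y119.HZ
open Pool.Agent.Y119.HY (QD Jm Am cm Hf Hc)
open Pool.Agent.Y916.Al (Ht)

namespace Pool.Agent.R351.GD.H

variable {n : ℕ}

/-- **from the Cayley coordinates to the matrices, without the logarithms** -/
theorem algL {Q : Polynomial ℚ} (hQ : QD n Q) {d : ℕ} {K : Matrix (Fin n) (Fin n) ℤ} (hK : IK n Q d K) :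
    ∃ c : ℕ, ∀ (F : IntermediateField ℚ ℂ) (υ : Type) (w : υ → ℂ) (δ : ℕ)
      (Z : Matrix (Fin n) (Fin n) ℂ), Z.transpose * cm (Jm n Q) * Z = cm (Jm n Q) → (Z + 1).det ≠ 0 →
      (∀ P' : MvPolynomial (υ ⊕ Sx n) F, P'.totalDegree ≤ δ * c →
        MvPolynomial.aeval (Sum.elim w (sc (cm (Jm n Q)) d Z)) P' = 0 →
        ∀ y, MvPolynomial.aeval (Sum.elim w y) P' = 0) →
      ∀ P : MvPolynomial (υ ⊕ Fin n × Fin n) F, P.totalDegree ≤ δ →
        MvPolynomial.aeval (Sum.elim w fun x : Fin n × Fin n => Z x.1 x.2) P = 0 →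
        ∀ X : Matrix (Fin n) (Fin n) ℂ, X.transpose * cm (Jm n Q) * X = cm (Jm n Q) →
          MvPolynomial.aeval (Sum.elim w fun x : Fin n × Fin n => X x.1 x.2) P = 0 := by
  classical
  set Dp : MvPolynomial (Sx n) ℤ := cD (zm K) fun p => MvPolynomial.X p with hDp
  set Np : Fin n × Fin n → MvPolynomial (Sx n) ℤ := fun j => (cN (zm K) fun p => MvPolynomial.X p) j.1 j.2 with hNp
  refine ⟨Dp.totalDegree + 1 + ∑ j, (Np j).totalDegree, fun F υ w δ Z hZ hZdet hfree P hP hP0 => ?_⟩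
  set c := Dp.totalDegree + 1 + ∑ j, (Np j).totalDegree with hc
  have hJ : zm K * cm (Jm n Q) = ((d : ℕ) : ℂ) • (1 : Matrix (Fin n) (Fin n) ℂ) ∧
      (cm (Jm n Q)).transpose = -cm (Jm n Q) :=
    ⟨(hK.jk hQ (algebraMap ℚ ℂ)).2.1, (hK.jk hQ (algebraMap ℚ ℂ)).2.2⟩
  have hdc : ((d : ℕ) : ℂ) ≠ 0 := by exact_mod_cast hK.ne
  have hDe : ∀ y : Sx n → ℂ, evy y Dp = cD (zm K) y := by
    intro y
    rw [hDp, ← cD_map, zm_map]
    simp only [evy_X]
  have hNe : ∀ (y : Sx n → ℂ) (j : Fin n × Fin n), evy y (Np j) = (cN (zm K) y) j.1 j.2 := by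
    intro y j
    have h2 := cN_map (evy y) (zm K) (fun p => MvPolynomial.X p)
    rw [zm_map] at h2
    simp only [evy_X] at h2
    rw [h2]
    rfl
  set xx : υ ⊕ Fin n × Fin n → MvPolynomial (υ ⊕ Sx n) F :=
    Sum.elim (fun v => emb F Dp * MvPolynomial.X (Sum.inl v)) fun j => emb F (Np j) with hxx
  have hDc : (emb (υ := υ) F Dp).totalDegree ≤ c := (emb_deg F _).trans (by rw [hc]; omega)
  have hxc : ∀ s, (xx s).totalDegree ≤ c := by
    rintro (v | j)
    · refine (MvPolynomial.totalDegree_mul _ _).trans ?_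
      rw [MvPolynomial.totalDegree_X]
      have := emb_deg (υ := υ) F Dp
      rw [hc]
      omega
    · refine (emb_deg F _).trans ?_
      have h1 : (Np j).totalDegree ≤ ∑ j, (Np j).totalDegree :=
        Finset.single_le_sum (f := fun j => (Np j).totalDegree) (fun _ _ => Nat.zero_le _) (Finset.mem_univ j)
      rw [hc]
      omega
  have hxe : ∀ X : Matrix (Fin n) (Fin n) ℂ, X.transpose * cm (Jm n Q) * X = cm (Jm n Q) → (X + 1).det ≠ 0 → ∀ s,
      MvPolynomial.aeval (Sum.elim w (sc (cm (Jm n Q)) d X)) (xx s) =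
        MvPolynomial.aeval (Sum.elim w (sc (cm (Jm n Q)) d X)) (emb F Dp) * (Sum.elim w (fun x : Fin n × Fin n => X x.1 x.2) s) := by
    intro X hX hXd s
    rcases s with v | j
    · show MvPolynomial.aeval _ (emb F Dp * MvPolynomial.X (Sum.inl v)) = _
      rw [map_mul, MvPolynomial.aeval_X]
      rfl
    · show MvPolynomial.aeval _ (emb F (Np j)) = _
      rw [emb_ev, emb_ev, hDe, hNe, (sc_at hdc hJ.2 hJ.1 hX hXd).1]
      rfl
  have hall := hfree (hmg δ P (emb F Dp) xx) (hmg_deg hP hDc hxc) (by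
    rw [hmg_ev hP _ _ (hxe Z hZ hZdet), hP0, mul_zero])
  -- the dense open subset
  have hopen : ∀ X : Matrix (Fin n) (Fin n) ℂ, X.transpose * cm (Jm n Q) * X = cm (Jm n Q) → (X + 1).det ≠ 0 →
      MvPolynomial.aeval (Sum.elim w fun x : Fin n × Fin n => X x.1 x.2) P = 0 := by
    intro X hX hXd
    have h1 := hall (sc (cm (Jm n Q)) d X)
    rw [hmg_ev hP _ _ (hxe X hX hXd)] at h1
    refine (mul_eq_zero.1 h1).resolve_left (pow_ne_zero _ ?_)
    rw [emb_ev, hDe]
    have h2 := (sc_at hdc hJ.2 hJ.1 hX hXd).2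
    intro h0
    rw [h0, zero_mul] at h2
    exact pow_ne_zero n (two_ne_zero (α := ℂ)) h2.symm
  -- the closure
  intro X hX
  obtain ⟨M, hM0, hM1, hM⟩ := Pool.Agent.Y118.CM.Pc_all hJ.2 (Pool.Agent.Y119.HY.Jc_det hQ) X hX
  set p : Polynomial ℂ := MvPolynomial.aeval (Sum.elim (fun v => Polynomial.C (w v)) fun x : Fin n × Fin n => M x.1 x.2) P with hp
  have hpe : ∀ c : ℂ, p.eval c = MvPolynomial.aeval (Sum.elim w fun x : Fin n × Fin n => (M.map (Polynomial.eval c)) x.1 x.2) P := by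
    intro c
    have h1 : ((Polynomial.aeval c : Polynomial ℂ →ₐ[ℂ] ℂ).restrictScalars F).comp
        (MvPolynomial.aeval (Sum.elim (fun v => Polynomial.C (w v)) fun x : Fin n × Fin n => M x.1 x.2)) =
        MvPolynomial.aeval (Sum.elim w fun x : Fin n × Fin n => (M.map (Polynomial.eval c)) x.1 x.2) := by
      refine MvPolynomial.algHom_ext fun s => ?_
      rw [AlgHom.comp_apply, MvPolynomial.aeval_X, MvPolynomial.aeval_X, AlgHom.restrictScalars_apply]
      rcases s with v | j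
      · exact Polynomial.aeval_C c (w v)
      · rfl
    rw [← h1]
    rfl
  set q : Polynomial ℂ := (M + 1).det with hq
  have hqe : ∀ c : ℂ, q.eval c = (M.map (Polynomial.eval c) + 1).det := by
    intro c
    have h1 := RingHom.map_det (Polynomial.evalRingHom c) (M + 1)
    rw [map_add, map_one] at h1
    exact h1
  have hpq : p * q = 0 := by
    refine Polynomial.funext fun c => ?_
    rw [Polynomial.eval_mul, Polynomial.eval_zero, hpe, hqe]
    by_cases h0 : (M.map (Polynomial.eval c) + 1).det = 0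
    · rw [h0, mul_zero]
    · rw [hopen _ (hM c) h0, zero_mul]
  have hq0 : q ≠ 0 := by
    intro h0
    have h1 := hqe 0
    rw [h0, Polynomial.eval_zero] at h1
    refine (?_ : (M.map (Polynomial.eval 0) + 1).det ≠ 0) h1.symm
    rw [hM0]
    have h3 : (1 : Matrix (Fin n) (Fin n) ℂ) + 1 = (2 : ℂ) • 1 := (two_smul ℂ _).symm
    rw [h3, Matrix.det_smul, Matrix.det_one, mul_one]
    exact pow_ne_zero _ two_ne_zero
  have hp0 := (mul_eq_zero.1 hpq).resolve_right hq0
  have h1 := hpe 1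
  rw [hp0, Polynomial.eval_zero, hM1] at h1
  exact h1.symm

end Pool.Agent.R351.GD.H
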